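import Pool.Agent.Y687.K2.Rec

/-!
The recursion for two split primes, conclusion.
-/

set_option autoImplicit false
set_option linter.style.haveILetI false

open Finset

namespace Pool.Agent.Y687

/-- the product of the factors at the remaining primes -/
theorem fac_V {a : ℕ → ℤ} {U W : Finset ℕ} (hU : ∀ q ∈ U, isII a q) (hW : ∀ q ∈ W, q.Prime)
    (hd : ∀ q ∈ U, q ∉ W) : V U.card (∏ q ∈ U, (a q - 2 * jacobiSym q (∏ q ∈ W, q))) :=
  V.prod _ _ fun q hq => V_factor (hU q hq).2.2.2 (hU q hq).1 hW (hd q hq)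

theorem sum_powerset_two {S : Finset ℕ} {p1 p2 : ℕ} (h1 : p1 ∉ S) (h2 : p2 ∉ S) (hne : p1 ≠ p2)
    (F : Finset ℕ → ℤ) : ∑ T ∈ (insert p1 (insert p2 S)).powerset, F T =
      ∑ T ∈ S.powerset, (F T + F (insert p2 T) + F (insert p1 T)) +
        ∑ T ∈ S.powerset, F (insert p1 (insert p2 T)) := by
  have h12 : p1 ∉ insert p2 S := by
    rw [Finset.mem_insert, not_or]
    exact ⟨hne, h1⟩
  rw [Finset.sum_powerset_insert h12, Finset.sum_powerset_insert h2, Finset.sum_powerset_insert h2]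
  simp only [Finset.sum_add_distrib]
  ring

theorem sum_split2 {s : ℚ → ℤ} {a : ℕ → ℤ} (hs : Symb2 s a) {p1 p2 : ℕ} (h1 : SP a p1)
    (h2 : SP a p2) (hne : p1 ≠ p2) {ε : ℤ}
    (hε : (jacobiSym p1 p2 = 1 ∧ ε = 0) ∨ (jacobiSym p1 p2 = -1 ∧ ε = 1)) (x1 x2 : Finset ℕ → ℤ)
    (S : Finset ℕ) : (∀ q ∈ S, isII a q) → p1 ∉ S → p2 ∉ S →
      (∀ T ⊆ S, a p1 - 2 * jacobiSym p1 (∏ q ∈ T, q) = 4 * x1 T) →
      (∀ T ⊆ S, a p2 - 2 * jacobiSym p2 (∏ q ∈ T, q) = 4 * x2 T) →
      Qc (S.card + 4) (SS s (∏ q ∈ insert p1 (insert p2 S), q) (∏ q ∈ insert p1 (insert p2 S), q))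
        (x1 S * x2 S + ε * (x1 S + x2 S)) := by
  classical
  have hε' : (jacobiSym p2 p1 = 1 ∧ ε = 0) ∨ (jacobiSym p2 p1 = -1 ∧ ε = 1) := by
    have h3 : jacobiSym p2 p1 = jacobiSym p1 p2 := by
      refine jacobiSym.quadratic_reciprocity_one_mod_four ?_ ?_
      · have := h2.p8; omega
      · have := h1.p8; exact Nat.odd_iff.2 (by omega)
    rw [h3]; exact hε
  obtain ⟨r, hr⟩ := exists_r h1.pp h1.p14
  have hrp := jac_r_pm h1.pp hr
  set c : ℕ → ℤ := fun q => if q = p1 then - jacobiSym r p1 else if q = p2 then -1 else 1 with hc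
  have hcpm : ∀ q, c q = 1 ∨ c q = -1 := by
    intro q
    simp only [hc]
    split_ifs
    · rcases hrp with h3 | h3 <;> rw [h3] <;> norm_num
    · exact Or.inr rfl
    · exact Or.inl rfl
  have hc1 : c p1 = - jacobiSym r p1 := by simp [hc]
  have hc2 : c p2 = -1 := by simp [hc, hne.symm]
  clear_value c
  induction S using Finset.strongInduction with
  | H S ih =>
    intro hS hp1S hp2S hx1 hx2
    obtain ⟨S', hS'⟩ : ∃ S', S' = insert p1 (insert p2 S) := ⟨_, rfl⟩
    have h12 : p1 ∉ insert p2 S := by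
      rw [Finset.mem_insert, not_or]
      exact ⟨hne, hp1S⟩
    have hII : ∀ q ∈ S', q.Prime ∧ q % 4 = 1 ∧ jacobiSym 14 q = 1 := by
      intro q hq
      rw [hS', Finset.mem_insert, Finset.mem_insert] at hq
      rcases hq with rfl | rfl | hq
      · exact ⟨h1.pp, by have := h1.p8; omega, h1.p14⟩
      · exact ⟨h2.pp, by have := h2.p8; omega, h2.p14⟩
      · exact ⟨(hS q hq).1, (hS q hq).2.1, (hS q hq).2.2.1⟩
    have hSp : ∀ q ∈ S', q.Prime ∧ ¬ q ∣ 14 := fun q hq =>
      ⟨(hII q hq).1, not_dvd14 (hII q hq).1 (hII q hq).2.2⟩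
    have hSS' : S ⊆ S' := by
      rw [hS']
      exact (Finset.subset_insert _ _).trans (Finset.subset_insert _ _)
    have hcard : S'.card = S.card + 2 := by
      rw [hS', Finset.card_insert_of_notMem h12, Finset.card_insert_of_notMem hp2S]
    have h3 := SS_class (s := s) S' (fun q hq => (hSp q hq).1) c (fun q _ => hcpm q)
    have h4 : (8 : ℤ) ∣ AA s S' c :=
      AA_eight hs S' c hII (by rw [hS']; simp) (by rw [hS']; simp) hne h1.p8 h2.p8 hr hc1 hc2
    obtain ⟨m, hm⟩ := h4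
    unfold AA at hm
    rw [hm, hcard, hS', sum_powerset_two hp1S hp2S hne, ← hS'] at h3
    have hprime : ∀ T ⊆ S, ∀ q ∈ T, q.Prime := fun T hT q hq => (hS q (hT hq)).1
    -- the terms
    have t1 : Qc (S.card + 4) (∑ T ∈ S.powerset,
        ((∏ q ∈ T, c q) * SS s (∏ q ∈ T, q) (∏ q ∈ S', q) +
          (∏ q ∈ insert p2 T, c q) * SS s (∏ q ∈ insert p2 T, q) (∏ q ∈ S', q) +
          (∏ q ∈ insert p1 T, c q) * SS s (∏ q ∈ insert p1 T, q) (∏ q ∈ S', q)))
        (∑ T ∈ S.powerset, (x1 T * x2 T + (x1 T + ε) * x2 T + (x2 T + ε) * x1 T)) := by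
      refine Qc.sum _ _ _ fun T hT => ?_
      rw [Finset.mem_powerset] at hT
      have hTp := hprime T hT
      have hp1T : p1 ∉ T := fun h => hp1S (hT h)
      have hp2T : p2 ∉ T := fun h => hp2S (hT h)
      have hII' : ∀ q ∈ S \ T, isII a q := fun q hq => hS q (Finset.mem_sdiff.1 hq).1
      have hcd : (S \ T).card + T.card = S.card := Finset.card_sdiff_add_card_eq_card hT
      refine Qc.add (Qc.add (Qc.sgn (sgn_prod c hcpm _) ?_) (Qc.sgn (sgn_prod c hcpm _) ?_))
        (Qc.sgn (sgn_prod c hcpm _) ?_)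
      · -- no split prime
        rw [SS_sub hs.toSymb (hT.trans hSS') hSp]
        have e1 : S' \ T = insert p1 (insert p2 (S \ T)) := by
          rw [hS', Finset.insert_sdiff_of_notMem _ hp1T, Finset.insert_sdiff_of_notMem _ hp2T]
        have n2 : p2 ∉ S \ T := fun h => hp2S (Finset.mem_sdiff.1 h).1
        have n1 : p1 ∉ insert p2 (S \ T) := by
          rw [Finset.mem_insert, not_or]
          exact ⟨hne, fun h => hp1S (Finset.mem_sdiff.1 h).1⟩
        rw [e1, Finset.prod_insert n1, Finset.prod_insert n2, hx1 T hT, hx2 T hT]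
        have q1 := (fac_V hII' hTp fun q hq => (Finset.mem_sdiff.1 hq).2).qc
        have q2 := (L_inert hs.toSymb T fun q hq => hS q (hT hq)).qc
        have q3 : Qc 2 (4 * x1 T) (x1 T) := ⟨0, by ring⟩
        have q4 : Qc 2 (4 * x2 T) (x2 T) := ⟨0, by ring⟩
        have q5 := (((q3.mul q4).mul q1).mul q2)
        have e2 : 2 + 2 + (S \ T).card + T.card = S.card + 4 := by omega
        rw [e2] at q5
        have e3 : 4 * x1 T * (4 * x2 T *
            ∏ q ∈ S \ T, (a q - 2 * jacobiSym (q : ℤ) (∏ q ∈ T, q))) * SS s (∏ q ∈ T, q) (∏ q ∈ T, q) =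
            4 * x1 T * (4 * x2 T) * (∏ q ∈ S \ T, (a q - 2 * jacobiSym (q : ℤ) (∏ q ∈ T, q))) *
              SS s (∏ q ∈ T, q) (∏ q ∈ T, q) := by ring
        rw [e3]
        simpa using q5
      · -- the prime `p2`
        rw [SS_sub hs.toSymb (by
          rw [hS']
          exact (Finset.insert_subset_insert p2 hT).trans (Finset.subset_insert _ _)) hSp]
        have e1 : S' \ insert p2 T = insert p1 (S \ T) := by
          rw [hS']
          ext q
          simp only [Finset.mem_sdiff, Finset.mem_insert, not_or]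
          constructor
          · rintro ⟨h6 | h6 | h6, h7, h8⟩
            · exact Or.inl h6
            · exact absurd h6 h7
            · exact Or.inr ⟨h6, h8⟩
          · rintro (rfl | ⟨h6, h7⟩)
            · exact ⟨Or.inl rfl, hne, hp1T⟩
            · exact ⟨Or.inr (Or.inr h6), fun h8 => hp2S (h8 ▸ h6), h7⟩
        have n1 : p1 ∉ S \ T := fun h => hp1S (Finset.mem_sdiff.1 h).1
        rw [e1, Finset.prod_insert n1]
        have q1 := (fac_V (W := insert p2 T) hII' (by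
          intro q hq
          rcases Finset.mem_insert.1 hq with rfl | hq
          · exact h2.pp
          · exact hTp q hq) (by
          intro q hq hq2
          rcases Finset.mem_insert.1 hq2 with rfl | hq2
          · exact hp2S (Finset.mem_sdiff.1 hq).1
          · exact (Finset.mem_sdiff.1 hq).2 hq2)).qc
        have q2 := h2.L hs.toSymb (fun q hq => hS q (hT hq)) hp2T (hx2 T hT)
        have q3 := h1.xx2 hTp hp1T h2.pp hε (hx1 T hT)
        rw [← Finset.prod_insert (f := fun q => q) hp2T] at q3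
        have q5 := (q3.mul q1).mul q2
        have e2 : 2 + (S \ T).card + (T.card + 2) = S.card + 4 := by omega
        rw [e2] at q5
        simpa using q5
      · -- the prime `p1`
        rw [SS_sub hs.toSymb (by
          rw [hS']
          exact Finset.insert_subset_insert p1 (hT.trans (Finset.subset_insert _ _))) hSp]
        have e1 : S' \ insert p1 T = insert p2 (S \ T) := by
          rw [hS']
          ext q
          simp only [Finset.mem_sdiff, Finset.mem_insert, not_or]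
          constructor
          · rintro ⟨h6 | h6 | h6, h7, h8⟩
            · exact absurd h6 h7
            · exact Or.inl h6
            · exact Or.inr ⟨h6, h8⟩
          · rintro (rfl | ⟨h6, h7⟩)
            · exact ⟨Or.inr (Or.inl rfl), hne.symm, hp2T⟩
            · exact ⟨Or.inr (Or.inr h6), fun h8 => hp1S (h8 ▸ h6), h7⟩
        have n1 : p2 ∉ S \ T := fun h => hp2S (Finset.mem_sdiff.1 h).1
        rw [e1, Finset.prod_insert n1]
        have q1 := (fac_V (W := insert p1 T) hII' (by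
          intro q hq
          rcases Finset.mem_insert.1 hq with rfl | hq
          · exact h1.pp
          · exact hTp q hq) (by
          intro q hq hq2
          rcases Finset.mem_insert.1 hq2 with rfl | hq2
          · exact hp1S (Finset.mem_sdiff.1 hq).1
          · exact (Finset.mem_sdiff.1 hq).2 hq2)).qc
        have q2 := h1.L hs.toSymb (fun q hq => hS q (hT hq)) hp1T (hx1 T hT)
        have q3 := h2.xx2 hTp hp2T h1.pp hε' (hx2 T hT)
        rw [← Finset.prod_insert (f := fun q => q) hp1T] at q3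
        have q5 := (q3.mul q1).mul q2
        have e2 : 2 + (S \ T).card + (T.card + 2) = S.card + 4 := by omega
        rw [e2] at q5
        simpa using q5
    have t2 : Qc (S.card + 4) (∑ T ∈ S.powerset.erase S, (∏ q ∈ insert p1 (insert p2 T), c q) *
        SS s (∏ q ∈ insert p1 (insert p2 T), q) (∏ q ∈ S', q))
        (∑ T ∈ S.powerset.erase S, (x1 T * x2 T + ε * (x1 T + x2 T))) := by
      refine Qc.sum _ _ _ fun T hT => ?_
      rw [Finset.mem_erase, Finset.mem_powerset] at hT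
      have hTp := hprime T hT.2
      have hp1T : p1 ∉ T := fun h => hp1S (hT.2 h)
      have hp2T : p2 ∉ T := fun h => hp2S (hT.2 h)
      have hII' : ∀ q ∈ S \ T, isII a q := fun q hq => hS q (Finset.mem_sdiff.1 hq).1
      have hcd : (S \ T).card + T.card = S.card := Finset.card_sdiff_add_card_eq_card hT.2
      refine Qc.sgn (sgn_prod c hcpm _) ?_
      rw [SS_sub hs.toSymb (by
        rw [hS']
        exact Finset.insert_subset_insert p1 (Finset.insert_subset_insert p2 hT.2)) hSp]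
      have e1 : S' \ insert p1 (insert p2 T) = S \ T := by
        rw [hS']
        ext q
        simp only [Finset.mem_sdiff, Finset.mem_insert, not_or]
        constructor
        · rintro ⟨h6 | h6 | h6, h7, h8, h9⟩
          · exact absurd h6 h7
          · exact absurd h6 h8
          · exact ⟨h6, h9⟩
        · rintro ⟨h6, h7⟩
          exact ⟨Or.inr (Or.inr h6), fun h8 => hp1S (h8 ▸ h6), fun h8 => hp2S (h8 ▸ h6), h7⟩
      rw [e1]
      have q1 := (fac_V (W := insert p1 (insert p2 T)) hII' (by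
        intro q hq
        rcases Finset.mem_insert.1 hq with rfl | hq
        · exact h1.pp
        · rcases Finset.mem_insert.1 hq with rfl | hq
          · exact h2.pp
          · exact hTp q hq) (by
        intro q hq hq2
        rcases Finset.mem_insert.1 hq2 with rfl | hq2
        · exact hp1S (Finset.mem_sdiff.1 hq).1
        · rcases Finset.mem_insert.1 hq2 with rfl | hq2
          · exact hp2S (Finset.mem_sdiff.1 hq).1
          · exact (Finset.mem_sdiff.1 hq).2 hq2)).qc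
      have q2 := ih T (Finset.ssubset_iff_subset_ne.2 ⟨hT.2, hT.1⟩) (fun q hq => hS q (hT.2 hq))
        hp1T hp2T (fun T' hT' => hx1 T' (hT'.trans hT.2)) (fun T' hT' => hx2 T' (hT'.trans hT.2))
      have q5 := q1.mul q2
      have e2 : (S \ T).card + (T.card + 4) = S.card + 4 := by omega
      rw [e2] at q5
      simpa using q5
    -- conclusion
    rw [← Finset.add_sum_erase S.powerset (fun T => (∏ q ∈ insert p1 (insert p2 T), c q) *
        SS s (∏ q ∈ insert p1 (insert p2 T), q) (∏ q ∈ S', q)) (Finset.mem_powerset_self S)] at h3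
    rw [← Finset.add_sum_erase S.powerset (fun T => x1 T * x2 T + (x1 T + ε) * x2 T +
        (x2 T + ε) * x1 T) (Finset.mem_powerset_self S)] at t1
    have t3 := (t1.add t2).neg
    have t4 : Qc (S.card + 4) ((2 : ℤ) ^ (S.card + 2) * (8 * m)) 0 := by
      refine ⟨m, ?_⟩
      rw [pow_add, pow_add]
      ring
    have t5 := t4.add t3
    have e5 : (∏ q ∈ insert p1 (insert p2 S), c q) *
        SS s (∏ q ∈ insert p1 (insert p2 S), q) (∏ q ∈ S', q) =
        (2 : ℤ) ^ (S.card + 2) * (8 * m) + -((∑ T ∈ S.powerset,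
        ((∏ q ∈ T, c q) * SS s (∏ q ∈ T, q) (∏ q ∈ S', q) +
          (∏ q ∈ insert p2 T, c q) * SS s (∏ q ∈ insert p2 T, q) (∏ q ∈ S', q) +
          (∏ q ∈ insert p1 T, c q) * SS s (∏ q ∈ insert p1 T, q) (∏ q ∈ S', q))) +
        ∑ T ∈ S.powerset.erase S, (∏ q ∈ insert p1 (insert p2 T), c q) *
        SS s (∏ q ∈ insert p1 (insert p2 T), q) (∏ q ∈ S', q)) := by
      linear_combination h3
    rw [← e5] at t5
    have t6 : Qc (S.card + 4) ((∏ q ∈ insert p1 (insert p2 S), c q) *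
        SS s (∏ q ∈ insert p1 (insert p2 S), q) (∏ q ∈ S', q))
        (x1 S * x2 S + ε * (x1 S + x2 S)) := by
      refine t5.congr ?_
      have e6 : (∑ x ∈ S.powerset.erase S, (x1 x * x2 x + (x1 x + ε) * x2 x + (x2 x + ε) * x1 x)) +
          ∑ T ∈ S.powerset.erase S, (x1 T * x2 T + ε * (x1 T + x2 T)) =
          2 * ∑ T ∈ S.powerset.erase S, (2 * (x1 T * x2 T) + ε * (x1 T + x2 T)) := by
        rw [← Finset.sum_add_distrib, Finset.mul_sum]
        refine Finset.sum_congr rfl fun T _ => ?_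
        ring
      refine ⟨x1 S * x2 S + ∑ T ∈ S.powerset.erase S, (2 * (x1 T * x2 T) + ε * (x1 T + x2 T)), ?_⟩
      linear_combination e6
    rw [← hS'] at t6 ⊢
    rcases sgn_prod c hcpm S' with h10 | h10
    · rwa [h10, one_mul] at t6
    · rw [h10, neg_one_mul] at t6
      have := t6.neg
      rwa [neg_neg] at this

/-- nonvanishing of the symbol sum -/
theorem L2_ne_zero {s : ℚ → ℤ} {a : ℕ → ℤ} (hs : Symb2 s a) {p1 p2 : ℕ} (h1 : SP a p1)
    (h2 : SP a p2) (hne : p1 ≠ p2) {S : Finset ℕ} (hS : ∀ q ∈ S, isII a q) (hp1S : p1 ∉ S)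
    (hp2S : p2 ∉ S)
    (hN : (jacobiSym p1 p2 = 1 ∧ ¬ (8 : ℤ) ∣ a p1 - 2 * jacobiSym p1 (∏ q ∈ S, q) ∧
        ¬ (8 : ℤ) ∣ a p2 - 2 * jacobiSym p2 (∏ q ∈ S, q)) ∨
      (jacobiSym p1 p2 = -1 ∧ (¬ (8 : ℤ) ∣ a p1 - 2 * jacobiSym p1 (∏ q ∈ S, q) ∨
        ¬ (8 : ℤ) ∣ a p2 - 2 * jacobiSym p2 (∏ q ∈ S, q)))) :
    SS s (p1 * (p2 * ∏ q ∈ S, q)) (p1 * (p2 * ∏ q ∈ S, q)) ≠ 0 := by
  classical
  have hprime : ∀ T ⊆ S, ∀ q ∈ T, q.Prime := fun T hT q hq => (hS q (hT hq)).1
  obtain ⟨x1, hx1⟩ : ∃ x1 : Finset ℕ → ℤ, ∀ T ⊆ S,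
      a p1 - 2 * jacobiSym p1 (∏ q ∈ T, q) = 4 * x1 T := by
    refine ⟨fun T => (a p1 - 2 * jacobiSym p1 (∏ q ∈ T, q)) / 4, fun T hT => ?_⟩
    obtain ⟨x, hx⟩ := h1.xx (hprime T hT) (fun h => hp1S (hT h))
    show _ = 4 * ((a p1 - 2 * jacobiSym p1 (∏ q ∈ T, q)) / 4)
    rw [hx]
    omega
  obtain ⟨x2, hx2⟩ : ∃ x2 : Finset ℕ → ℤ, ∀ T ⊆ S,
      a p2 - 2 * jacobiSym p2 (∏ q ∈ T, q) = 4 * x2 T := by
    refine ⟨fun T => (a p2 - 2 * jacobiSym p2 (∏ q ∈ T, q)) / 4, fun T hT => ?_⟩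
    obtain ⟨x, hx⟩ := h2.xx (hprime T hT) (fun h => hp2S (hT h))
    show _ = 4 * ((a p2 - 2 * jacobiSym p2 (∏ q ∈ T, q)) / 4)
    rw [hx]
    omega
  intro h0
  have h12 : p1 ∉ insert p2 S := by
    rw [Finset.mem_insert, not_or]
    exact ⟨hne, hp1S⟩
  have key : ∀ ε : ℤ, ((jacobiSym p1 p2 = 1 ∧ ε = 0) ∨ (jacobiSym p1 p2 = -1 ∧ ε = 1)) →
      (2 : ℤ) ∣ x1 S * x2 S + ε * (x1 S + x2 S) := by
    intro ε hε
    obtain ⟨k, hk⟩ := sum_split2 hs h1 h2 hne hε x1 x2 S hS hp1S hp2S hx1 hx2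
    rw [Finset.prod_insert h12, Finset.prod_insert hp2S, h0] at hk
    have h3 : x1 S * x2 S + ε * (x1 S + x2 S) + 2 * k = 0 := by
      rcases mul_eq_zero.1 hk.symm with h4 | h4
      · exact absurd h4 (by positivity)
      · exact h4
    exact ⟨-k, by linear_combination h3⟩
  have odd1 : ¬ (8 : ℤ) ∣ a p1 - 2 * jacobiSym p1 (∏ q ∈ S, q) → ¬ (2 : ℤ) ∣ x1 S := by
    intro h3 h4
    apply h3
    rw [hx1 S (Finset.Subset.refl _)]
    obtain ⟨k, hk⟩ := h4
    exact ⟨k, by rw [hk]; ring⟩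
  have odd2 : ¬ (8 : ℤ) ∣ a p2 - 2 * jacobiSym p2 (∏ q ∈ S, q) → ¬ (2 : ℤ) ∣ x2 S := by
    intro h3 h4
    apply h3
    rw [hx2 S (Finset.Subset.refl _)]
    obtain ⟨k, hk⟩ := h4
    exact ⟨k, by rw [hk]; ring⟩
  rcases hN with ⟨hj, ha, hb⟩ | ⟨hj, hab⟩
  · have h3 := key 0 (Or.inl ⟨hj, rfl⟩)
    rw [zero_mul, add_zero] at h3
    rcases Int.prime_two.dvd_or_dvd h3 with h4 | h4
    · exact odd1 ha h4
    · exact odd2 hb h4
  · have h3 := key 1 (Or.inr ⟨hj, rfl⟩)
    rw [one_mul] at h3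
    have h4 : (2 : ℤ) ∣ (1 + x1 S) * (1 + x2 S) - 1 := by
      have e : (1 + x1 S) * (1 + x2 S) - 1 = x1 S * x2 S + (x1 S + x2 S) := by ring
      rw [e]; exact h3
    rcases hab with ha | hb
    · have h5 := odd1 ha
      obtain ⟨k, hk⟩ : ∃ k, x1 S = 2 * k + 1 := ⟨x1 S / 2, by omega⟩
      rw [hk] at h4
      obtain ⟨l, hl⟩ := h4
      have : (2 : ℤ) ∣ 1 := ⟨(1 + k) * (1 + x2 S) - l, by linear_combination -hl⟩
      norm_num at this
    · have h5 := odd2 hb
      obtain ⟨k, hk⟩ : ∃ k, x2 S = 2 * k + 1 := ⟨x2 S / 2, by omega⟩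
      rw [hk] at h4
      obtain ⟨l, hl⟩ := h4
      have : (2 : ℤ) ∣ 1 := ⟨(1 + k) * (1 + x1 S) - l, by linear_combination -hl⟩
      norm_num at this

end Pool.Agent.Y687
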