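import Pool.Agent.Y687.K2.Desc2p
import Pool.Agent.Y687.K2.Rec2
import Pool.Agent.Y687.Main

/-!
Weak BSD for the twists of `X_0(14)` by `p1 p2 m`.
-/

set_option autoImplicit false
set_option linter.style.haveILetI false

open Finset

namespace Pool.Agent.Y687

open Pool.Agent.W97.MT (ap E14)

theorem split_sp {p : ℕ} (hp : Split p) : SP (fun q => ap E14 q) p := by
  obtain ⟨pp, p8, p7⟩ := hp
  obtain ⟨k1, k2⟩ := SS_facts p pp p8 p7
  exact ⟨pp, p8, k1, k2⟩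

theorem split_notMem {p : ℕ} {S : Finset ℕ} (hp : Split p) (hS : ∀ q ∈ S, Inert q) : p ∉ S := by
  intro h
  have h1 := (hS p h).2.1
  have h2 := hp.2.1
  omega

theorem split_not_dvd {p : ℕ} {S : Finset ℕ} (hp : Split p) (hS : ∀ q ∈ S, Inert q) :
    ¬ p ∣ ∏ q ∈ S, q := fun h =>
  split_notMem hp hS (dvd_prod_primes (fun q hq => (hS q hq).1) hp.1 h)

/-- the number of points on the twist -/
noncomputable def NN (m p : ℕ) : ℕ := cnt (5805 * (m : ℤ) ^ 2) (-285714 * (m : ℤ) ^ 3) p + 1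

theorem split_facts {p : ℕ} {S : Finset ℕ} (hp : Split p) (hS : ∀ q ∈ S, Inert q)
    (hN : ¬ 8 ∣ NN (∏ q ∈ S, q) p) :
    ¬ (8 : ℤ) ∣ ap E14 p - 2 * jacobiSym p (∏ q ∈ S, q) ∧ Rt p (∏ q ∈ S, q) := by
  haveI : Fact p.Prime := ⟨hp.1⟩
  exact hyp_facts p hp.1 hp.2.1 hp.2.2 (∏ q ∈ S, q) (prod_mod_four hS) (split_not_dvd hp hS) hN

theorem two_sqf {p1 p2 : ℕ} (hne : p1 ≠ p2) {S : Finset ℕ} (h1 : Split p1) (h2 : Split p2)
    (hS : ∀ q ∈ S, Inert q) : Squarefree (p1 * p2 * ∏ q ∈ S, q) := by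
  have hSp : ∀ q ∈ S, q.Prime := fun q hq => (hS q hq).1
  have c1 : Nat.Coprime p1 (∏ q ∈ S, q) :=
    (Nat.Prime.coprime_iff_not_dvd h1.1).2 (split_not_dvd h1 hS)
  have c2 : Nat.Coprime p2 (∏ q ∈ S, q) :=
    (Nat.Prime.coprime_iff_not_dvd h2.1).2 (split_not_dvd h2 hS)
  rw [Nat.squarefree_mul_iff]
  refine ⟨Nat.Coprime.mul_left c1 c2, ?_, squarefree_prod hSp⟩
  rw [Nat.squarefree_mul_iff]
  exact ⟨(Nat.coprime_primes h1.1 h2.1).2 hne, h1.1.squarefree, h2.1.squarefree⟩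

/-- the condition on the two split primes -/
def Cond2 (p1 p2 m : ℕ) : Prop :=
  (¬ 8 ∣ NN m p1 ∧ ¬ 8 ∣ NN m p2) ∨
    (¬ IsSquare (p1 : ZMod p2) ∧ (¬ 8 ∣ NN m p1 ∨ ¬ 8 ∣ NN m p2))

/-- the main theorem for two split primes -/
theorem main2 {p1 p2 : ℕ} (hne : p1 ≠ p2) {S : Finset ℕ} (h1 : Split p1) (h2 : Split p2)
    (hS : ∀ q ∈ S, Inert q) (hN : Cond2 p1 p2 (∏ q ∈ S, q)) :
    (∃ f : ℂ → ℂ, Differentiable ℂ f ∧
      (∀ s : ℂ, (3 : ℝ) / 2 < s.re →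
        HasProd (fun l : {l : ℕ // l.Prime ∧
            ¬ ((l : ℤ) ∣ 2 * (4 * (5805 * ((p1 * p2 * ∏ q ∈ S, q : ℕ) : ℤ) ^ 2) ^ 3 +
              27 * (-285714 * ((p1 * p2 * ∏ q ∈ S, q : ℕ) : ℤ) ^ 3) ^ 2))} =>
          fac (5805 * ((p1 * p2 * ∏ q ∈ S, q : ℕ) : ℤ) ^ 2)
            (-285714 * ((p1 * p2 * ∏ q ∈ S, q : ℕ) : ℤ) ^ 3) s l)
          (f s)) ∧ f 1 ≠ 0) ∧
    {q : ℚ × ℚ | q.2 ^ 2 = q.1 ^ 3 +
    ((5805 * ((p1 * p2 * ∏ q ∈ S, q : ℕ) : ℤ) ^ 2 : ℤ) : ℚ) * q.1 +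
      ((-285714 * ((p1 * p2 * ∏ q ∈ S, q : ℕ) : ℤ) ^ 3 : ℤ) : ℚ)}.Finite := by
  classical
  have hSp : ∀ q ∈ S, q.Prime := fun q hq => (hS q hq).1
  have hm4 := prod_mod_four hS
  haveI : Fact p1.Prime := ⟨h1.1⟩
  haveI : Fact p2.Prime := ⟨h2.1⟩
  have hsq := two_sqf hne h1 h2 hS
  have p18 := h1.2.1
  have p28 := h2.2.1
  have hcop12 : Nat.Coprime p1 p2 := (Nat.coprime_primes h1.1 h2.1).2 hne
  have hj : jacobiSym p1 p2 = 1 ∨ jacobiSym p1 p2 = -1 := by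
    refine jacobiSym.eq_one_or_neg_one ?_
    rw [Int.gcd_natCast_natCast]
    exact hcop12
  have hp10 : ((p1 : ℤ) : ZMod p2) ≠ 0 := by
    rw [Ne, ZMod.intCast_zmod_eq_zero_iff_dvd, Int.natCast_dvd_natCast]
    intro h
    exact hne ((Nat.prime_dvd_prime_iff_eq h2.1 h1.1).1 h).symm
  have hj1 : jacobiSym p1 p2 = 1 ↔ IsSquare (p1 : ZMod p2) := by
    rw [← jacobiSym.legendreSym.to_jacobiSym, legendreSym.eq_one_iff _ hp10]
    push_cast
    exact Iff.rfl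
  -- the arithmetic conditions
  have hA : (jacobiSym p1 p2 = 1 ∧ ¬ (8 : ℤ) ∣ ap E14 p1 - 2 * jacobiSym p1 (∏ q ∈ S, q) ∧
        ¬ (8 : ℤ) ∣ ap E14 p2 - 2 * jacobiSym p2 (∏ q ∈ S, q)) ∨
      (jacobiSym p1 p2 = -1 ∧ (¬ (8 : ℤ) ∣ ap E14 p1 - 2 * jacobiSym p1 (∏ q ∈ S, q) ∨
        ¬ (8 : ℤ) ∣ ap E14 p2 - 2 * jacobiSym p2 (∏ q ∈ S, q))) := by
    rcases hN with ⟨a, b⟩ | ⟨a, b⟩
    · have a' := (split_facts h1 hS a).1
      have b' := (split_facts h2 hS b).1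
      rcases hj with h | h
      · exact Or.inl ⟨h, a', b'⟩
      · exact Or.inr ⟨h, Or.inl a'⟩
    · right
      refine ⟨hj.resolve_left fun h => a (hj1.1 h), ?_⟩
      rcases b with b | b
      · exact Or.inl (split_facts h1 hS b).1
      · exact Or.inr (split_facts h2 hS b).1
  have hc12 : IsSquare (p1 : ZMod p2) → Rt p1 (∏ q ∈ S, q) ∧ Rt p2 (∏ q ∈ S, q) := by
    intro h
    rcases hN with ⟨a, b⟩ | ⟨a, b⟩
    · exact ⟨(split_facts h1 hS a).2, (split_facts h2 hS b).2⟩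
    · exact absurd h a
  have hcor : Rt p1 (∏ q ∈ S, q) ∨ Rt p2 (∏ q ∈ S, q) := by
    rcases hN with ⟨a, b⟩ | ⟨a, b⟩
    · exact Or.inl (split_facts h1 hS a).2
    · rcases b with b | b
      · exact Or.inl (split_facts h1 hS b).2
      · exact Or.inr (split_facts h2 hS b).2
  have H : Hyp2 (∏ q ∈ S, q) p1 p2 := by
    refine ⟨hm4, h1.1, h2.1, p18, p28, ?_, ?_, by omega, by omega, ?_, ?_, hc12, hcor⟩
    · exact Int.squarefree_natCast.2 hsq
    · intro q hq hqm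
      obtain ⟨-, q8, q7⟩ := hS q (dvd_prod_primes hSp hq hqm)
      haveI : Fact q.Prime := ⟨hq⟩
      refine ⟨by omega, by omega, ?_, ?_⟩
      · rw [sq_seven q (by omega) (by omega)]
        omega
      · rw [sq_two q (by omega)]
        omega
    · exact (sq_seven p1 (by omega) (by omega)).2 h1.2.2
    · exact (sq_seven p2 (by omega) (by omega)).2 h2.2.2
  refine ⟨?_, H.finite_set⟩
  -- the analytic side
  obtain ⟨s, Op, hOp, hsym, hs⟩ := exists_symb2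
  have hII : ∀ q ∈ S, isII (fun q => ap E14 q) q := fun q hq =>
    II_facts q (hS q hq).1 (hS q hq).2.1 (hS q hq).2.2
  have hneq := L2_ne_zero hsym (split_sp h1) (split_sp h2) hne hII (split_notMem h1 hS)
    (split_notMem h2 hS) hA
  rw [← mul_assoc] at hneq
  have hM4 : (p1 * p2 * ∏ q ∈ S, q) % 4 = 1 := by
    rw [Nat.mul_mod, Nat.mul_mod p1 p2, hm4]
    have e1 : p1 % 4 = 1 := by omega
    have e2 : p2 % 4 = 1 := by omega
    rw [e1, e2]
  have hpos : 0 < ∏ q ∈ S, q := by omega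
  have hgt : 1 < p1 * p2 * ∏ q ∈ S, q := by
    have := h1.1.one_lt
    have := h2.1.pos
    nlinarith [Nat.mul_pos this hpos]
  refine exists_f_ne (p1 * p2 * ∏ q ∈ S, q) (Nat.odd_iff.2 (by omega)) hsq hgt hM4 ?_ hOp hs hneq
  rw [show (42 : ℕ) = 2 * 3 * 7 by norm_num]
  have key : ∀ l : ℕ, l.Prime → l ≠ p1 → l ≠ p2 → l ∉ S →
      Nat.Coprime (p1 * p2 * ∏ q ∈ S, q) l := by
    intro l hl k1 k2 k3
    rw [Nat.coprime_comm, Nat.Prime.coprime_iff_not_dvd hl, hl.dvd_mul, hl.dvd_mul, not_or, not_or]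
    exact ⟨⟨fun h => k1 ((Nat.prime_dvd_prime_iff_eq hl h1.1).1 h),
      fun h => k2 ((Nat.prime_dvd_prime_iff_eq hl h2.1).1 h)⟩,
      fun h => k3 (dvd_prod_primes hSp hl h)⟩
  have h17 := h1.2.2
  have h27 := h2.2.2
  refine Nat.Coprime.mul_right (Nat.Coprime.mul_right (key 2 Nat.prime_two (by omega) (by omega) ?_)
    (key 3 Nat.prime_three (by omega) (by omega) ?_)) (key 7 (by norm_num) (by omega) (by omega) ?_)
  · intro h
    have := (hS 2 h).2.1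
    omega
  · intro h
    have := (hS 3 h).2.1
    omega
  · intro h
    have := (hS 7 h).2.1
    omega

/-- congruence conditions making the condition true for one split prime -/
theorem exists_t {p : ℕ} {S : Finset ℕ} (hp : Split p) (hS : ∀ q ∈ S, Inert q) :
    ∃ t : ℕ, Nat.Coprime t p ∧ ∀ q : ℕ, Inert q → q ∉ S → q ≡ t [MOD p] →
      ¬ 8 ∣ NN (∏ r ∈ insert q S, r) p := by
  classical
  obtain ⟨pp, p8, p7⟩ := hp
  haveI : Fact p.Prime := ⟨pp⟩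
  obtain ⟨-, k, hk⟩ := SS_facts p pp p8 p7
  have hSp : ∀ q ∈ S, q.Prime := fun q hq => (hS q hq).1
  have hm4 := prod_mod_four hS
  have hpm : ¬ p ∣ ∏ q ∈ S, q := by
    intro h
    have h1 := (hS p (dvd_prod_primes hSp pp h)).2.1
    omega
  have hjm : jacobiSym p (∏ q ∈ S, q) = 1 ∨ jacobiSym p (∏ q ∈ S, q) = -1 := by
    refine jacobiSym.eq_one_or_neg_one ?_
    rw [Int.gcd_natCast_natCast]
    exact (Nat.Prime.coprime_iff_not_dvd pp).2 hpm
  -- the wanted value of the symbol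
  obtain ⟨η, hη, hη2⟩ : ∃ η : ℤ, (η = 1 ∨ η = -1) ∧
      ¬ (8 : ℤ) ∣ 1 + p - (η * jacobiSym p (∏ q ∈ S, q)) * ap E14 p := by
    rcases Int.even_or_odd k with ⟨j, hj⟩ | ⟨j, hj⟩
    · refine ⟨-jacobiSym p (∏ q ∈ S, q), by rcases hjm with h | h <;> rw [h] <;> norm_num, ?_⟩
      rcases hjm with h | h <;> rw [h] <;> omega
    · refine ⟨jacobiSym p (∏ q ∈ S, q), hjm, ?_⟩
      rcases hjm with h | h <;> rw [h] <;> omega
  -- a residue with this symbol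
  obtain ⟨t, ht⟩ : ∃ t : ℕ, jacobiSym (t : ℤ) p = η := by
    rcases hη with rfl | rfl
    · exact ⟨1, by simp⟩
    · have hchar : ringChar (ZMod p) ≠ 2 := by
        rw [ZMod.ringChar_zmod_n]; omega
      obtain ⟨a, ha⟩ := quadraticChar_exists_neg_one hchar
      refine ⟨a.val, ?_⟩
      rw [← jacobiSym.legendreSym.to_jacobiSym, legendreSym]
      simpa using ha
  have htp : Nat.Coprime t p := by
    by_contra hne
    have h0 : jacobiSym (t : ℤ) p = 0 := by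
      haveI : NeZero p := ⟨pp.ne_zero⟩
      rw [jacobiSym.eq_zero_iff_not_coprime]
      intro hg
      rw [Int.gcd_natCast_natCast] at hg
      exact hne hg
    rw [ht] at h0
    rcases hη with rfl | rfl <;> norm_num at h0
  refine ⟨t, htp, ?_⟩
  intro q hI hqS' hq2
  have hq := hI.1
  have hqp : q ≠ p := by
    intro h
    have := hI.2.1
    omega
  have hI' : ∀ r ∈ insert q S, Inert r := by
    intro r hr
    rcases Finset.mem_insert.1 hr with rfl | hr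
    · exact hI
    · exact hS r hr
  have hm4' := prod_mod_four hI'
  have hpm' : ¬ p ∣ ∏ r ∈ insert q S, r := by
    intro h
    have h1 := (hI' p (dvd_prod_primes (fun r hr => (hI' r hr).1) pp h)).2.1
    omega
  have hpq : jacobiSym p q = η := by
    haveI : Fact q.Prime := ⟨hq⟩
    have hq8 := hI.2.1
    rw [jacobiSym.quadratic_reciprocity_one_mod_four (by omega) (hq.odd_of_ne_two (by omega)), ← ht]
    refine jacobiSym.mod_left' ?_
    have h9 : q % p = t % p := hq2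
    exact_mod_cast h9
  have hprod : jacobiSym p (∏ r ∈ insert q S, r) = η * jacobiSym p (∏ q ∈ S, q) := by
    haveI : NeZero q := ⟨hq.ne_zero⟩
    haveI : NeZero (∏ q ∈ S, q) := ⟨Finset.prod_ne_zero_iff.2 fun r hr => (hSp r hr).ne_zero⟩
    rw [Finset.prod_insert hqS', jacobiSym.mul_right, hpq]
  have h1 := cnt_twist 5805 (-285714) (∏ r ∈ insert q S, r) p (by omega) hm4' hpm'
  rw [cnt_E14 p pp (by omega) (by omega), hprod] at h1
  intro h8
  apply hη2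
  rw [← h1]
  have h2 : ((8 : ℕ) : ℤ) ∣ ((cnt (5805 * ((∏ r ∈ insert q S, r : ℕ) : ℤ) ^ 2)
      (-285714 * ((∏ r ∈ insert q S, r : ℕ) : ℤ) ^ 3) p + 1 : ℕ) : ℤ) := Int.natCast_dvd_natCast.2 h8
  push_cast at h2 ⊢
  have h3 : ∀ P C : ℤ, 1 + P - (P - C) = C + 1 := fun P C => by ring
  rw [h3]
  exact h2

/-- infinitely many inert primes to be added -/
theorem infinite_q2 {p1 p2 : ℕ} (hne : p1 ≠ p2) {S : Finset ℕ} (h1 : Split p1) (h2 : Split p2)
    (hS : ∀ q ∈ S, Inert q) :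
    {q : ℕ | Inert q ∧ q ∉ S ∧ ¬ 8 ∣ NN (∏ r ∈ insert q S, r) p1 ∧
      ¬ 8 ∣ NN (∏ r ∈ insert q S, r) p2}.Infinite := by
  classical
  obtain ⟨t1, ht1, k1⟩ := exists_t h1 hS
  obtain ⟨t2, ht2, k2⟩ := exists_t h2 hS
  have h12 : Nat.Coprime p1 p2 := (Nat.coprime_primes h1.1 h2.1).2 hne
  have c56 : ∀ p : ℕ, Split p → Nat.Coprime 56 p := by
    intro p hp
    obtain ⟨pp, p8, p7⟩ := hp
    rw [show (56 : ℕ) = 2 ^ 3 * 7 by norm_num]
    refine Nat.Coprime.mul_left (Nat.Coprime.pow_left 3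
      ((Nat.coprime_primes Nat.prime_two pp).2 (by omega)))
      ((Nat.coprime_primes (by norm_num) pp).2 (by omega))
  obtain ⟨t, u1, u2⟩ := Nat.chineseRemainder h12 t1 t2
  have h56 : Nat.Coprime 56 (p1 * p2) := Nat.Coprime.mul_right (c56 p1 h1) (c56 p2 h2)
  obtain ⟨n, hn1, hn2⟩ := Nat.chineseRemainder h56 45 t
  have hn3 : n ≡ t1 [MOD p1] := (hn2.of_mul_right p2).trans u1
  have hn4 : n ≡ t2 [MOD p2] := (hn2.of_mul_left p1).trans u2
  haveI : NeZero (56 * (p1 * p2)) :=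
    ⟨Nat.mul_ne_zero (by norm_num) (Nat.mul_ne_zero h1.1.ne_zero h2.1.ne_zero)⟩
  have hunit : IsUnit ((n : ℕ) : ZMod (56 * (p1 * p2))) := by
    rw [ZMod.isUnit_iff_coprime]
    refine Nat.Coprime.mul_right ?_ (Nat.Coprime.mul_right ?_ ?_)
    · have h1 := hn1.gcd_eq
      rw [Nat.coprime_iff_gcd_eq_one, h1]
      norm_num
    · have h1 := hn3.gcd_eq
      rw [Nat.coprime_iff_gcd_eq_one, h1]
      exact ht1
    · have h1 := hn4.gcd_eq
      rw [Nat.coprime_iff_gcd_eq_one, h1]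
      exact ht2
  have hinf := Nat.infinite_setOfPred_prime_and_eq_mod hunit
  refine (hinf.sdiff (S.finite_toSet)).mono ?_
  rintro q ⟨⟨hq, hqn⟩, hqS⟩
  rw [ZMod.natCast_eq_natCast_iff] at hqn
  have hq1 : q ≡ 45 [MOD 56] := (hqn.of_mul_right (p1 * p2)).trans hn1
  have hq2 : q ≡ n [MOD (p1 * p2)] := hqn.of_mul_left 56
  have hq3 : q ≡ t1 [MOD p1] := (hq2.of_mul_right p2).trans hn3
  have hq4 : q ≡ t2 [MOD p2] := (hq2.of_mul_left p1).trans hn4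
  have hq56 : q % 56 = 45 := hq1
  have hI : Inert q := ⟨hq, by omega, by omega⟩
  have hqS' : q ∉ S := fun h => hqS (by simpa using h)
  exact ⟨hI, hqS', k1 q hI hqS' hq3, k2 q hI hqS' hq4⟩

end Pool.Agent.Y687
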