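import Pool.Agent.Y687.Sym

/-!
The symbol of `X_0(14)` under the whole group `Γ_0(14)`.
-/

set_option autoImplicit false

open Filter Topology MeasureTheory Set

namespace Pool.Agent.Y687

open Pool.Agent.W97.TW Pool.Agent.W97.MT

/-- the value of the symbol at `B / D` and the additive constant of the matrix -/
theorem II_val {ε C : ℂ} (hF : ∀ z : ℂ, 0 < z.im → F (m14 z) = ε * F z + C)
    {A B C' D : ℤ} (hdet : A * D - B * (14 * C') = 1) (hD : 0 < D) {p : ℂ}
    (hp : ∀ z : ℂ, 0 < z.im → F ((A * z + B) / (14 * C' * z + D)) = F z + p) :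
    II ((B : ℚ) / D) = C + p := by
  have hcR : (0 : ℝ) < D := by exact_mod_cast hD
  have hm : ∀ z : ℂ, 0 < z.im → 0 < (m14 z).im := (isCusp14 hcp hqe).pos
  have h : 14 * B * (-C') - D * (-A) = 1 := by linarith
  have key : ∀ s : ℝ, 0 < s → F ((B : ℂ) / D + ((14 * (D : ℝ) ^ 2 * s)⁻¹ : ℝ) * Complex.I)
      = ε * F (((-(-C' : ℤ) / D : ℝ) : ℂ) + s * Complex.I) + (C + p) := by
    intro s hs
    have him : 0 < (((-(-C' : ℤ) / D : ℝ) : ℂ) + s * Complex.I).im := by simpa using hs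
    have h1 := hp _ (hm _ him)
    have h2 := path14 hD h hs
    rw [hF _ him] at h1
    rw [← h2, neg_neg, neg_neg, h1]
    ring
  have l1 : Tendsto (fun t : ℝ => F (((B : ℂ) / D) + t * Complex.I)) (𝓝[>] 0) (𝓝 (C + p)) := by
    have t1 : Tendsto (fun t : ℝ => (14 * (D : ℝ) ^ 2 * t)⁻¹) (𝓝[>] 0) atTop := by
      have e : (fun t : ℝ => (14 * (D : ℝ) ^ 2 * t)⁻¹) = fun t : ℝ => (14 * (D : ℝ) ^ 2)⁻¹ * t⁻¹ := by
        ext t; rw [mul_inv]
      rw [e]
      exact tendsto_inv_nhdsGT_zero.const_mul_atTop (by positivity)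
    have t2 := (((F_QV.tendsto.comp (iI_real _ (-(-C' : ℤ) / D) t1)).const_mul ε).add_const (C + p))
    rw [mul_zero, zero_add] at t2
    refine t2.congr' ?_
    filter_upwards [self_mem_nhdsWithin] with t ht
    have ht0 : (0 : ℝ) < t := ht
    have hs0 : 0 < (14 * (D : ℝ) ^ 2 * t)⁻¹ := by positivity
    have h2 := key _ hs0
    have h3 : (14 * (D : ℝ) ^ 2 * (14 * (D : ℝ) ^ 2 * t)⁻¹)⁻¹ = t := by field_simp
    rw [h3] at h2
    rw [h2]
    rfl
  obtain ⟨c, rfl⟩ : ∃ c : ℕ, D = c := ⟨D.toNat, (Int.toNat_of_nonneg hD.le).symm⟩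
  have hc : 0 < c := by exact_mod_cast hD
  have h14 : IsCoprime (14 * B) (c : ℤ) := ⟨-C', A, by linarith⟩
  have l2 := F_tendsto hc h14
  have l1' : Tendsto (fun t : ℝ => F ((B : ℂ) / (c : ℕ) + t * Complex.I)) (𝓝[>] 0) (𝓝 (C + p)) := by
    refine l1.congr fun t => ?_
    push_cast
    rfl
  have h3 := tendsto_nhds_unique l2 l1'
  rw [← h3]
  push_cast
  rfl

theorem II_val' {ε C : ℂ} (hF : ∀ z : ℂ, 0 < z.im → F (m14 z) = ε * F z + C)
    {A B C' D : ℤ} (hdet : A * D - B * (14 * C') = 1) {p : ℂ}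
    (hp : ∀ z : ℂ, 0 < z.im → F ((A * z + B) / (14 * C' * z + D)) = F z + p) :
    II ((B : ℚ) / D) = C + p := by
  have hD : D ≠ 0 := by
    rintro rfl
    have : (14 : ℤ) ∣ 1 := ⟨-(B * C'), by linarith⟩
    norm_num at this
  rcases lt_or_gt_of_ne hD with h | h
  · have h1 := II_val hF (A := -A) (B := -B) (C' := -C') (D := -D) (by linarith) (by linarith)
      (p := p) (fun z hz => by
        rw [← hp z hz]
        congr 1
        push_cast
        rw [← neg_div_neg_eq]
        congr 1 <;> ring)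
    rw [← h1]
    congr 1
    push_cast
    rw [neg_div_neg_eq]
  · exact II_val hF hdet h hp

/-- the symbol under the group -/
theorem II_aff {A B C' D : ℤ} (hdet : A * D - B * (14 * C') = 1) {a c : ℤ}
    (hc : IsCoprime (14 * a) c) :
    II (((A * a + B * c : ℤ) : ℚ) / ((14 * C' * a + D * c : ℤ) : ℚ)) =
      II ((a : ℚ) / c) + II ((B : ℚ) / D) - II 0 := by
  obtain ⟨ε, C, hε, -, hF⟩ := (isCusp14 hcp hqe).map.const
  obtain ⟨u, v, huv⟩ := hc
  obtain ⟨p1, hp1⟩ := F_gamma hcp hqe hdet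
  have d2 : v * c - a * (14 * (-u)) = 1 := by linarith
  obtain ⟨p2, hp2⟩ := F_gamma hcp hqe d2
  have d3 : (A * v + B * (14 * (-u))) * (14 * C' * a + D * c) -
      (A * a + B * c) * (14 * (C' * v + D * (-u))) = 1 := by
    linear_combination (v * c - a * (14 * (-u))) * hdet + d2
  obtain ⟨p3, hp3⟩ := F_gamma hcp hqe d3
  have e3 : p3 = p1 + p2 := by
    have hz : 0 < (Complex.I).im := by norm_num
    have d2' : v * c - a * (14 * (-u)) = 1 := d2
    obtain ⟨i2, n2⟩ := im_moebius (a := v) (b := a) (c := 14 * (-u)) (d := c) d2 hz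
    obtain ⟨i1, n1⟩ := im_moebius (a := A) (b := B) (c := 14 * C') (d := D) hdet i2
    have q3 := hp3 Complex.I hz
    have q1 := hp1 _ i2
    have q2 := hp2 Complex.I hz
    push_cast at q1 q2 q3 n2 n1
    rw [q2] at q1
    have e : (((A : ℂ) * v + B * (14 * -u)) * Complex.I + (A * a + B * c)) /
        (14 * ((C' : ℂ) * v + D * -u) * Complex.I + (14 * C' * a + D * c)) =
        (A * ((v * Complex.I + a) / (14 * -u * Complex.I + c)) + B) /
          (14 * C' * ((v * Complex.I + a) / (14 * -u * Complex.I + c)) + D) := by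
      have f1 : (((A : ℂ) * v + B * (14 * -u)) * Complex.I + (A * a + B * c)) =
          A * (v * Complex.I + a) + B * (14 * -u * Complex.I + c) := by ring
      have f2 : (14 * ((C' : ℂ) * v + D * -u) * Complex.I + (14 * C' * a + D * c)) =
          14 * C' * (v * Complex.I + a) + D * (14 * -u * Complex.I + c) := by ring
      rw [f1, f2]
      generalize (v : ℂ) * Complex.I + a = X at *
      generalize (14 : ℂ) * -u * Complex.I + c = W at *
      have f3 : 14 * (C' : ℂ) * X + D * W = (14 * C' * (X / W) + D) * W := by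
        field_simp
      have f4 : (A : ℂ) * X + B * W = (A * (X / W) + B) * W := by
        field_simp
      rw [f3, f4, mul_div_mul_right _ _ n2]
    rw [e, q1] at q3
    linear_combination -q3
  have v1 := II_val' hF hdet hp1
  have v2 := II_val' hF d2 hp2
  have v3 := II_val' hF d3 hp3
  have v0 := II_val' hF (A := 1) (B := 0) (C' := 0) (D := 1) (by norm_num) (p := 0) (fun z _ => by
    push_cast
    simp)
  have e0 : ((0 : ℤ) : ℚ) / ((1 : ℤ) : ℚ) = 0 := by norm_num
  rw [e0] at v0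
  rw [v1, v2, v3, v0, e3]
  ring

/-- the integral symbol under the group -/
theorem symb_aff {s : ℚ → ℤ} {Op : ℝ} (hOp : 0 < Op) (hs : ∀ r : ℚ, (3 : ℝ) * (II r).re = s r * Op)
    {A B C' D : ℤ} (hdet : A * D - B * (14 * C') = 1) {a c : ℤ} (hc : IsCoprime (14 * a) c) :
    s (((A * a + B * c : ℤ) : ℚ) / ((14 * C' * a + D * c : ℤ) : ℚ)) =
      s ((a : ℚ) / c) + s ((B : ℚ) / D) - s 0 := by
  have h1 := congrArg Complex.re (II_aff hdet hc)
  rw [Complex.sub_re, Complex.add_re] at h1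
  have h2 : ((s (((A * a + B * c : ℤ) : ℚ) / ((14 * C' * a + D * c : ℤ) : ℚ)) : ℤ) : ℝ) * Op =
      ((s ((a : ℚ) / c) + s ((B : ℚ) / D) - s 0 : ℤ) : ℝ) * Op := by
    push_cast
    rw [sub_mul, add_mul]
    have e1 := hs (((A * a + B * c : ℤ) : ℚ) / ((14 * C' * a + D * c : ℤ) : ℚ))
    have e2 := hs ((a : ℚ) / c)
    have e3 := hs ((B : ℚ) / D)
    have e4 := hs 0
    push_cast at e1 h1
    rw [← e1, ← e2, ← e3, ← e4, h1]
    ring
  exact_mod_cast mul_right_cancel₀ hOp.ne' h2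

end Pool.Agent.Y687
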