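import Pool.Agent.Y687.K2.Eis
import Pool.Agent.Y687.K2.Aff
import Pool.Agent.Y687.Aq

/-!
The symbol of `X_0(14)` modulo two is a Dedekind symbol.
-/

set_option autoImplicit false
set_option linter.style.haveILetI false

open Finset

namespace Pool.Agent.Y687

open Pool.Agent.W97.MT (ap E14 II)

/-- the symbol with the action of the whole group -/
structure Symb2 (s : ℚ → ℤ) (a : ℕ → ℤ) : Prop extends Symb s a where
  aff : ∀ {A B C' D : ℤ}, A * D - B * (14 * C') = 1 → ∀ {x c : ℤ}, IsCoprime (14 * x) c →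
    s (((A * x + B * c : ℤ) : ℚ) / ((14 * C' * x + D * c : ℤ) : ℚ)) =
      s ((x : ℚ) / c) + s ((B : ℚ) / D) - s 0
  a3 : a 3 = -2
  a5 : (4 : ℤ) ∣ a 5

theorem exists_symb2 : ∃ (s : ℚ → ℤ) (Op : ℝ), 0 < Op ∧ Symb2 s (fun q => ap E14 q) ∧
    ∀ r : ℚ, (3 : ℝ) * (II r).re = s r * Op := by
  obtain ⟨s, Op, hOp, hs, hv⟩ := exists_symb
  refine ⟨s, Op, hOp, ⟨hs, fun hdet _ _ hc => symb_aff hOp hv hdet hc, ap3, ?_⟩, hv⟩
  exact (II_facts 5 (by norm_num) (by norm_num) (by norm_num)).2.2.2

theorem E13 : EE 1 3 = -1 := by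
  have : Int.sign 3 = 1 := rfl
  norm_num [EE, psi, ded, saw, Finset.sum_range_succ, this]
theorem E15 : EE 1 5 = -1 := by
  have : Int.sign 5 = 1 := rfl
  norm_num [EE, psi, ded, saw, Finset.sum_range_succ, this]
theorem E613 : EE 6 13 = -2 := by
  have : Int.sign 13 = 1 := rfl
  norm_num [EE, psi, ded, saw, Finset.sum_range_succ, this]

section

variable {s : ℚ → ℤ} {a : ℕ → ℤ}

theorem Symb2.s13 (h : Symb2 s a) : s (1 / 3) = -2 * s 0 := by
  have h1 := h.hecke 3 Nat.prime_three (by norm_num) 0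
  rw [h.a3] at h1
  simp only [Finset.sum_range_succ, Finset.sum_range_zero] at h1
  norm_num at h1
  have h2 : s (2 / 3) = s (1 / 3) := by
    have e1 := h.per (-(1 / 3))
    have e2 := h.neg (1 / 3)
    norm_num at e1 e2
    rw [e1, e2]
  linarith

theorem Symb2.s15 (h : Symb2 s a) : s (1 / 5) = 4 * s 0 := by
  have h1 := h.aff (A := -5) (B := 1) (C' := 1) (D := -3) (by norm_num) (x := 1) (c := 5)
    (by norm_num)
  have h2 := h.neg (1 / 3)
  have h3 := h.s13
  norm_num at h1 h2 h3
  linarith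

theorem Symb2.s25 (h : Symb2 s a) {k : ℤ} (hk : a 5 = 4 * k) :
    s (2 / 5) = (2 * k - 5) * s 0 := by
  have h1 := h.hecke 5 (by norm_num) (by norm_num) 0
  rw [hk] at h1
  simp only [Finset.sum_range_succ, Finset.sum_range_zero] at h1
  norm_num at h1
  have h2 : s (4 / 5) = s (1 / 5) := by
    have e1 := h.per (-(1 / 5))
    have e2 := h.neg (1 / 5)
    norm_num at e1 e2
    rw [e1, e2]
  have h3 : s (3 / 5) = s (2 / 5) := by
    have e1 := h.per (-(2 / 5))
    have e2 := h.neg (2 / 5)
    norm_num at e1 e2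
    rw [e1, e2]
  have h4 := h.s15
  have h5 : s 5⁻¹ = s (1 / 5) := by norm_num
  rw [h2, h3] at h1
  linarith

theorem Symb2.s613 (h : Symb2 s a) {k : ℤ} (hk : a 5 = 4 * k) :
    s (6 / 13) = (1 - 2 * k) * s 0 := by
  have h1 := h.hecke 3 Nat.prime_three (by norm_num) (2 / 5)
  rw [h.a3] at h1
  simp only [Finset.sum_range_succ, Finset.sum_range_zero] at h1
  norm_num at h1
  have h4 : s (4 / 5) = s (1 / 5) := by
    have e1 := h.per (-(1 / 5))
    have e2 := h.neg (1 / 5)
    norm_num at e1 e2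
    rw [e1, e2]
  have h6 : s (6 / 5) = s (1 / 5) := by
    have e1 := h.per (1 / 5)
    norm_num at e1
    exact e1
  have h7 : s (2 / 15) = s (7 / 15) := by
    have e1 := h.inv 15 2 7 (by norm_num) (by norm_num)
    norm_num at e1
    exact e1
  have h8 : s (2 / 13) = s (2 / 15) := by
    have e1 := h.aff (A := 1) (B := 0) (C' := 1) (D := 1) (by norm_num) (x := 2) (c := -15)
      ⟨7, 13, by norm_num⟩
    have e2 := h.neg (2 / 15)
    norm_num at e1 e2
    rw [e1, e2]
  have h9 : s (2 / 13) = s (7 / 13) := by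
    have e1 := h.inv 13 2 7 (by norm_num) (by norm_num)
    norm_num at e1
    exact e1
  have h10 : s (7 / 13) = s (6 / 13) := by
    have e1 := h.per (-(6 / 13))
    have e2 := h.neg (6 / 13)
    norm_num at e1 e2
    rw [e1, e2]
  have h11 := h.s15
  have h12 := h.s25 hk
  rw [h4, h6, ← h7, ← h8, h9, h10] at h1
  linarith

/-- the symbol is the Dedekind symbol modulo two -/
def Good (s : ℚ → ℤ) (x M : ℤ) : Prop := ∃ n : ℤ, EE x M = n ∧ Even (s ((x : ℚ) / M) - s 0 - n)

theorem Good.neg_neg {x M : ℤ} (hM : M ≠ 0) (h : Good s x M) : Good s (-x) (-M) := by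
  obtain ⟨n, h1, h2⟩ := h
  refine ⟨n, by rw [EE_neg_neg hM, h1], ?_⟩
  push_cast
  rw [neg_div_neg_eq]
  exact h2

theorem Good.neg (H : Symb2 s a) {x M : ℤ} (hM : M ≠ 0) (h : Good s x M) : Good s (-x) M := by
  obtain ⟨n, h1, h2⟩ := h
  refine ⟨-n, by rw [EE_neg hM, h1]; push_cast; rfl, ?_⟩
  push_cast
  rw [neg_div, H.neg]
  obtain ⟨k, hk⟩ := h2
  exact ⟨k + n, by linear_combination hk⟩

theorem Good.add (H : Symb2 s a) {x M : ℤ} (hM : M ≠ 0) (m : ℤ) (h : Good s x M) :
    Good s (x + m * M) M := by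
  obtain ⟨n, h1, h2⟩ := h
  refine ⟨n - 2 * m, by rw [EE_add hM, h1]; push_cast; rfl, ?_⟩
  have hMq : (M : ℚ) ≠ 0 := by exact_mod_cast hM
  have e : (((x + m * M : ℤ) : ℚ) / M) = (x : ℚ) / M + m := by
    push_cast
    field_simp
  rw [e, per_int H.per]
  obtain ⟨k, hk⟩ := h2
  exact ⟨k + m, by linear_combination hk⟩

theorem Good.one (H : Symb2 s a) (x : ℤ) : Good s x 1 := by
  refine ⟨-2 * x, by rw [EE_one]; push_cast; rfl, ?_⟩
  have e : ((x : ℚ) / ((1 : ℤ) : ℚ)) = 0 + (x : ℤ) := by simp
  rw [e, per_int H.per]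
  exact ⟨x, by ring⟩

theorem Good.of_aff (H : Symb2 s a) {A B D : ℤ} {c : ℕ} (hdet : A * D - B * (14 * c) = 1)
    (hc : 0 < c) {x M : ℤ} (hcop : IsCoprime (14 * x) M) (hM : M ≠ 0)
    (hK : 14 * c * x + D * M ≠ 0) (h1 : Good s (A * x + B * M) (14 * c * x + D * M))
    (h2 : Good s B D) : Good s x M := by
  obtain ⟨n1, a1, b1⟩ := h1
  obtain ⟨n2, a2, b2⟩ := h2
  have h3 := EE_aff hdet hc hcop hM hK
  have h4 := H.aff hdet hcop
  refine ⟨n1 - n2, ?_, ?_⟩
  · push_cast
    rw [← a1, ← a2, h3]
    ring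
  · obtain ⟨k1, hk1⟩ := b1
    obtain ⟨k2, hk2⟩ := b2
    exact ⟨k1 - k2, by rw [h4] at hk1; linear_combination hk1 - hk2⟩

theorem good13 (H : Symb2 s a) : Good s 1 3 := by
  refine ⟨-1, by rw [E13]; norm_num, ?_⟩
  have h1 := H.s13
  obtain ⟨k, hk⟩ := H.odd0
  have e : (((1 : ℤ) : ℚ) / ((3 : ℤ) : ℚ)) = 1 / 3 := by norm_num
  rw [e, h1]
  exact ⟨-3 * k - 1, by rw [hk]; ring⟩

theorem good15 (H : Symb2 s a) : Good s 1 5 := by
  refine ⟨-1, by rw [E15]; norm_num, ?_⟩
  have h1 := H.s15
  obtain ⟨k, hk⟩ := H.odd0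
  have e : (((1 : ℤ) : ℚ) / ((5 : ℤ) : ℚ)) = 1 / 5 := by norm_num
  rw [e, h1]
  exact ⟨3 * k + 2, by rw [hk]; ring⟩

theorem good613 (H : Symb2 s a) : Good s 6 13 := by
  refine ⟨-2, by rw [E613]; norm_num, ?_⟩
  obtain ⟨k5, hk5⟩ := H.a5
  have h1 := H.s613 hk5
  have e : (((6 : ℤ) : ℚ) / ((13 : ℤ) : ℚ)) = 6 / 13 := by norm_num
  rw [e, h1]
  exact ⟨-k5 * s 0 + 1, by ring⟩

theorem good_all (H : Symb2 s a) (n : ℕ) : ∀ x M : ℤ, M.natAbs = n → M ≠ 0 →
    IsCoprime (14 * x) M → Good s x M := by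
  induction n using Nat.strong_induction_on with
  | _ n ih =>
    intro x M hn hM0 hcop
    -- reduction to positive denominators
    wlog hMp : 0 < M generalizing x M
    · have h1 := this (-x) (-M) (by rw [Int.natAbs_neg, hn]) (neg_ne_zero.2 hM0)
        (by rw [mul_neg]; exact hcop.neg_neg) (by omega)
      have h2 := h1.neg_neg (neg_ne_zero.2 hM0)
      rwa [neg_neg, neg_neg] at h2
    rcases eq_or_ne M 1 with rfl | hM1
    · exact Good.one H x
    have hodd : M % 2 = 1 := by
      rcases Int.emod_two_eq_zero_or_one M with h1 | h1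
      · exfalso
        have h2 : (2 : ℤ) ∣ 14 * x := ⟨7 * x, by ring⟩
        have h3 := hcop.isUnit_of_dvd' h2 (Int.dvd_of_emod_eq_zero h1)
        rw [Int.isUnit_iff] at h3
        omega
      · exact h1
    -- `14 x` is not divisible by `M`
    have hnd : ∀ j : ℤ, 14 * x ≠ j * M := by
      intro j hj
      have h3 := hcop.isUnit_of_dvd' (Dvd.intro_left j hj.symm) (dvd_refl M)
      rw [Int.isUnit_iff] at h3
      omega
    -- the general step
    have step : ∀ (y : ℤ), IsCoprime (14 * y) M → 0 < y → 2 * y < M → Good s y M := by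
      intro y hy hy0 hy1
      have hnd' : ∀ j : ℤ, 14 * y ≠ j * M := by
        intro j hj
        have h3 := hy.isUnit_of_dvd' (Dvd.intro_left j hj.symm) (dvd_refl M)
        rw [Int.isUnit_iff] at h3
        omega
      have main : ∀ (A B D : ℤ) (c : ℕ), A * D - B * (14 * c) = 1 → 0 < c →
          |14 * c * y + D * M| < M → Good s B D → Good s y M := by
        intro A B D c hdet hc hlt hBD
        have hK : 14 * (c : ℤ) * y + D * M ≠ 0 := by
          intro h0
          have h1 : D % 2 = 1 := by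
            rcases Int.emod_two_eq_zero_or_one D with h1 | h1
            · exfalso
              obtain ⟨d, hd⟩ := Int.dvd_of_emod_eq_zero h1
              rw [hd] at hdet
              have : (2 : ℤ) ∣ 1 := ⟨A * d - B * (7 * c), by rw [← hdet]; ring⟩
              norm_num at this
            · exact h1
          obtain ⟨d, hd⟩ : ∃ d, D = 2 * d + 1 := ⟨D / 2, by omega⟩
          obtain ⟨e, he⟩ : ∃ e, M = 2 * e + 1 := ⟨M / 2, by omega⟩
          rw [hd, he] at h0
          have : (2 : ℤ) ∣ 1 := ⟨-(7 * c * y + 2 * d * e + d + e), by linear_combination h0⟩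
          norm_num at this
        refine Good.of_aff H hdet hc hy hM0 hK ?_ hBD
        refine ih _ ?_ _ _ rfl hK ?_
        · rw [← hn]
          zify
          rw [abs_of_pos hMp]
          exact hlt
        · -- coprimality
          obtain ⟨u, v, huv⟩ := hy
          have h14 : IsCoprime (14 : ℤ) (14 * (c : ℤ) * y + D * M) := by
            have h1 : IsCoprime (14 : ℤ) (D * M) := by
              refine IsCoprime.mul_right ⟨-(B * c), A, by linear_combination hdet⟩
                ⟨u * y, v, by linear_combination huv⟩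
            have h2 : 14 * (c : ℤ) * y + D * M = D * M + 14 * (c * y) := by ring
            rw [h2]
            exact (IsCoprime.add_mul_left_right_iff).2 h1
          refine IsCoprime.mul_left h14 ?_
          -- Bezout from the inverse matrix
          refine ⟨u * 14 * D - v * (14 * c), -(u * 14 * B) + v * A, ?_⟩
          linear_combination (u * 14 * y + v * M) * hdet + huv
      have c1 : 14 * y < 2 * M ∨ (2 * M < 14 * y ∧ 14 * y < 4 * M) ∨
          (4 * M < 14 * y ∧ 14 * y < 6 * M) ∨ (6 * M < 14 * y ∧ 14 * y < 7 * M) := by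
        have := hnd' 2
        have := hnd' 4
        have := hnd' 6
        omega
      rcases c1 with c1 | c1 | c1 | c1
      · refine main (-1) 0 (-1) 1 (by norm_num) one_pos ?_ ?_
        · rw [abs_lt]
          push_cast
          constructor <;> omega
        · have h1 := (Good.one H 0).neg_neg one_ne_zero
          exact h1
      · refine main (-5) 1 (-3) 1 (by norm_num) one_pos ?_ ?_
        · rw [abs_lt]
          push_cast
          constructor <;> omega
        · have h1 := ((good13 H).neg H (by norm_num)).neg_neg (by norm_num)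
          exact h1
      · refine main (-3) 1 (-5) 1 (by norm_num) one_pos ?_ ?_
        · rw [abs_lt]
          push_cast
          constructor <;> omega
        · have h1 := ((good15 H).neg H (by norm_num)).neg_neg (by norm_num)
          exact h1
      · refine main (-13) 6 (-13) 2 (by norm_num) two_pos ?_ ?_
        · rw [abs_lt]
          push_cast
          constructor <;> omega
        · have h1 := ((good613 H).neg H (by norm_num)).neg_neg (by norm_num)
          exact h1
    -- reduce `x` modulo `M`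
    obtain ⟨y, m, hxy, hy0, hyM⟩ : ∃ y m : ℤ, x = y + m * M ∧ 0 ≤ y ∧ y < M :=
      ⟨x % M, x / M, by linear_combination -(Int.emod_add_mul_ediv x M), Int.emod_nonneg _ hM0,
        Int.emod_lt_of_pos _ hMp⟩
    have hcy : IsCoprime (14 * y) M := by
      have h1 : 14 * x = 14 * y + (14 * m) * M := by rw [hxy]; ring
      rw [h1] at hcop
      exact (IsCoprime.add_mul_right_left_iff).1 hcop
    have hy00 : y ≠ 0 := by
      rintro rfl
      exact hnd (14 * m) (by rw [hxy]; ring)
    rw [hxy]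
    refine Good.add H hM0 m ?_
    rcases lt_or_ge (2 * y) M with h1 | h1
    · exact step y hcy (by omega) h1
    · have h2 : IsCoprime (14 * (M - y)) M := by
        have h3 : 14 * (M - y) = -(14 * y) + 14 * M := by ring
        rw [h3]
        exact (IsCoprime.add_mul_right_left_iff).2 hcy.neg_left
      have h3 := step (M - y) h2 (by omega) (by omega)
      have h4 := (h3.neg H hM0).add H hM0 1
      have e : -(M - y) + 1 * M = y := by ring
      rwa [e] at h4

end

end Pool.Agent.Y687
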