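import Pool.Agent.Y687.K2.Quart

/-!
The parity of the Dedekind symbol as an inner product of sign functions, final form.
-/

set_option autoImplicit false
set_option linter.style.haveILetI false

open Finset

namespace Pool.Agent.Y687

section

variable {M : ℕ} [NeZero M]

theorem sum_even (hM : M % 2 = 1) (F : ZMod M → ℤ) (h0 : F 0 = 0) (hF : ∀ x, F (-x) = F x) :
    ∑ x, F x = 2 * ∑ x ∈ univ.filter (fun x : ZMod M => x.val % 2 = 1), F x := by
  rw [← sum_filter_add_sum_filter_not univ (fun x : ZMod M => x.val % 2 = 1)]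
  have h1 : ∑ x ∈ univ.filter (fun x : ZMod M => ¬ x.val % 2 = 1), F x =
      ∑ x ∈ univ.filter (fun x : ZMod M => x ≠ 0 ∧ ¬ x.val % 2 = 1), F x := by
    symm
    refine sum_subset ?_ ?_
    · intro x hx
      rw [mem_filter] at hx ⊢
      exact ⟨hx.1, hx.2.2⟩
    · intro x hx hx2
      rw [mem_filter] at hx hx2
      by_cases hx0 : x = 0
      · rw [hx0, h0]
      · exact absurd ⟨mem_univ _, hx0, hx.2⟩ hx2
  rw [h1, two_mul]
  congr 1
  have hv0 : (0 : ZMod M).val = 0 := ZMod.val_zero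
  refine half_sum _ _ _ ?_ ?_ ?_ ?_
  · intro x hx _
    rw [mem_filter] at hx
    refine ⟨mem_filter.2 ⟨mem_univ _, ?_⟩, hF x⟩
    rw [val_neg' hx.2.1]
    have := ZMod.val_lt x
    omega
  · intro x hx _
    rw [mem_filter] at hx
    have hx0 : x ≠ 0 := by
      rintro rfl
      rw [hv0] at hx
      omega
    refine ⟨mem_filter.2 ⟨mem_univ _, neg_ne_zero.2 hx0, ?_⟩, hF x⟩
    rw [val_neg' hx0]
    have := ZMod.val_lt x
    omega
  · intro x hx hx2
    rw [mem_filter] at hx hx2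
    rw [val_neg' hx.2.1] at hx2
    have := ZMod.val_lt x
    omega
  · intro x hx hx2
    rw [mem_filter] at hx hx2
    have hx0 : x ≠ 0 := by
      rintro rfl
      rw [hv0] at hx
      omega
    rw [val_neg' hx0] at hx2
    have := ZMod.val_lt x
    omega

/-- the positive half system -/
def Pos (M : ℕ) [NeZero M] : Finset (ZMod M) := univ.filter fun z => z ≠ 0 ∧ 2 * z.val ≤ M

theorem mem_Pos {z : ZMod M} : z ∈ Pos M ↔ z ≠ 0 ∧ 2 * z.val ≤ M := by
  simp [Pos]

/-- the parity of a residue -/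
def oo (x : ZMod M) : ZMod 2 := ((x.val : ℕ) : ZMod 2)

theorem oo_neg (hM : M % 2 = 1) {x : ZMod M} (hx : x ≠ 0) : oo (-x) = oo x + 1 := by
  unfold oo
  rw [val_neg' hx]
  have h1 := ZMod.val_lt x
  have h2 : (((M - x.val) + x.val : ℕ) : ZMod 2) = 1 := by
    rw [Nat.sub_add_cancel h1.le]
    have h3 : ((M : ℕ) : ZMod 2) = ((1 : ℕ) : ZMod 2) := (ZMod.natCast_eq_natCast_iff' _ _ _).2 (by omega)
    rw [h3]; norm_num
  push_cast at h2
  have h4 : (((x.val : ℕ)) : ZMod 2) + ((x.val : ℕ) : ZMod 2) = 0 := CharTwo.add_self_eq_zero _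
  linear_combination h2 - h4

/-- unfolding a sum over odd residues -/
theorem T_sum (hM : M % 2 = 1) {b b' : ZMod M} (hb : b * b' = 1) :
    ∑ x ∈ univ.filter (fun x : ZMod M => x.val % 2 = 1), (b * x).valMinAbs =
      ∑ z ∈ Pos M, eps (b' * z) * (z.val : ℤ) := by
  have hv0 : (0 : ZMod M).val = 0 := ZMod.val_zero
  have hb0 : ∀ x : ZMod M, x ≠ 0 → b * x ≠ 0 := by
    intro x hx h0
    apply hx
    have : b' * (b * x) = 0 := by rw [h0, mul_zero]
    have e : b' * (b * x) = (b * b') * x := by ring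
    rw [e, hb, one_mul] at this
    exact this
  have h1 : ∑ x ∈ univ.filter (fun x : ZMod M => x.val % 2 = 1), (b * x).valMinAbs =
      ∑ x ∈ univ.filter (fun x : ZMod M => x.val % 2 = 1), eps x * (b * x).valMinAbs := by
    refine sum_congr rfl fun x hx => ?_
    rw [mem_filter] at hx
    unfold eps
    rw [if_pos hx.2, one_mul]
  rw [h1]
  have h2 : ∑ x ∈ univ.filter (fun x : ZMod M => x.val % 2 = 1), eps x * (b * x).valMinAbs =
      ∑ x ∈ univ.filter (fun x : ZMod M => x ≠ 0 ∧ 2 * (b * x).val ≤ M), eps x * (b * x).valMinAbs := by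
    have hev : ∀ x : ZMod M, x ≠ 0 → eps (-x) * (b * -x).valMinAbs = eps x * (b * x).valMinAbs := by
      intro x hx
      rw [eps_neg hM hx, mul_neg, vma_neg hM]
      ring
    refine half_sum _ _ _ ?_ ?_ ?_ ?_
    · intro x hx hx2
      rw [mem_filter] at hx hx2
      have hx0 : x ≠ 0 := by
        rintro rfl
        rw [hv0] at hx
        omega
      refine ⟨mem_filter.2 ⟨mem_univ _, neg_ne_zero.2 hx0, ?_⟩, hev x hx0⟩
      have h3 : ¬ 2 * (b * x).val ≤ M := fun h => hx2 ⟨mem_univ _, hx0, h⟩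
      rw [mul_neg, val_neg' (hb0 x hx0)]
      have := ZMod.val_lt (b * x)
      omega
    · intro x hx hx2
      rw [mem_filter] at hx hx2
      refine ⟨mem_filter.2 ⟨mem_univ _, ?_⟩, hev x hx.2.1⟩
      have h3 : ¬ x.val % 2 = 1 := fun h => hx2 ⟨mem_univ _, h⟩
      rw [val_neg' hx.2.1]
      have := ZMod.val_lt x
      omega
    · intro x hx hx2
      rw [mem_filter] at hx hx2
      have hx0 : x ≠ 0 := by
        rintro rfl
        rw [hv0] at hx
        omega
      rw [val_neg' hx0] at hx2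
      have := ZMod.val_lt x
      omega
    · intro x hx hx2
      rw [mem_filter] at hx hx2
      have h3 := hx2.2.2
      rw [mul_neg, val_neg' (hb0 x hx.2.1)] at h3
      have := ZMod.val_lt (b * x)
      omega
  rw [h2]
  have hb'0 : ∀ z : ZMod M, z ≠ 0 → b' * z ≠ 0 := by
    intro x hx h0
    apply hx
    have : b * (b' * x) = 0 := by rw [h0, mul_zero]
    have e : b * (b' * x) = (b * b') * x := by ring
    rw [e, hb, one_mul] at this
    exact this
  refine sum_nbij' (fun x => b * x) (fun z => b' * z) ?_ ?_ ?_ ?_ ?_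
  · intro x hx
    rw [mem_filter] at hx
    exact mem_Pos.2 ⟨hb0 x hx.2.1, hx.2.2⟩
  · intro z hz
    rw [mem_Pos] at hz
    refine mem_filter.2 ⟨mem_univ _, hb'0 z hz.1, ?_⟩
    rw [← mul_assoc, hb, one_mul]
    exact hz.2
  · intro x _
    show b' * (b * x) = x
    rw [← mul_assoc, mul_comm b' b, hb, one_mul]
  · intro z _
    show b * (b' * z) = z
    rw [← mul_assoc, hb, one_mul]
  · intro x hx
    rw [mem_filter] at hx
    show eps x * (b * x).valMinAbs = eps (b' * (b * x)) * ((b * x).val : ℤ)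
    rw [← mul_assoc, mul_comm b' b, hb, one_mul, ZMod.valMinAbs_def_pos, if_pos (by omega)]

/-- the Dedekind symbol modulo two -/
theorem EE_par (hM : M % 4 = 1) {a n : ℤ} {b c : ZMod M} (hb : (a : ZMod M) * b = 1)
    (hc : 7 * (a : ZMod M) * c = 1) (hn : EE a M = n) :
    (n : ZMod 2) = ∑ z ∈ Pos M, oo z +
      ∑ z ∈ Pos M, (oo z + oo (2 * z)) * (oo (b * z) + oo (c * z)) := by
  have hM2 : M % 2 = 1 := by omega
  have h1 := EE_sum hM2 hn
  rw [sum_even hM2 _ (by simp) (by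
    intro x
    rcases eq_or_ne x 0 with rfl | hx
    · simp
    · rw [mul_neg, mul_neg, vma_neg hM2, vma_neg hM2, val_neg' hx, Nat.cast_sub (ZMod.val_lt x).le]
      ring)] at h1
  -- modulo four
  have h2 : (4 : ℤ) ∣ ∑ x ∈ univ.filter (fun x : ZMod M => x.val % 2 = 1),
      ((2 * (x.val : ℤ) - M) * (((a : ZMod M) * x).valMinAbs - 7 * (7 * (a : ZMod M) * x).valMinAbs)
        - (((a : ZMod M) * x).valMinAbs + (7 * (a : ZMod M) * x).valMinAbs)) := by
    refine dvd_sum fun x hx => ?_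
    rw [mem_filter] at hx
    generalize ((a : ZMod M) * x).valMinAbs = u
    generalize (7 * (a : ZMod M) * x).valMinAbs = v
    obtain ⟨k, hk⟩ : ∃ k : ℤ, 2 * (x.val : ℤ) - M = 1 + 4 * k := by
      refine ⟨(2 * (x.val : ℤ) - M - 1) / 4, ?_⟩
      have := hx.2
      omega
    rw [hk]
    exact ⟨k * u - 7 * k * v - 2 * v, by ring⟩
  rw [sum_sub_distrib, sum_add_distrib] at h2
  rw [T_sum hM2 hb, T_sum hM2 hc] at h2
  obtain ⟨k, hk⟩ := h2
  obtain ⟨t, ht⟩ : ∃ t : ℤ, (M : ℤ) = 1 + 4 * t := ⟨((M : ℤ) - 1) / 4, by omega⟩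
  have he : ∀ y : ZMod M, eps y = 2 * (((y.val % 2 : ℕ)) : ℤ) - 1 := by
    intro y
    unfold eps
    split_ifs with h
    · rw [h]; norm_num
    · have : y.val % 2 = 0 := by omega
      rw [this]; norm_num
  have h3 : ∀ d : ZMod M, ∑ z ∈ Pos M, eps (d * z) * (z.val : ℤ) =
      2 * ∑ z ∈ Pos M, (((d * z).val % 2 : ℕ) : ℤ) * (z.val : ℤ) - ∑ z ∈ Pos M, (z.val : ℤ) := by
    intro d
    rw [mul_sum, ← sum_sub_distrib]
    refine sum_congr rfl fun z _ => ?_
    rw [he]
    ring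
  rw [h3, h3] at hk
  have h4 : ∃ j : ℤ, n = ∑ z ∈ Pos M, (z.val : ℤ) +
      (∑ z ∈ Pos M, (((b * z).val % 2 : ℕ) : ℤ) * (z.val : ℤ) +
        ∑ z ∈ Pos M, (((c * z).val % 2 : ℕ) : ℤ) * (z.val : ℤ)) + 2 * j := by
    generalize (∑ z ∈ Pos M, (((b * z).val % 2 : ℕ) : ℤ) * (z.val : ℤ)) = B at hk ⊢
    generalize (∑ z ∈ Pos M, (((c * z).val % 2 : ℕ) : ℤ) * (z.val : ℤ)) = C at hk ⊢
    generalize (∑ z ∈ Pos M, (z.val : ℤ)) = Z at hk ⊢
    generalize (∑ x ∈ univ.filter (fun x : ZMod M => x.val % 2 = 1),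
      (2 * (x.val : ℤ) - M) * (((a : ZMod M) * x).valMinAbs - 7 * (7 * (a : ZMod M) * x).valMinAbs))
      = W at hk h1
    have h5 : W = 4 * k + 2 * B + 2 * C - 2 * Z := by linear_combination hk
    rw [h5] at h1
    have h6 : (M : ℤ) ^ 2 * n = -2 * a * M - (2 * k + B + C - Z) := by
      have : (4 : ℤ) * ((M : ℤ) ^ 2 * n) = 4 * (-2 * a * M - (2 * k + B + C - Z)) := by
        linear_combination h1
      exact mul_left_cancel₀ (by norm_num) this
    refine ⟨-a * M - k - B - C - (4 * t + 8 * t ^ 2) * n, ?_⟩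
    have h7 : (M : ℤ) ^ 2 = 1 + 2 * (4 * t + 8 * t ^ 2) := by rw [ht]; ring
    linear_combination h6 - n * h7
  obtain ⟨j, hj⟩ := h4
  rw [hj]
  push_cast
  have h20 : (2 : ZMod 2) = 0 := by decide
  rw [h20, zero_mul, add_zero]
  congr 1
  rw [← sum_add_distrib]
  refine sum_congr rfl fun z hz => ?_
  rw [mem_Pos] at hz
  have h2z : oo (2 * z) = 0 := by
    have h8 : (2 * z).val = 2 * z.val := by
      have h9 : (2 : ZMod M) * z = ((2 * z.val : ℕ) : ZMod M) := by
        push_cast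
        rw [ZMod.natCast_zmod_val]
      rw [h9, ZMod.val_natCast, Nat.mod_eq_of_lt]
      have := hz.2
      omega
    unfold oo
    rw [h8]
    push_cast
    rw [h20, zero_mul]
  rw [h2z, add_zero]
  have h10 : ∀ y : ZMod M, (((y.val % 2 : ℕ)) : ZMod 2) = oo y := by
    intro y
    unfold oo
    exact ZMod.natCast_mod _ _
  have h11 : ∀ y : ZMod M, ((((y.val : ℕ) : ℤ) % 2 : ℤ) : ZMod 2) = oo y := by
    intro y
    rw [← h10 y]
    norm_cast
  simp only [h11]
  unfold oo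
  ring

end

end Pool.Agent.Y687
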