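import Pool.Agent.Y687.K2.HSE2

/-!
A class sum of the symbol is divisible by eight.
-/

set_option autoImplicit false
set_option linter.style.haveILetI false

open Finset

open scoped Classical

namespace Pool.Agent.Y687

theorem sqf_prod {S : Finset ℕ} (hS : ∀ q ∈ S, q.Prime) : Squarefree (∏ q ∈ S, q) := by
  induction S using Finset.induction_on with
  | empty => simp
  | insert p S hp ih =>
    rw [Finset.prod_insert hp, Nat.squarefree_mul]
    · exact ⟨(hS p (Finset.mem_insert_self _ _)).squarefree,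
        ih fun q hq => hS q (Finset.mem_insert_of_mem hq)⟩
    · refine Nat.Coprime.prod_right fun q hq => ?_
      rw [Nat.coprime_primes (hS p (Finset.mem_insert_self _ _)) (hS q (Finset.mem_insert_of_mem hq))]
      rintro rfl
      exact hp hq

theorem prod_mod4 {S : Finset ℕ} (hS : ∀ q ∈ S, q % 4 = 1) : (∏ q ∈ S, q) % 4 = 1 := by
  induction S using Finset.induction_on with
  | empty => simp
  | insert p S hp ih =>
    rw [Finset.prod_insert hp, Nat.mul_mod, hS p (Finset.mem_insert_self _ _),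
      ih fun q hq => hS q (Finset.mem_insert_of_mem hq)]

theorem mem_of_dvd_prod {S : Finset ℕ} (hS : ∀ q ∈ S, q.Prime) {l : ℕ} (hl : l.Prime)
    (h : l ∣ ∏ q ∈ S, q) : l ∈ S := by
  obtain ⟨q, hq, hlq⟩ := (Prime.dvd_finsetProd_iff hl.prime _).1 h
  rw [(Nat.prime_dvd_prime_iff_eq hl (hS q hq)).1 hlq]
  exact hq

/-- the class sum -/
theorem AA_eight {s : ℚ → ℤ} {a : ℕ → ℤ} (hs : Symb2 s a) (S : Finset ℕ) (c : ℕ → ℤ)
    (hS : ∀ q ∈ S, q.Prime ∧ q % 4 = 1 ∧ jacobiSym 14 q = 1) {p1 p2 : ℕ} (hp1 : p1 ∈ S)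
    (hp2 : p2 ∈ S) (hne : p1 ≠ p2) (h18 : p1 % 8 = 1) (h28 : p2 % 8 = 1)
    {r : ℤ} (hr : (p1 : ℤ) ∣ 14 * r ^ 2 - 1) (hc1 : c p1 = - jacobiSym r p1) (hc2 : c p2 = -1) :
    (8 : ℤ) ∣ AA s S c := by
  have hSp : ∀ q ∈ S, q.Prime := fun q hq => (hS q hq).1
  have hM0 : (∏ q ∈ S, q) ≠ 0 := Finset.prod_ne_zero_iff.2 fun q hq => (hS q hq).1.ne_zero
  haveI : NeZero (∏ q ∈ S, q) := ⟨hM0⟩
  haveI : Fact p1.Prime := ⟨hSp p1 hp1⟩
  rw [AA_units]
  rcases (Finset.filter (fun u : (ZMod (∏ q ∈ S, q))ˣ => ∀ q ∈ S, chi q u = c q)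
    Finset.univ).eq_empty_or_nonempty with hE | ⟨α, hα⟩
  · rw [hE, Finset.sum_empty]
    exact dvd_zero _
  rw [mem_filter] at hα
  have hαc := hα.2
  have H : HypM (∏ q ∈ S, q) p1 p2 := ⟨sqf_prod hSp, prod_mod4 fun q hq => (hS q hq).2.1,
    fun q hq hqM => (hS q (mem_of_dvd_prod hSp hq hqM)).2, hSp p1 hp1, hSp p2 hp2, hne, h18, h28,
    dpm hp1, dpm hp2⟩
  have hp14 : p1 % 4 = 1 := by omega
  have hp12 : p1 ≠ 2 := by rintro rfl; omega
  -- the root of 14 r ^ 2 = 1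
  obtain ⟨r0, hr0d⟩ : ∃ r0 : ZMod p1, r0 = (r : ZMod p1) := ⟨_, rfl⟩
  have hr0 : 14 * r0 ^ 2 = 1 := by
    have h1 := (ZMod.intCast_zmod_eq_zero_iff_dvd _ _).2 hr
    push_cast at h1
    rw [hr0d]
    linear_combination h1
  have hr00 : r0 ≠ 0 := by
    rintro rfl
    norm_num at hr0
  have h140 : (14 : ZMod p1) ≠ 0 := by
    intro h0
    rw [h0, zero_mul] at hr0
    norm_num at hr0
  have hsq14 : IsSquare (14 : ZMod p1) := ⟨14 * r0, by linear_combination (-14 : ZMod p1) * hr0⟩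
  have hα0 := rd_ne H.pp1 H.d1 α
  have hg : ¬ IsSquare (rd H.d1 (α : ZMod (∏ q ∈ S, q)) * r0) := by
    rw [sq_mul_iff hα0 hr00 hp12]
    have h1 : IsSquare r0 ↔ jacobiSym r p1 = 1 := by
      rw [← jacobiSym.legendreSym.to_jacobiSym, legendreSym.eq_one_iff, hr0d]
      rw [← hr0d]; exact hr00
    rw [h1, ← chi_one_iff H.pp1 H.d1, hαc p1 hp1, hc1]
    intro h2
    have h3 : jacobiSym r p1 = 1 ∨ jacobiSym r p1 = -1 := by
      have h4 := chi_pm H.d1 α
      rw [hαc p1 hp1, hc1] at h4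
      rcases h4 with h4 | h4
      · right; linarith
      · left; linarith
    rcases h3 with h3 | h3 <;> rw [h3] at h2 <;> norm_num at h2
  obtain ⟨k, hk⟩ := H.even hs (by rw [hαc p2 hp2, hc2]) ⟨r0, hr0, hg⟩
  -- the unit 14
  obtain ⟨e, hev⟩ : ∃ e : (ZMod (∏ q ∈ S, q))ˣ, (e : ZMod (∏ q ∈ S, q)) = 14 :=
    ⟨ZMod.unitOfCoprime 14 H.cop14, by rw [ZMod.coe_unitOfCoprime]; norm_num⟩
  have hechi : ∀ q ∈ S, chi q e = 1 := by
    intro q hq
    rw [chi_val (dpm hq) e 14 (by rw [hev]; norm_num)]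
    exact (hS q hq).2.2
  have svw : ∀ u : (ZMod (∏ q ∈ S, q))ˣ, sv s (e * u)⁻¹ = sv s u := fun u =>
    sv_inv hs.toSymb e u (e * u)⁻¹ hev (mul_inv_cancel _)
  have ww : ∀ u : (ZMod (∏ q ∈ S, q))ˣ, (e * (e * u)⁻¹)⁻¹ = u := by
    intro u
    rw [mul_inv_rev, mul_inv_rev, mul_inv_rev]
    simp
  -- the class
  have hcl : ∀ u : (ZMod (∏ q ∈ S, q))ˣ, (∀ q ∈ S, chi q u = c q) ↔
      (∀ q : ℕ, q.Prime → q ∣ (∏ q ∈ S, q) → chi q (α⁻¹ * u) = 1) := by
    intro u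
    constructor
    · intro hu q hq hqM
      have hqS := mem_of_dvd_prod hSp hq hqM
      rw [chi_mul hqM, chi_inv hqM, hαc q hqS, hu q hqS, ← hαc q hqS]
      rcases chi_pm hqM α with h | h <;> rw [h] <;> norm_num
    · intro hu q hq
      have h1 := hu q (hSp q hq) (dpm hq)
      rw [chi_mul (dpm hq), chi_inv (dpm hq)] at h1
      rw [← hαc q hq]
      rcases chi_pm (dpm hq) α with h | h <;> rcases chi_pm (dpm hq) u with h' | h' <;>
        rw [h, h'] at h1 ⊢ <;> norm_num at h1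
  -- the involution exchanges the two cosets
  have hsw : ∀ u : (ZMod (∏ q ∈ S, q))ˣ, (∀ q ∈ S, chi q u = c q) →
      (∀ q ∈ S, chi q (e * u)⁻¹ = c q) ∧
      (α⁻¹ * (e * u)⁻¹ ∈ KK (∏ q ∈ S, q) H.d1 ↔ ¬ α⁻¹ * u ∈ KK (∏ q ∈ S, q) H.d1) := by
    intro u hu
    have hu' := (hcl u).1 hu
    obtain ⟨b, hb⟩ := (chi_one_iff H.pp1 H.d1 _).1 (hu' p1 H.pp1 H.d1)
    have hb2 : rd H.d1 ((α⁻¹ * u : (ZMod (∏ q ∈ S, q))ˣ) : ZMod (∏ q ∈ S, q)) = b ^ 2 := by
      rw [hb]; ring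
    have hb0 : b ≠ 0 := by
      rintro rfl
      exact rd_ne H.pp1 H.d1 (α⁻¹ * u) (by rw [hb2]; ring)
    have h1 : ∀ q ∈ S, chi q (e * u)⁻¹ = c q := by
      intro q hq
      rw [chi_inv (dpm hq), chi_mul (dpm hq), hechi q hq, one_mul]
      exact hu q hq
    refine ⟨h1, ?_⟩
    have h2 : ∀ q : ℕ, q.Prime → q ∣ (∏ q ∈ S, q) → chi q (e * u * α) = 1 := by
      intro q hq hqM
      have h3 := (hcl _).1 h1 q hq hqM
      rw [chi_mul hqM, chi_inv hqM, chi_inv hqM, mul_comm] at h3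
      rw [chi_mul hqM]
      exact h3
    have h3 : α⁻¹ * (e * u)⁻¹ = (e * u * α)⁻¹ := (mul_inv_rev (e * u) α).symm
    rw [h3, Subgroup.inv_mem_iff]
    have h4 : rd H.d1 ((e * u * α : (ZMod (∏ q ∈ S, q))ˣ) : ZMod (∏ q ∈ S, q)) =
        (14 * (rd H.d1 (α : ZMod (∏ q ∈ S, q)) * r0) * b) ^ 2 := by
      have h5 : e * u * α = e * (α * α) * (α⁻¹ * u) := by
        calc e * u * α = e * α * u * (α * α⁻¹) := by
              rw [mul_inv_cancel, mul_one]
              simp only [mul_comm, mul_left_comm]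
          _ = e * (α * α) * (α⁻¹ * u) := by
              simp only [mul_comm, mul_left_comm, mul_assoc]
      rw [h5, Units.val_mul, Units.val_mul, Units.val_mul α α, map_mul, map_mul, map_mul, hb2, hev]
      have h6 : rd H.d1 (14 : ZMod (∏ q ∈ S, q)) = 14 := map_ofNat _ 14
      rw [h6]
      linear_combination (-14 * (rd H.d1 (α : ZMod (∏ q ∈ S, q))) ^ 2 * b ^ 2) * hr0
    rw [mem_KK_iff hp14 h2 h4, mem_KK_iff hp14 hu' hb2]
    have hg0 : rd H.d1 (α : ZMod (∏ q ∈ S, q)) * r0 ≠ 0 := mul_ne_zero hα0 hr00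
    rw [sq_mul_iff (mul_ne_zero h140 hg0) hb0 hp12, sq_mul_iff h140 hg0 hp12]
    constructor
    · intro h7 h8
      exact hg ((h7.2 h8).1 hsq14)
    · intro h7
      exact ⟨fun h8 => absurd (h8.1 hsq14) hg, fun h8 => absurd h8 h7⟩
  -- first halving
  have t1 : ∑ u ∈ (Finset.univ : Finset (ZMod (∏ q ∈ S, q))ˣ).filter
      (fun u => ∀ q ∈ S, chi q u = c q), sv s u =
      2 * ∑ u ∈ (Finset.univ : Finset (ZMod (∏ q ∈ S, q))ˣ).filter
      (fun u => α⁻¹ * u ∈ KK (∏ q ∈ S, q) H.d1), sv s u := by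
    rw [← sum_filter_add_sum_filter_not _ (fun u => α⁻¹ * u ∈ KK (∏ q ∈ S, q) H.d1), two_mul]
    have e1 : ((Finset.univ : Finset (ZMod (∏ q ∈ S, q))ˣ).filter
      (fun u => ∀ q ∈ S, chi q u = c q)).filter (fun u => α⁻¹ * u ∈ KK (∏ q ∈ S, q) H.d1) =
      (Finset.univ : Finset (ZMod (∏ q ∈ S, q))ˣ).filter
      (fun u => α⁻¹ * u ∈ KK (∏ q ∈ S, q) H.d1) := by
      ext u
      simp only [mem_filter, mem_univ, true_and]
      constructor
      · exact fun h => h.2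
      · exact fun h => ⟨(hcl u).2 h.1, h⟩
    rw [e1]
    congr 1
    refine sum_nbij' (fun u => (e * u)⁻¹) (fun u => (e * u)⁻¹) ?_ ?_ ?_ ?_ ?_
    · intro u hu
      simp only [mem_filter, mem_univ, true_and] at hu ⊢
      exact ((hsw u hu.1).2).2 hu.2
    · intro u hu
      simp only [mem_filter, mem_univ, true_and] at hu ⊢
      have hu1 : ∀ q ∈ S, chi q u = c q := (hcl u).2 hu.1
      refine ⟨(hsw u hu1).1, fun h => ?_⟩
      exact ((hsw u hu1).2).1 h hu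
    · intro u _
      exact ww u
    · intro u _
      exact ww u
    · intro u _
      exact (svw u).symm
  -- second halving
  have hK : (-1 : (ZMod (∏ q ∈ S, q))ˣ) ∈ KK (∏ q ∈ S, q) H.d1 :=
    neg_one_mem_KK H.pp1 H.p18 H.d1 fun q hq hqM => (H.q4 q hq hqM).1
  have hgt := H.gt
  have hM4 := H.m4
  have hodd : OddF (ou : (ZMod (∏ q ∈ S, q))ˣ → ZMod 2) := ou_odd (by omega) (by omega)
  have t2 : ∑ u ∈ (Finset.univ : Finset (ZMod (∏ q ∈ S, q))ˣ).filter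
      (fun u => α⁻¹ * u ∈ KK (∏ q ∈ S, q) H.d1), sv s u =
      2 * ∑ u ∈ HS (KK (∏ q ∈ S, q) H.d1) ou α, sv s u := by
    rw [← sum_filter_add_sum_filter_not _ (fun u => ou u = 1), two_mul]
    have e1 : ((Finset.univ : Finset (ZMod (∏ q ∈ S, q))ˣ).filter
      (fun u => α⁻¹ * u ∈ KK (∏ q ∈ S, q) H.d1)).filter (fun u => ou u = 1) =
      HS (KK (∏ q ∈ S, q) H.d1) ou α := by
      ext u
      simp only [mem_filter, mem_univ, true_and, mem_HS]
    rw [e1]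
    congr 1
    refine sum_nbij' (fun u => -u) (fun u => -u) ?_ ?_ ?_ ?_ ?_
    · intro u hu
      simp only [mem_filter, mem_univ, true_and] at hu
      refine mem_HS.2 ⟨?_, ?_⟩
      · rw [mul_neg]
        exact neg_mem_K hK hu.1
      · rw [hodd]
        have h4 : ∀ y : ZMod 2, ¬ y = 1 → y + 1 = 1 := by decide
        exact h4 _ hu.2
    · intro u hu
      rw [mem_HS] at hu
      simp only [mem_filter, mem_univ, true_and]
      refine ⟨?_, ?_⟩
      · rw [mul_neg]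
        exact neg_mem_K hK hu.1
      · rw [hodd, hu.2]
        decide
    · intro u _
      exact neg_neg u
    · intro u _
      exact neg_neg u
    · intro u _
      exact (sv_neg hs.toSymb u).symm
  rw [t1, t2, hk]
  exact ⟨k, by ring⟩

end Pool.Agent.Y687
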