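import Mathlib

/-!
A cancellation lemma for autocorrelation sums on finite commutative groups.
-/

set_option autoImplicit false
set_option linter.style.haveILetI false

open Finset

namespace Pool.Agent.Y687

section

variable {Q : Type*} [CommGroup Q] [Fintype Q]

/-- autocorrelation -/
def RR (f : Q → ZMod 2) (x : Q) : ZMod 2 := ∑ D, f D * f (x * D)

theorem RR_inv (f : Q → ZMod 2) (x : Q) : RR f x⁻¹ = RR f x := by
  unfold RR
  refine (Fintype.sum_equiv (Equiv.mulLeft x) _ _ fun D => ?_).symm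
  show f D * f (x * D) = f (x * D) * f (x⁻¹ * (x * D))
  rw [inv_mul_cancel_left, mul_comm]

theorem RR_shift (f : Q → ZMod 2) (t y : Q) : ∑ D, f (t * D) * f (y * D) = RR f (y * t⁻¹) := by
  unfold RR
  refine Fintype.sum_equiv (Equiv.mulLeft t) _ _ fun D => ?_
  show f (t * D) * f (y * D) = f (t * D) * f (y * t⁻¹ * (t * D))
  rw [mul_assoc, inv_mul_cancel_left]

theorem TT_zero (f : Q → ZMod 2) (ψ : Q → ZMod 2) (hψ : ∀ x y, ψ (x * y) = ψ x + ψ y) {x w : Q}
    (hx : ψ x = 1) (hw : ψ w = 0) (hw2 : w * w = 1) (hxx : x * x = 1 ∨ x * x = w) :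
    RR f x + RR f (w * x) = 0 := by
  have hψ1 : ψ 1 = 0 := by
    have := hψ 1 1
    rw [one_mul] at this
    have h2 : ψ (1 : Q) + ψ 1 = ψ 1 + 0 := by rw [← this, add_zero]
    exact add_left_cancel h2
  have hxi : ψ x⁻¹ = 1 := by
    have h1 := hψ x x⁻¹
    rw [mul_inv_cancel, hψ1, hx] at h1
    have : ψ x⁻¹ = (1 + ψ x⁻¹) + 1 := by
      have h2 : (1 : ZMod 2) + 1 = 0 := by decide
      linear_combination (-1 : ZMod 2) * h2
    rw [this, ← h1, zero_add]
  have hFF : ∀ D, f (x * (x * D)) + f (w * x * (x * D)) = f D + f (w * D) := by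
    intro D
    rcases hxx with h | h
    · have e1 : x * (x * D) = D := by rw [← mul_assoc, h, one_mul]
      have e2 : w * x * (x * D) = w * D := by rw [mul_assoc, e1]
      rw [e1, e2]
    · have e1 : x * (x * D) = w * D := by rw [← mul_assoc, h]
      have e2 : w * x * (x * D) = D := by rw [mul_assoc, e1, ← mul_assoc, hw2, one_mul]
      rw [e1, e2, add_comm]
  have h0 : RR f x + RR f (w * x) = ∑ D, f D * (f (x * D) + f (w * x * D)) := by
    unfold RR
    rw [← sum_add_distrib]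
    refine sum_congr rfl fun D _ => ?_
    ring
  rw [h0, ← sum_filter_add_sum_filter_not univ (fun D => ψ D = 0)]
  have h1 : ∑ D ∈ univ.filter (fun D => ¬ ψ D = 0), f D * (f (x * D) + f (w * x * D)) =
      ∑ D ∈ univ.filter (fun D => ψ D = 0), f (x * D) * (f D + f (w * D)) := by
    symm
    refine sum_nbij' (fun D => x * D) (fun D => x⁻¹ * D) ?_ ?_ ?_ ?_ ?_
    · intro D hD
      rw [mem_filter] at hD ⊢
      refine ⟨mem_univ _, ?_⟩
      rw [hψ, hx, hD.2]
      decide
    · intro D hD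
      rw [mem_filter] at hD ⊢
      refine ⟨mem_univ _, ?_⟩
      rw [hψ, hxi]
      have h2 : ∀ z : ZMod 2, ¬ z = 0 → 1 + z = 0 := by decide
      exact h2 _ hD.2
    · intro D _
      exact inv_mul_cancel_left x D
    · intro D _
      exact mul_inv_cancel_left x D
    · intro D _
      rw [hFF]
  rw [h1, ← sum_add_distrib]
  have h2 : ∑ D ∈ univ.filter (fun D => ψ D = 0), f (x * D) * f (w * D) =
      ∑ D ∈ univ.filter (fun D => ψ D = 0), f (w * x * D) * f D := by
    refine sum_nbij' (fun D => w * D) (fun D => w * D) ?_ ?_ ?_ ?_ ?_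
    · intro D hD
      rw [mem_filter] at hD ⊢
      refine ⟨mem_univ _, ?_⟩
      rw [hψ, hw, hD.2, add_zero]
    · intro D hD
      rw [mem_filter] at hD ⊢
      refine ⟨mem_univ _, ?_⟩
      rw [hψ, hw, hD.2, add_zero]
    · intro D _
      show w * (w * D) = D
      rw [← mul_assoc, hw2, one_mul]
    · intro D _
      show w * (w * D) = D
      rw [← mul_assoc, hw2, one_mul]
    · intro D _
      show f (x * D) * f (w * D) = f (w * x * (w * D)) * f (w * D)
      have e : w * x * (w * D) = (w * w) * (x * D) := by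
        rw [mul_assoc, mul_left_comm x w D, ← mul_assoc]
      rw [e, hw2, one_mul]
  have h3 : ∑ D ∈ univ.filter (fun D => ψ D = 0), (f D * (f (x * D) + f (w * x * D)) +
      f (x * D) * (f D + f (w * D))) =
      (∑ D ∈ univ.filter (fun D => ψ D = 0), f (w * x * D) * f D) +
        ∑ D ∈ univ.filter (fun D => ψ D = 0), f (x * D) * f (w * D) := by
    rw [← sum_add_distrib]
    refine sum_congr rfl fun D _ => ?_
    have h4 : (2 : ZMod 2) = 0 := by decide
    linear_combination (f D * f (x * D)) * h4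
  rw [h3, h2]
  exact CharTwo.add_self_eq_zero _

/-- the cancellation lemma -/
theorem alg_zero (f : Q → ZMod 2) (ψ : Q → ZMod 2) (hψ : ∀ x y, ψ (x * y) = ψ x + ψ y)
    {a τ υ w : Q} (hτ : τ * τ = 1) (hυ : υ * υ = 1) (hw : a * a * (τ * υ) = w) (hw2 : w * w = 1)
    (hτυ : τ * υ = 1 ∨ τ * υ = w) (pa : ψ a = 1) (pτ : ψ τ = 0) (pw : ψ w = 0) :
    ∑ D, (f D + f (τ * D)) * (f (a⁻¹ * D) + f (υ * a⁻¹ * D)) = 0 := by
  have hτi : τ⁻¹ = τ := inv_eq_of_mul_eq_one_left hτ
  have hυi : υ⁻¹ = υ := inv_eq_of_mul_eq_one_left hυ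
  have hwi : w⁻¹ = w := inv_eq_of_mul_eq_one_left hw2
  have e0 : ∑ D, (f D + f (τ * D)) * (f (a⁻¹ * D) + f (υ * a⁻¹ * D)) =
      RR f a⁻¹ + RR f (υ * a⁻¹) + (RR f (a⁻¹ * τ⁻¹) + RR f (υ * a⁻¹ * τ⁻¹)) := by
    rw [← RR_shift f τ a⁻¹, ← RR_shift f τ (υ * a⁻¹)]
    unfold RR
    simp only [← sum_add_distrib]
    refine sum_congr rfl fun D _ => ?_
    ring
  rw [e0]
  have e1 : RR f a⁻¹ = RR f a := RR_inv f a
  have e2 : RR f (a⁻¹ * τ⁻¹) = RR f (τ * a) := by
    rw [← mul_inv_rev, RR_inv]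
  have e3 : RR f (υ * a⁻¹) = RR f (w * (τ * a)) := by
    rw [← RR_inv f (υ * a⁻¹), mul_inv_rev, inv_inv, hυi]
    rw [← RR_inv f (w * (τ * a)), mul_inv_rev, mul_inv_rev, hτi, hwi]
    congr 1
    rw [← hw]
    calc a * υ = (τ * τ) * (a * υ) * (a⁻¹ * a) := by rw [hτ, inv_mul_cancel]; simp
      _ = a⁻¹ * τ * (a * a * (τ * υ)) := by
        simp only [mul_comm, mul_left_comm, mul_assoc]
  have e4 : RR f (υ * a⁻¹ * τ⁻¹) = RR f (w * a) := by
    rw [← RR_inv f (υ * a⁻¹ * τ⁻¹), ← RR_inv f (w * a)]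
    congr 1
    simp only [mul_inv_rev, inv_inv, hτi, hυi, hwi]
    rw [← hw]
    calc τ * (a * υ) = (τ * υ) * a * (a⁻¹ * a) := by
          rw [inv_mul_cancel, mul_one, mul_assoc, mul_comm υ a]
      _ = a⁻¹ * (a * a * (τ * υ)) := by
        simp only [mul_comm, mul_left_comm, mul_assoc]
  rw [e1, e2, e3, e4]
  have t1 : RR f a + RR f (w * a) = 0 := by
    refine TT_zero f ψ hψ pa pw hw2 ?_
    rcases hτυ with h | h
    · right
      rw [← hw, h, mul_one]
    · left
      rw [h] at hw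
      have : a * a * w * w = w * w := by rw [hw]
      rw [mul_assoc, hw2, mul_one] at this
      exact this
  have t2 : RR f (τ * a) + RR f (w * (τ * a)) = 0 := by
    refine TT_zero f ψ hψ (by rw [hψ, pτ, pa, zero_add]) pw hw2 ?_
    have h5 : τ * a * (τ * a) = a * a := by
      rw [mul_mul_mul_comm, hτ, one_mul]
    rw [h5]
    rcases hτυ with h | h
    · right
      rw [← hw, h, mul_one]
    · left
      rw [h] at hw
      have : a * a * w * w = w * w := by rw [hw]
      rw [mul_assoc, hw2, mul_one] at this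
      exact this
  linear_combination t1 + t2

end

end Pool.Agent.Y687
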