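import Mathlib

/-!
Dedekind sums and their reciprocity law.
-/

set_option autoImplicit false

open Finset

namespace Pool.Agent.Y687

/-- the sawtooth function at `n / k` -/
def saw (k : ℕ) (n : ℤ) : ℚ := if (k : ℤ) ∣ n then 0 else ((n % k : ℤ) : ℚ) / k - 1 / 2

/-- the Dedekind sum -/
def ded (h : ℤ) (k : ℕ) : ℚ := ∑ i ∈ range k, saw k i * saw k (h * i)

theorem saw_congr {k : ℕ} {m n : ℤ} (h : (k : ℤ) ∣ m - n) : saw k m = saw k n := by
  unfold saw
  have h1 : (k : ℤ) ∣ m ↔ (k : ℤ) ∣ n := by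
    constructor
    · intro h2; simpa using dvd_sub h2 h
    · intro h2; simpa using dvd_add h h2
  have h2 : m % k = n % k := Int.emod_eq_emod_iff_emod_sub_eq_zero.2 (Int.emod_eq_zero_of_dvd h)
  simp only [h1, h2]

theorem saw_neg {k : ℕ} (hk : 0 < k) (n : ℤ) : saw k (-n) = -saw k n := by
  unfold saw
  have hk' : (k : ℚ) ≠ 0 := by exact_mod_cast hk.ne'
  by_cases h : (k : ℤ) ∣ n
  · rw [if_pos h, if_pos ((dvd_neg).2 h), neg_zero]
  · rw [if_neg h, if_neg (fun h1 => h ((dvd_neg).1 h1))]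
    have h1 : (-n) % k = k - n % k := by
      have h2 : n % k ≠ 0 := fun h3 => h (Int.dvd_of_emod_eq_zero h3)
      have h3 := Int.emod_nonneg n (show (k : ℤ) ≠ 0 by exact_mod_cast hk.ne')
      have h4 := Int.emod_lt_of_pos n (show (0 : ℤ) < k by exact_mod_cast hk)
      have h5 : (-n) % k = (k - n % k) % k := by
        rw [Int.emod_eq_emod_iff_emod_sub_eq_zero]
        apply Int.emod_eq_zero_of_dvd
        have h6 := Int.emod_add_mul_ediv n k
        exact ⟨-(n / k) - 1, by linear_combination h6⟩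
      rw [h5]
      exact Int.emod_eq_of_lt (by omega) (by omega)
    rw [h1]
    push_cast
    field_simp
    ring

theorem ded_congr {k : ℕ} {h h' : ℤ} (hh : (k : ℤ) ∣ h - h') : ded h k = ded h' k := by
  unfold ded
  refine sum_congr rfl fun i _ => ?_
  rw [saw_congr (m := h * i) (n := h' * i) (by rw [← sub_mul]; exact hh.mul_right _)]

theorem ded_neg {k : ℕ} (hk : 0 < k) (h : ℤ) : ded (-h) k = -ded h k := by
  unfold ded
  rw [← sum_neg_distrib]
  refine sum_congr rfl fun i _ => ?_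
  rw [neg_mul, saw_neg hk, mul_neg]

theorem ded_one (h : ℤ) : ded h 1 = 0 := by
  unfold ded saw
  simp

/-- multiplication by a unit permutes the residues -/
theorem sum_perm {k h : ℕ} (hk : 0 < k) (hc : Nat.Coprime h k) {α : Type*} [AddCommMonoid α]
    (g : ℕ → α) : ∑ i ∈ range k, g ((h * i) % k) = ∑ i ∈ range k, g i := by
  refine sum_nbij (fun i => (h * i) % k) ?_ ?_ ?_ (fun _ _ => rfl)
  · intro i _
    exact mem_range.2 (Nat.mod_lt _ hk)
  · intro i hi j hj hij
    have h1 : h * i ≡ h * j [MOD k] := hij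
    have h2 := Nat.ModEq.cancel_left_of_coprime (hc.symm) h1
    have hi' := mem_range.1 (Finset.mem_coe.1 hi)
    have hj' := mem_range.1 (Finset.mem_coe.1 hj)
    rwa [Nat.ModEq, Nat.mod_eq_of_lt hi', Nat.mod_eq_of_lt hj'] at h2
  · intro j hj
    have hj' := mem_range.1 (Finset.mem_coe.1 hj)
    obtain ⟨u, hu⟩ : ∃ u : ℕ, h * u ≡ 1 [MOD k] := by
      rcases Nat.lt_or_ge 1 k with h1 | h1
      · obtain ⟨u, hu1, hu2⟩ := Nat.exists_mul_mod_eq_one_of_coprime hc h1
        exact ⟨u, by rw [Nat.ModEq, hu2, Nat.mod_eq_of_lt h1]⟩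
      · have : k = 1 := by omega
        subst this
        exact ⟨0, Nat.modEq_one⟩
    refine ⟨(u * j) % k, Finset.mem_coe.2 (mem_range.2 (Nat.mod_lt _ hk)), ?_⟩
    show (h * ((u * j) % k)) % k = j
    have h2 : h * ((u * j) % k) ≡ j [MOD k] := by
      calc h * ((u * j) % k) ≡ h * (u * j) [MOD k] := (Nat.mod_modEq _ _).mul_left _
        _ = (h * u) * j := by ring
        _ ≡ 1 * j [MOD k] := hu.mul_right _
        _ = j := one_mul _
    rw [Nat.ModEq, Nat.mod_eq_of_lt hj'] at h2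
    exact h2

theorem saw_nat {k i : ℕ} (hi : 0 < i) (hik : i < k) : saw k (i : ℤ) = (i : ℚ) / k - 1 / 2 := by
  unfold saw
  rw [if_neg]
  · have : ((i : ℤ) % (k : ℤ)) = i := by exact_mod_cast Nat.mod_eq_of_lt hik
    rw [this]
    push_cast
    rfl
  · intro h
    have := Int.natCast_dvd_natCast.1 h
    exact absurd (Nat.le_of_dvd hi this) (by omega)

/-- Dedekind sum by floors -/
theorem ded_floor {h k : ℕ} (hk : 0 < k) (hc : Nat.Coprime h k) :
    ded (h : ℤ) k = (h : ℚ) / k ^ 2 * ∑ i ∈ range k, (i : ℚ) ^ 2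
      - (∑ i ∈ range k, (i : ℚ) * ((h * i / k : ℕ) : ℚ)) / k - (k - 1) / 4 := by
  have hk' : (k : ℚ) ≠ 0 := by exact_mod_cast hk.ne'
  -- each term
  have h1 : ∀ i ∈ range k, saw k (i : ℤ) * saw k ((h : ℤ) * i) =
      (i : ℚ) / k * ((h * i : ℕ) / k - ((h * i / k : ℕ) : ℚ)) - (i : ℚ) / k / 2
        - (((h * i) % k : ℕ) : ℚ) / k / 2 + (if i = 0 then 0 else 1 / 4) := by
    intro i hi
    have hi' := mem_range.1 hi
    have e1 : (((h * i) % k : ℕ) : ℚ) = (h * i : ℕ) - k * ((h * i / k : ℕ) : ℚ) := by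
      have := Nat.mod_add_div (h * i) k
      have h2 : (((h * i) % k + k * (h * i / k) : ℕ) : ℚ) = ((h * i : ℕ) : ℚ) := by rw [this]
      push_cast at h2 ⊢
      linear_combination h2
    rcases Nat.eq_zero_or_pos i with h0 | h0
    · subst h0
      simp [saw]
    · rw [if_neg h0.ne', saw_nat h0 hi']
      have h3 : ¬ (k : ℤ) ∣ (h : ℤ) * i := by
        intro h4
        have h5 : k ∣ h * i := by exact_mod_cast h4
        have h6 := hc.symm.dvd_of_dvd_mul_left h5
        exact absurd (Nat.le_of_dvd h0 h6) (by omega)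
      have h4 : saw k ((h : ℤ) * i) = (((h * i) % k : ℕ) : ℚ) / k - 1 / 2 := by
        unfold saw
        rw [if_neg h3]
        rfl
      rw [h4, e1]
      field_simp
      ring
  unfold ded
  rw [sum_congr rfl h1, sum_add_distrib, sum_sub_distrib, sum_sub_distrib]
  have h2 : ∑ i ∈ range k, (((h * i) % k : ℕ) : ℚ) / k / 2 = ∑ i ∈ range k, (i : ℚ) / k / 2 :=
    sum_perm hk hc (fun n => ((n : ℕ) : ℚ) / k / 2)
  have h3 : ∑ i ∈ range k, (i : ℚ) = k * (k - 1) / 2 := by
    clear h1 h2 hc hk hk'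
    induction k with
    | zero => simp
    | succ k ih => rw [sum_range_succ, ih]; push_cast; ring
  have h4 : ∑ i ∈ range k, (i : ℚ) / k / 2 = (k - 1) / 4 := by
    simp_rw [div_div]
    rw [← sum_div, h3]
    field_simp
    ring
  have h5 : ∑ i ∈ range k, (if i = 0 then (0 : ℚ) else 1 / 4) = (k - 1) / 4 := by
    obtain ⟨n, rfl⟩ : ∃ n, k = n + 1 := ⟨k - 1, by omega⟩
    rw [sum_range_succ']
    simp
    ring
  rw [h2, h4, h5]
  have h6 : ∑ i ∈ range k, (i : ℚ) / k * ((h * i : ℕ) / k - ((h * i / k : ℕ) : ℚ)) =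
      (h : ℚ) / k ^ 2 * ∑ i ∈ range k, (i : ℚ) ^ 2
      - (∑ i ∈ range k, (i : ℚ) * ((h * i / k : ℕ) : ℚ)) / k := by
    rw [mul_sum, sum_div, ← sum_sub_distrib]
    refine sum_congr rfl fun i _ => ?_
    push_cast
    field_simp
  rw [h6]
  ring

theorem sum_id (k : ℕ) : ∑ i ∈ range k, (i : ℚ) = k * (k - 1) / 2 := by
  induction k with
  | zero => simp
  | succ k ih => rw [sum_range_succ, ih]; push_cast; ring

theorem sum_sq (k : ℕ) : ∑ i ∈ range k, (i : ℚ) ^ 2 = (k - 1) * k * (2 * k - 1) / 6 := by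
  induction k with
  | zero => simp
  | succ k ih => rw [sum_range_succ, ih]; push_cast; ring

theorem floor_zero {h k : ℕ} (hk : 0 < k) (hc : Nat.Coprime h k) :
    ∑ i ∈ range k, ((h * i / k : ℕ) : ℚ) = (h - 1) * (k - 1) / 2 := by
  have hk' : (k : ℚ) ≠ 0 := by exact_mod_cast hk.ne'
  have h2 : ∑ i ∈ range k, (((h * i) % k : ℕ) : ℚ) = ∑ i ∈ range k, (i : ℚ) :=
    sum_perm hk hc (fun n => ((n : ℕ) : ℚ))
  have h3 : ∀ i ∈ range k, (((h * i) % k : ℕ) : ℚ) = h * i - k * ((h * i / k : ℕ) : ℚ) := by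
    intro i _
    have := Nat.mod_add_div (h * i) k
    have h2 : (((h * i) % k + k * (h * i / k) : ℕ) : ℚ) = ((h * i : ℕ) : ℚ) := by rw [this]
    push_cast at h2 ⊢
    linear_combination h2
  rw [sum_congr rfl h3, sum_sub_distrib, ← mul_sum, ← mul_sum, sum_id] at h2
  apply mul_left_cancel₀ hk'
  linear_combination -h2

theorem floor_sq {h k : ℕ} (hk : 0 < k) (hc : Nat.Coprime h k) :
    ∑ i ∈ range k, ((h * i / k : ℕ) : ℚ) ^ 2 =
      2 * h / k * (∑ i ∈ range k, (i : ℚ) * ((h * i / k : ℕ) : ℚ))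
        - (h ^ 2 - 1) / k ^ 2 * ∑ i ∈ range k, (i : ℚ) ^ 2 := by
  have hk' : (k : ℚ) ≠ 0 := by exact_mod_cast hk.ne'
  have h2 : ∑ i ∈ range k, (((h * i) % k : ℕ) : ℚ) ^ 2 = ∑ i ∈ range k, (i : ℚ) ^ 2 :=
    sum_perm hk hc (fun n => ((n : ℕ) : ℚ) ^ 2)
  have h3 : ∀ i ∈ range k, (((h * i) % k : ℕ) : ℚ) ^ 2 = h ^ 2 * (i : ℚ) ^ 2
      - 2 * h * k * ((i : ℚ) * ((h * i / k : ℕ) : ℚ)) + k ^ 2 * ((h * i / k : ℕ) : ℚ) ^ 2 := by
    intro i _
    have := Nat.mod_add_div (h * i) k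
    have h2 : (((h * i) % k + k * (h * i / k) : ℕ) : ℚ) = ((h * i : ℕ) : ℚ) := by rw [this]
    push_cast at h2 ⊢
    have h4 : (((h * i) % k : ℕ) : ℚ) = h * i - k * ((h * i / k : ℕ) : ℚ) := by
      linear_combination h2
    rw [h4]
    ring
  rw [sum_congr rfl h3, sum_add_distrib, sum_sub_distrib, ← mul_sum, ← mul_sum, ← mul_sum] at h2
  have hk2 : (k : ℚ) ^ 2 ≠ 0 := pow_ne_zero 2 hk'
  apply mul_left_cancel₀ hk2
  have e : (k : ℚ) ^ 2 * (2 * h / k * (∑ i ∈ range k, (i : ℚ) * ((h * i / k : ℕ) : ℚ))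
        - (h ^ 2 - 1) / k ^ 2 * ∑ i ∈ range k, (i : ℚ) ^ 2) =
      2 * h * k * (∑ i ∈ range k, (i : ℚ) * ((h * i / k : ℕ) : ℚ))
        - (h ^ 2 - 1) * ∑ i ∈ range k, (i : ℚ) ^ 2 := by
    field_simp
  rw [e]
  linear_combination h2

/-- exchanging the order of summation -/
theorem floor_swap {h k : ℕ} (hh : 0 < h) (hk : 0 < k) (hc : Nat.Coprime h k) :
    ∑ i ∈ range k, ((h * i / k : ℕ) : ℚ) ^ 2 =
      ∑ j ∈ range h, (2 * (j : ℚ) - 1) * ((k : ℚ) - 1 - ((k * j / h : ℕ) : ℚ)) + (k - 1) := by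
  have h1 : ∀ n : ℕ, (n : ℚ) ^ 2 = ∑ j ∈ range (n + 1), (2 * (j : ℚ) - 1) + 1 := by
    intro n
    induction n with
    | zero => simp
    | succ n ih =>
      rw [sum_range_succ]
      have : ((n : ℚ)) ^ 2 - 1 = ∑ j ∈ range (n + 1), (2 * (j : ℚ) - 1) := by rw [ih]; ring
      rw [← this]
      push_cast
      ring
  have h2 : ∀ i ∈ range k, ((h * i / k : ℕ) : ℚ) ^ 2 =
      ∑ j ∈ range h, (if j ≤ h * i / k then (2 * (j : ℚ) - 1) else 0) + 1 := by
    intro i hi
    have hi' := mem_range.1 hi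
    have hlt : h * i / k < h := by
      rw [Nat.div_lt_iff_lt_mul hk]
      exact Nat.mul_lt_mul_of_pos_left hi' hh
    rw [h1, ← sum_filter]
    congr 2
    ext j
    simp only [mem_range, mem_filter]
    omega
  rw [sum_congr rfl h2, sum_add_distrib, sum_comm]
  have h3 : ∀ j ∈ range h, ∑ i ∈ range k, (if j ≤ h * i / k then (2 * (j : ℚ) - 1) else 0) =
      (2 * (j : ℚ) - 1) * ((k : ℚ) - 1 - ((k * j / h : ℕ) : ℚ)) + (if j = 0 then -1 else 0) := by
    intro j hj
    have hj' := mem_range.1 hj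
    rw [← sum_filter, sum_const, nsmul_eq_mul]
    rcases Nat.eq_zero_or_pos j with h0 | h0
    · subst h0
      simp
      ring
    · rw [if_neg h0.ne']
      have h4 : (range k).filter (fun i => j ≤ h * i / k) = Finset.Ico (k * j / h + 1) k := by
        ext i
        simp only [mem_filter, mem_range, Finset.mem_Ico]
        constructor
        · rintro ⟨hi, h5⟩
          refine ⟨?_, hi⟩
          rw [Nat.le_div_iff_mul_le hk] at h5
          have h6 : k * j / h ≤ i := by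
            rw [Nat.div_le_iff_le_mul_add_pred hh]
            have : k * j = j * k := mul_comm _ _
            omega
          rcases Nat.lt_or_ge (k * j / h) i with h7 | h7
          · exact h7
          · exfalso
            have h8 : k * j / h = i := le_antisymm h6 h7
            have h9 : k * j ≤ h * i := by rw [mul_comm]; exact h5
            have h10 : h * i ≤ k * j := by
              rw [← h8]; exact Nat.mul_div_le _ _
            have h11 : k * j = h * i := le_antisymm h9 h10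
            have h12 : h ∣ k * j := ⟨i, h11⟩
            have h13 := hc.dvd_of_dvd_mul_left h12
            exact absurd (Nat.le_of_dvd h0 h13) (by omega)
        · rintro ⟨h5, hi⟩
          refine ⟨hi, ?_⟩
          rw [Nat.le_div_iff_mul_le hk]
          have h6 : k * j / h < i := h5
          rw [Nat.div_lt_iff_lt_mul hh] at h6
          have e1 : j * k = k * j := mul_comm _ _
          have e2 : h * i = i * h := mul_comm _ _
          omega
      rw [h4, Nat.card_Ico]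
      have h5 : k * j / h + 1 ≤ k := by
        have : k * j / h < k := by
          rw [Nat.div_lt_iff_lt_mul hh]
          exact Nat.mul_lt_mul_of_pos_left hj' hk
        omega
      rw [Nat.cast_sub h5]
      push_cast
      ring
  rw [sum_congr rfl h3, sum_add_distrib]
  have h4 : ∑ j ∈ range h, (if j = 0 then (-1 : ℚ) else 0) = -1 := by
    rw [sum_ite_eq' (range h) 0 (fun _ => (-1 : ℚ)), if_pos (mem_range.2 hh)]
  rw [h4, sum_const, card_range]
  simp
  ring

/-- the reciprocity law -/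
theorem ded_recip {h k : ℕ} (hh : 0 < h) (hk : 0 < k) (hc : Nat.Coprime h k) :
    12 * (ded (h : ℤ) k + ded (k : ℤ) h) = -3 + (h : ℚ) / k + (k : ℚ) / h + 1 / (h * k) := by
  have hk' : (k : ℚ) ≠ 0 := by exact_mod_cast hk.ne'
  have hh' : (h : ℚ) ≠ 0 := by exact_mod_cast hh.ne'
  rw [ded_floor hk hc, ded_floor hh hc.symm]
  have h1 := floor_sq hk hc
  have h2 := floor_swap hh hk hc
  have h3 := floor_zero hh hc.symm
  have h4 : ∑ j ∈ range h, (2 * (j : ℚ) - 1) * ((k : ℚ) - 1 - ((k * j / h : ℕ) : ℚ)) =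
      (k - 1) * (2 * (∑ j ∈ range h, (j : ℚ)) - h) -
        2 * (∑ j ∈ range h, (j : ℚ) * ((k * j / h : ℕ) : ℚ)) + ∑ j ∈ range h, ((k * j / h : ℕ) : ℚ) := by
    have e : ∀ j ∈ range h, (2 * (j : ℚ) - 1) * ((k : ℚ) - 1 - ((k * j / h : ℕ) : ℚ)) =
        (k - 1) * (2 * (j : ℚ)) - (k - 1) - 2 * ((j : ℚ) * ((k * j / h : ℕ) : ℚ)) +
          ((k * j / h : ℕ) : ℚ) := by
      intro j _
      ring
    rw [sum_congr rfl e, sum_add_distrib, sum_sub_distrib, sum_sub_distrib, ← mul_sum, ← mul_sum,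
      ← mul_sum, sum_const, card_range, nsmul_eq_mul]
    ring
  rw [h4, h3, sum_id] at h2
  rw [h1] at h2
  rw [sum_sq, sum_sq] at *
  generalize (∑ i ∈ range k, (i : ℚ) * ((h * i / k : ℕ) : ℚ)) = F1 at *
  generalize (∑ j ∈ range h, (j : ℚ) * ((k * j / h : ℕ) : ℚ)) = G1 at *
  have h5 : F1 / k = ((h ^ 2 - 1) / k ^ 2 * ((k - 1) * k * (2 * k - 1) / 6) +
      ((k - 1) * (2 * (h * (h - 1) / 2) - h) - 2 * G1 + (k - 1) * (h - 1) / 2 + (k - 1))) / (2 * h) := by
    rw [eq_div_iff (mul_ne_zero two_ne_zero hh')]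
    linear_combination h2
  rw [h5]
  field_simp
  ring

end Pool.Agent.Y687
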