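import Pool.Agent.Y687.Desc3

/-!
Descent by a two-isogeny for twists with two split primes.
-/

set_option autoImplicit false
set_option linter.style.haveILetI false

open WeierstrassCurve WeierstrassCurve.Affine

namespace Pool.Agent.Y687

open Pool.Agent.TH942 (sw SPt sw_eqn sw_nonsing sfg)

/-- no root of `x² + 13 m x + 128 m²` mod `p` is a square -/
def Rt (p m : ℕ) : Prop := ∀ x : ZMod p,
  x ^ 2 + 13 * (m : ZMod p) * x + 128 * (m : ZMod p) ^ 2 = 0 → ¬ IsSquare x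

/-- the hypotheses of the descent for `M = p1 p2 m` -/
structure Hyp2 (m p1 p2 : ℕ) : Prop where
  m4 : m % 4 = 1
  pp1 : p1.Prime
  pp2 : p2.Prime
  p18 : p1 % 8 = 1
  p28 : p2 % 8 = 1
  sqf : Squarefree (((p1 * p2 * m : ℕ)) : ℤ)
  two : ∀ q : ℕ, q.Prime → q ∣ m → q ≠ 2 ∧ q ≠ 7 ∧ ¬ IsSquare (-7 : ZMod q) ∧ ¬ IsSquare (2 : ZMod q)
  p17 : p1 ≠ 7
  p27 : p2 ≠ 7
  sev1 : IsSquare (-7 : ZMod p1)
  sev2 : IsSquare (-7 : ZMod p2)
  c12 : IsSquare (p1 : ZMod p2) → Rt p1 m ∧ Rt p2 m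
  cor : Rt p1 m ∨ Rt p2 m

variable {m p1 p2 : ℕ}

theorem Hyp2.ne (H : Hyp2 m p1 p2) : p1 ≠ p2 := by
  rintro rfl
  have h := H.sqf (p1 : ℤ) ⟨m, by push_cast; ring⟩
  exact (Nat.prime_iff_prime_int.1 H.pp1).not_isUnit h

theorem Hyp2.sq21 (H : Hyp2 m p1 p2) (h : IsSquare (p2 : ZMod p1)) : IsSquare (p1 : ZMod p2) := by
  haveI : Fact p1.Prime := ⟨H.pp1⟩
  haveI : Fact p2.Prime := ⟨H.pp2⟩
  have h1 := H.p18
  have h2 := H.p28
  exact (ZMod.exists_sq_eq_prime_iff_of_mod_four_eq_one (p := p1) (q := p2) (by omega)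
    (by rintro rfl; omega)).1 h

theorem Hyp2.sq12 (H : Hyp2 m p1 p2) (h : IsSquare (p1 : ZMod p2)) : IsSquare (p2 : ZMod p1) := by
  haveI : Fact p1.Prime := ⟨H.pp1⟩
  haveI : Fact p2.Prime := ⟨H.pp2⟩
  have h1 := H.p18
  have h2 := H.p28
  exact (ZMod.exists_sq_eq_prime_iff_of_mod_four_eq_one (p := p1) (q := p2) (by omega)
    (by rintro rfl; omega)).2 h

theorem Hyp2.cop_case (H : Hyp2 m p1 p2) {q : ℕ} (hq : q.Prime)
    (h : (q : ℤ) ∣ ((p1 * p2 * m : ℕ) : ℤ)) : q = p1 ∨ q = p2 ∨ q ∣ m := by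
  have h1 : q ∣ p1 * p2 * m := Int.natCast_dvd_natCast.1 h
  rcases hq.dvd_mul.1 h1 with h2 | h2
  · rcases hq.dvd_mul.1 h2 with h3 | h3
    · exact Or.inl ((Nat.prime_dvd_prime_iff_eq hq H.pp1).1 h3)
    · exact Or.inr (Or.inl ((Nat.prime_dvd_prime_iff_eq hq H.pp2).1 h3))
  · exact Or.inr (Or.inr h2)

/-- a prime of `M` not dividing `d`: then `d` is a square modulo this prime -/
theorem sq_other {A0 B0 M d w e N : ℤ} (hM : Squarefree M) (hc : IsCoprime (d * w) e)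
    (h : d * N ^ 2 = d ^ 2 * w ^ 4 + (A0 * M) * d * w ^ 2 * e ^ 2 + (B0 * M ^ 2) * e ^ 4)
    {p : ℕ} (hp : p.Prime) (hpd : ¬ (p : ℤ) ∣ d) (hpM : (p : ℤ) ∣ M) {b : ZMod p}
    (hB : (B0 : ZMod p) = b ^ 2) (hb0 : b ≠ 0) : IsSquare (d : ZMod p) := by
  haveI : Fact p.Prime := ⟨hp⟩
  have hpP : Prime (p : ℤ) := Nat.prime_iff_prime_int.1 hp
  have hp0 : (p : ℤ) ≠ 0 := hpP.ne_zero
  obtain ⟨M1, hM1⟩ := hpM
  have nM1 : ¬ (p : ℤ) ∣ M1 := by
    rintro ⟨k, hk⟩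
    have := hM p ⟨k, by rw [hM1, hk]; ring⟩
    exact hpP.not_isUnit this
  have hd0 : (d : ZMod p) ≠ 0 := by
    rw [Ne, ZMod.intCast_zmod_eq_zero_iff_dvd]; exact hpd
  have hM0' : (M1 : ZMod p) ≠ 0 := by
    rw [Ne, ZMod.intCast_zmod_eq_zero_iff_dvd]; exact nM1
  have hNw : (N : ZMod p) ^ 2 = (d : ZMod p) * (w : ZMod p) ^ 4 := by
    have h3 := congrArg (fun z : ℤ => (z : ZMod p)) h
    have hMz : (M : ZMod p) = 0 := by
      rw [ZMod.intCast_zmod_eq_zero_iff_dvd]; exact ⟨M1, hM1⟩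
    push_cast at h3
    rw [hMz] at h3
    apply mul_left_cancel₀ hd0
    linear_combination h3
  by_cases hw : (w : ZMod p) = 0
  · have hpw : (p : ℤ) ∣ w := by rwa [ZMod.intCast_zmod_eq_zero_iff_dvd] at hw
    have hpe : ¬ (p : ℤ) ∣ e := fun hpe =>
      hpP.not_isUnit (hc.isUnit_of_dvd' (hpw.mul_left d) hpe)
    have he0 : (e : ZMod p) ≠ 0 := by
      rw [Ne, ZMod.intCast_zmod_eq_zero_iff_dvd]; exact hpe
    have hpN : (p : ℤ) ∣ N := by
      rw [hw] at hNw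
      rw [← ZMod.intCast_zmod_eq_zero_iff_dvd]
      have : (N : ZMod p) ^ 2 = 0 := by rw [hNw]; ring
      exact pow_eq_zero_iff (two_ne_zero) |>.1 this
    obtain ⟨w1, hw1⟩ := hpw
    obtain ⟨N1, hN1⟩ := hpN
    have h4 : d * N1 ^ 2 = d ^ 2 * p ^ 2 * w1 ^ 4 + A0 * p * M1 * d * w1 ^ 2 * e ^ 2 +
        B0 * M1 ^ 2 * e ^ 4 := by
      apply mul_left_cancel₀ (pow_ne_zero 2 hp0)
      rw [hM1, hw1, hN1] at h
      linear_combination h
    have h5 : (d : ZMod p) * (N1 : ZMod p) ^ 2 = (b * (M1 : ZMod p) * (e : ZMod p) ^ 2) ^ 2 := by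
      have h3 := congrArg (fun z : ℤ => (z : ZMod p)) h4
      push_cast at h3
      rw [ZMod.natCast_self, hB] at h3
      linear_combination h3
    have hr0 : b * (M1 : ZMod p) * (e : ZMod p) ^ 2 ≠ 0 :=
      mul_ne_zero (mul_ne_zero hb0 hM0') (pow_ne_zero 2 he0)
    have hN0 : (N1 : ZMod p) ≠ 0 := by
      intro h0
      rw [h0] at h5
      apply pow_ne_zero 2 hr0
      rw [← h5]; ring
    refine ⟨b * (M1 : ZMod p) * (e : ZMod p) ^ 2 / (N1 : ZMod p), ?_⟩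
    rw [div_mul_div_comm, eq_div_iff (mul_ne_zero hN0 hN0)]
    linear_combination h5
  · refine ⟨(N : ZMod p) / (w : ZMod p) ^ 2, ?_⟩
    rw [div_mul_div_comm, eq_div_iff (mul_ne_zero (pow_ne_zero 2 hw) (pow_ne_zero 2 hw))]
    linear_combination -hNw

/-- the local condition at a split prime dividing `d`, first descent -/
theorem rt1 {p q : ℕ} (hp : p.Prime) {M d d1 w e N : ℤ} (hd : Squarefree d) (hM : Squarefree M)
    (hc : IsCoprime (d * w) e)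
    (h : d * N ^ 2 = d ^ 2 * w ^ 4 + (13 * M) * d * w ^ 2 * e ^ 2 + (128 * M ^ 2) * e ^ 4)
    (hMM : M = p * (q * m)) (hdd : d = p * d1)
    (hs : IsSquare ((d1 : ZMod p) * (q : ZMod p))) : ¬ Rt p m := by
  intro hR
  haveI : Fact p.Prime := ⟨hp⟩
  have hp0 : (p : ℤ) ≠ 0 := by exact_mod_cast hp.ne_zero
  obtain ⟨d1', M1, hdd', hMM', k1, k2, k3⟩ := local_root hd hM hc h hp ⟨_, hdd⟩ ⟨_, hMM⟩
  obtain rfl : d1' = d1 := mul_left_cancel₀ hp0 (hdd'.symm.trans hdd)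
  obtain rfl : M1 = q * m := mul_left_cancel₀ hp0 (hMM'.symm.trans hMM)
  push_cast at k1 k3
  have hq0 : (q : ZMod p) ≠ 0 := left_ne_zero_of_mul k1
  obtain ⟨r, hr⟩ := hs
  refine hR ((d1' : ZMod p) * (w : ZMod p) ^ 2 / ((q : ZMod p) * (e : ZMod p) ^ 2)) ?_ ?_
  · field_simp
    linear_combination k3
  · refine ⟨r * (w : ZMod p) / ((q : ZMod p) * (e : ZMod p)), ?_⟩
    field_simp
    linear_combination (w : ZMod p) ^ 2 * hr

/-- the local condition at a split prime dividing `d`, second descent -/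
theorem rt2 {p q : ℕ} (hp : p.Prime) (hp8 : p % 8 = 1) (hp7 : p ≠ 7) (hsev : IsSquare (-7 : ZMod p))
    {M d d1 w e N : ℤ} (hd : Squarefree d) (hM : Squarefree M)
    (hc : IsCoprime (d * w) e)
    (h : d * N ^ 2 = d ^ 2 * w ^ 4 + (-26 * M) * d * w ^ 2 * e ^ 2 + (-343 * M ^ 2) * e ^ 4)
    (hMM : M = p * (q * m)) (hdd : d = p * d1)
    (hs : IsSquare ((d1 : ZMod p) * (q : ZMod p))) : ¬ Rt p m := by
  intro hR
  haveI : Fact p.Prime := ⟨hp⟩
  have hp0 : (p : ℤ) ≠ 0 := by exact_mod_cast hp.ne_zero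
  obtain ⟨d1', M1, hdd', hMM', k1, k2, k3⟩ := local_root hd hM hc h hp ⟨_, hdd⟩ ⟨_, hMM⟩
  obtain rfl : d1' = d1 := mul_left_cancel₀ hp0 (hdd'.symm.trans hdd)
  obtain rfl : M1 = q * m := mul_left_cancel₀ hp0 (hMM'.symm.trans hMM)
  push_cast at k1 k3
  have hq0 : (q : ZMod p) ≠ 0 := left_ne_zero_of_mul k1
  obtain ⟨r, hr⟩ := hs
  have n2' : (2 : ZMod p) ≠ 0 := by
    exact_mod_cast prime_cast_ne hp 2 Nat.prime_two (by rintro rfl; omega)
  obtain ⟨i, hi⟩ := (ZMod.exists_sq_eq_neg_one_iff (p := p)).2 (by omega)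
  obtain ⟨δ, hδ⟩ := hsev
  have hw0 : (w : ZMod p) ≠ 0 := by
    intro hw0
    rw [hw0] at k3
    have h6 : (343 : ZMod p) * (((q : ZMod p) * (m : ZMod p)) * (e : ZMod p) ^ 2) ^ 2 = 0 := by
      linear_combination -k3
    rcases mul_eq_zero.1 h6 with h7 | h7
    · have n7' : (7 : ZMod p) ≠ 0 := by exact_mod_cast prime_cast_ne hp 7 (by norm_num) hp7
      rw [show (343 : ZMod p) = 7 ^ 3 by norm_num] at h7
      exact pow_ne_zero _ n7' h7
    · exact pow_ne_zero _ (mul_ne_zero k1 (pow_ne_zero _ k2)) h7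
  have hd10 : (d1' : ZMod p) ≠ 0 := by
    rw [Ne, ZMod.intCast_zmod_eq_zero_iff_dvd]
    rintro ⟨k, hk⟩
    have := hd p ⟨k, by rw [hdd, hk]; ring⟩
    exact (Nat.prime_iff_prime_int.1 hp).not_isUnit this
  have hr0 : r ≠ 0 := by
    rintro rfl
    apply mul_ne_zero hd10 hq0
    rw [hr]; ring
  set y : ZMod p := r * (w : ZMod p) / ((q : ZMod p) * (e : ZMod p)) with hy
  have hy0 : y ≠ 0 := div_ne_zero (mul_ne_zero hr0 hw0) (mul_ne_zero hq0 k2)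
  have hy2 : y ^ 2 = (d1' : ZMod p) * (w : ZMod p) ^ 2 / ((q : ZMod p) * (e : ZMod p) ^ 2) := by
    rw [hy]
    field_simp
    linear_combination -hr
  have hx : (y ^ 2) ^ 2 - 26 * (m : ZMod p) * y ^ 2 - 343 * (m : ZMod p) ^ 2 = 0 := by
    rw [hy2]
    field_simp
    linear_combination k3
  set ρ : ZMod p := (m : ZMod p) * (-13 + 7 * δ) / 2 with hρ
  have hρ2 : 2 * ρ = (m : ZMod p) * (-13 + 7 * δ) := by rw [hρ]; field_simp
  have n4 : (4 : ZMod p) ≠ 0 := by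
    rw [show (4 : ZMod p) = 2 * 2 by norm_num]; exact mul_ne_zero n2' n2'
  have hroot : ρ ^ 2 + 13 * (m : ZMod p) * ρ + 128 * (m : ZMod p) ^ 2 = 0 := by
    apply mul_left_cancel₀ n4
    linear_combination (2 * ρ + (m : ZMod p) * (-13 + 7 * δ) + 26 * (m : ZMod p)) * hρ2
      - 49 * (m : ZMod p) ^ 2 * hδ
  apply hR ρ hroot
  refine ⟨i * (ρ + (13 * (m : ZMod p) - y ^ 2) / 2) / y, ?_⟩
  have e1 : 2 * ((13 * (m : ZMod p) - y ^ 2) / 2) = 13 * (m : ZMod p) - y ^ 2 := by field_simp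
  set t : ZMod p := (13 * (m : ZMod p) - y ^ 2) / 2 with ht
  have e2 : -(y ^ 2) * ρ = (ρ + t) ^ 2 := by
    apply mul_left_cancel₀ n4
    linear_combination (-(4 * ρ + 2 * t + 13 * (m : ZMod p) - y ^ 2)) * e1 - 4 * hroot - hx
  rw [div_mul_div_comm, eq_div_iff (mul_ne_zero hy0 hy0)]
  linear_combination (-1 : ZMod p) * e2 + ((ρ + t) ^ 2) * hi

/-- the part of `d` away from the split primes -/
theorem Hyp2.unit_part (H : Hyp2 m p1 p2) {c d d' : ℤ} (hdvd : d ∣ c * ((p1 * p2 * m : ℕ) : ℤ) ^ 2)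
    (h1 : ∀ q : ℕ, q.Prime → (q : ℤ) ∣ d → ¬ q ∣ m) (hd' : d' ∣ d) (n1 : ¬ (p1 : ℤ) ∣ d')
    (n2 : ¬ (p2 : ℤ) ∣ d') : d' ∣ c := by
  refine dvd_of_no_common (M := ((p1 * p2 * m : ℕ) : ℤ)) (hd'.trans hdvd) fun q hq hqd hqM => ?_
  rcases H.cop_case hq hqM with rfl | rfl | hqm
  · exact n1 hqd
  · exact n2 hqd
  · exact h1 q hq (hqd.trans hd') hqm

/-- `d` is a unit part times a product of split primes -/
theorem Hyp2.shape (H : Hyp2 m p1 p2) {d : ℤ} (hd : Squarefree d) :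
    (¬ (p1 : ℤ) ∣ d ∧ ¬ (p2 : ℤ) ∣ d) ∨
    (∃ u : ℤ, d = p1 * u ∧ ¬ (p1 : ℤ) ∣ u ∧ ¬ (p2 : ℤ) ∣ u ∧ ¬ (p2 : ℤ) ∣ d) ∨
    (∃ u : ℤ, d = p2 * u ∧ ¬ (p1 : ℤ) ∣ u ∧ ¬ (p2 : ℤ) ∣ u ∧ ¬ (p1 : ℤ) ∣ d) ∨
    (∃ u : ℤ, d = p1 * (p2 * u) ∧ ¬ (p1 : ℤ) ∣ u ∧ ¬ (p2 : ℤ) ∣ u) := by
  have P1 : Prime (p1 : ℤ) := Nat.prime_iff_prime_int.1 H.pp1
  have P2 : Prime (p2 : ℤ) := Nat.prime_iff_prime_int.1 H.pp2
  have h12 : ¬ (p2 : ℤ) ∣ (p1 : ℤ) := by
    intro h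
    have := Int.natCast_dvd_natCast.1 h
    exact H.ne ((Nat.prime_dvd_prime_iff_eq H.pp2 H.pp1).1 this).symm
  have h21 : ¬ (p1 : ℤ) ∣ (p2 : ℤ) := by
    intro h
    have := Int.natCast_dvd_natCast.1 h
    exact H.ne ((Nat.prime_dvd_prime_iff_eq H.pp1 H.pp2).1 this)
  by_cases a1 : (p1 : ℤ) ∣ d
  · obtain ⟨u, hu⟩ := a1
    have nu : ¬ (p1 : ℤ) ∣ u := by
      rintro ⟨k, hk⟩
      exact P1.not_isUnit (hd p1 ⟨k, by rw [hu, hk]; ring⟩)
    by_cases a2 : (p2 : ℤ) ∣ u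
    · obtain ⟨v, hv⟩ := a2
      refine Or.inr (Or.inr (Or.inr ⟨v, by rw [hu, hv], ?_, ?_⟩))
      · intro h
        exact nu (hv ▸ h.mul_left _)
      · rintro ⟨k, hk⟩
        exact P2.not_isUnit (hd p2 ⟨p1 * k, by rw [hu, hv, hk]; ring⟩)
    · refine Or.inr (Or.inl ⟨u, hu, nu, a2, ?_⟩)
      rw [hu]
      intro h
      rcases P2.dvd_or_dvd h with h | h
      · exact h12 h
      · exact a2 h
  · by_cases a2 : (p2 : ℤ) ∣ d
    · obtain ⟨u, hu⟩ := a2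
      refine Or.inr (Or.inr (Or.inl ⟨u, hu, ?_, ?_, a1⟩))
      · intro h
        exact a1 (hu ▸ h.mul_left _)
      · rintro ⟨k, hk⟩
        exact P2.not_isUnit (hd p2 ⟨k, by rw [hu, hk]; ring⟩)
    · exact Or.inl ⟨a1, a2⟩

/-- first descent: the class of `x` -/
theorem Hyp2.cls1 (H : Hyp2 m p1 p2) {d w e N : ℤ} (hd : Squarefree d) (he : 0 < e)
    (hc : IsCoprime (d * w) e)
    (h : d * N ^ 2 = d ^ 2 * w ^ 4 + (13 * ((p1 * p2 * m : ℕ) : ℤ)) * d * w ^ 2 * e ^ 2 +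
      (128 * ((p1 * p2 * m : ℕ) : ℤ) ^ 2) * e ^ 4) : d = 1 ∨ d = 2 := by
  have hd0 := hd.ne_zero
  have hM0 : (((p1 * p2 * m : ℕ)) : ℤ) ≠ 0 := H.sqf.ne_zero
  haveI : Fact p1.Prime := ⟨H.pp1⟩
  haveI : Fact p2.Prime := ⟨H.pp2⟩
  have P1pos : (0 : ℤ) < p1 := by exact_mod_cast H.pp1.pos
  have P2pos : (0 : ℤ) < p2 := by exact_mod_cast H.pp2.pos
  -- positivity
  have hpos : 0 < d := by
    by_contra hneg
    have h1 : d * N ^ 2 ≤ 0 := mul_nonpos_of_nonpos_of_nonneg (by linarith) (sq_nonneg _)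
    have h2 : 0 < 343 * ((p1 * p2 * m : ℕ) : ℤ) ^ 2 * e ^ 4 := by positivity
    nlinarith [sq_nonneg (2 * d * w ^ 2 + 13 * ((p1 * p2 * m : ℕ) : ℤ) * e ^ 2)]
  have hdvd := div_dvd hc h
  -- primes dividing `m`
  have h1 : ∀ q : ℕ, q.Prime → (q : ℤ) ∣ d → ¬ q ∣ m := by
    intro q hq hqd hqm
    haveI : Fact q.Prime := ⟨hq⟩
    obtain ⟨n2, n7, hs7, hs2⟩ := H.two q hq hqm
    have hqM : (q : ℤ) ∣ ((p1 * p2 * m : ℕ) : ℤ) := Int.natCast_dvd_natCast.2 (hqm.mul_left _)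
    obtain ⟨d1, M1, -, -, k1, k2, k3⟩ := local_root hd H.sqf hc h hq hqd hqM
    have n7' : (7 : ZMod q) ≠ 0 := by exact_mod_cast prime_cast_ne hq 7 (by norm_num) n7
    set z : ZMod q := (M1 : ZMod q) * (e : ZMod q) ^ 2 with hz
    have hz0 : z ≠ 0 := mul_ne_zero k1 (pow_ne_zero 2 k2)
    set u : ZMod q := ((d1 * w ^ 2 : ℤ) : ZMod q) with hu
    apply hs7
    refine ⟨(2 * u + 13 * z) / (7 * z), ?_⟩
    have h77 : (7 * z) * (7 * z) ≠ 0 := mul_ne_zero (mul_ne_zero n7' hz0) (mul_ne_zero n7' hz0)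
    rw [div_mul_div_comm, eq_div_iff h77]
    push_cast at k3
    linear_combination -4 * k3
  -- squares
  have two1 : IsSquare (2 : ZMod p1) :=
    (ZMod.exists_sq_eq_two_iff (by have := H.p18; rintro rfl; omega)).2 (Or.inl H.p18)
  have two2 : IsSquare (2 : ZMod p2) :=
    (ZMod.exists_sq_eq_two_iff (by have := H.p28; rintro rfl; omega)).2 (Or.inl H.p28)
  have hu2 : ∀ u : ℤ, 0 < u → Squarefree u → u ∣ 128 → u = 1 ∨ u = 2 := by
    intro u hu hsf hdv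
    have h4 := sf_pow 2 7 Nat.prime_two hsf (by norm_num; exact hdv)
    omega
  have hsq : ∀ u : ℤ, (u = 1 ∨ u = 2) → IsSquare (u : ZMod p1) ∧ IsSquare (u : ZMod p2) := by
    rintro u (rfl | rfl)
    · exact ⟨⟨1, by push_cast; ring⟩, ⟨1, by push_cast; ring⟩⟩
    · exact ⟨by push_cast; exact two1, by push_cast; exact two2⟩
  have n21 : (2 : ZMod p1) ≠ 0 := by
    exact_mod_cast prime_cast_ne H.pp1 2 Nat.prime_two (by have := H.p18; rintro rfl; omega)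
  have n22 : (2 : ZMod p2) ≠ 0 := by
    exact_mod_cast prime_cast_ne H.pp2 2 Nat.prime_two (by have := H.p28; rintro rfl; omega)
  have hM1 : (((p1 * p2 * m : ℕ)) : ℤ) = p1 * (p2 * m) := by push_cast; ring
  have hM2 : (((p1 * p2 * m : ℕ)) : ℤ) = p2 * (p1 * m) := by push_cast; ring
  rcases H.shape hd with ⟨a1, a2⟩ | ⟨u, hu, a1, a2, a3⟩ | ⟨u, hu, a1, a2, a3⟩ | ⟨u, hu, a1, a2⟩
  · exact hu2 d hpos hd (H.unit_part hdvd h1 dvd_rfl a1 a2)
  · exfalso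
    have husf : Squarefree u := by rw [hu] at hd; exact hd.of_mul_right
    have hupos : 0 < u := by rw [hu] at hpos; exact (mul_pos_iff_of_pos_left P1pos).1 hpos
    have hu12 := hu2 u hupos husf (H.unit_part hdvd h1 (Dvd.intro_left _ hu.symm) a1 a2)
    obtain ⟨s1, s2⟩ := hsq u hu12
    obtain ⟨τ, hτ⟩ := two2
    have hds := sq_other H.sqf hc h H.pp2 a3 ⟨_, hM2⟩ (b := 8 * τ)
      (by push_cast; linear_combination 64 * hτ) (by
        have hτ0 : τ ≠ 0 := by rintro rfl; apply n22; rw [hτ]; ring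
        have h8 : (8 : ZMod p2) ≠ 0 := by
          rw [show (8 : ZMod p2) = 2 ^ 3 by norm_num]; exact pow_ne_zero _ n22
        exact mul_ne_zero h8 hτ0)
    have hp1s : IsSquare (p1 : ZMod p2) := by
      rw [hu] at hds
      push_cast at hds
      obtain ⟨r, hr⟩ := hds
      obtain ⟨s, hs⟩ := s2
      have hu0 : (u : ZMod p2) ≠ 0 := by
        rw [Ne, ZMod.intCast_zmod_eq_zero_iff_dvd]; exact a2
      have hs0 : s ≠ 0 := by rintro rfl; apply hu0; rw [hs]; ring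
      refine ⟨r / s, ?_⟩
      rw [div_mul_div_comm, eq_div_iff (mul_ne_zero hs0 hs0), ← hs]
      exact hr
    have hp2s := H.sq12 hp1s
    exact rt1 H.pp1 hd H.sqf hc h hM1 hu (s1.mul hp2s) (H.c12 hp1s).1
  · exfalso
    have husf : Squarefree u := by rw [hu] at hd; exact hd.of_mul_right
    have hupos : 0 < u := by rw [hu] at hpos; exact (mul_pos_iff_of_pos_left P2pos).1 hpos
    have hu12 := hu2 u hupos husf (H.unit_part hdvd h1 (Dvd.intro_left _ hu.symm) a1 a2)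
    obtain ⟨s1, s2⟩ := hsq u hu12
    obtain ⟨τ, hτ⟩ := two1
    have hds := sq_other H.sqf hc h H.pp1 a3 ⟨_, hM1⟩ (b := 8 * τ)
      (by push_cast; linear_combination 64 * hτ) (by
        have hτ0 : τ ≠ 0 := by rintro rfl; apply n21; rw [hτ]; ring
        have h8 : (8 : ZMod p1) ≠ 0 := by
          rw [show (8 : ZMod p1) = 2 ^ 3 by norm_num]; exact pow_ne_zero _ n21
        exact mul_ne_zero h8 hτ0)
    have hp2s : IsSquare (p2 : ZMod p1) := by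
      rw [hu] at hds
      push_cast at hds
      obtain ⟨r, hr⟩ := hds
      obtain ⟨s, hs⟩ := s1
      have hu0 : (u : ZMod p1) ≠ 0 := by
        rw [Ne, ZMod.intCast_zmod_eq_zero_iff_dvd]; exact a1
      have hs0 : s ≠ 0 := by rintro rfl; apply hu0; rw [hs]; ring
      refine ⟨r / s, ?_⟩
      rw [div_mul_div_comm, eq_div_iff (mul_ne_zero hs0 hs0), ← hs]
      exact hr
    have hp1s := H.sq21 hp2s
    exact rt1 H.pp2 hd H.sqf hc h hM2 hu (s2.mul hp1s) (H.c12 hp1s).2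
  · exfalso
    have husf : Squarefree u := by rw [hu] at hd; exact hd.of_mul_right.of_mul_right
    have hupos : 0 < u := by
      rw [hu] at hpos
      exact (mul_pos_iff_of_pos_left P2pos).1 ((mul_pos_iff_of_pos_left P1pos).1 hpos)
    have hu12 := hu2 u hupos husf (H.unit_part hdvd h1 ⟨p1 * p2, by rw [hu]; ring⟩ a1 a2)
    obtain ⟨s1, s2⟩ := hsq u hu12
    rcases H.cor with hR | hR
    · refine rt1 H.pp1 hd H.sqf hc h hM1 hu ?_ hR
      push_cast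
      have : (p2 : ZMod p1) * (u : ZMod p1) * (p2 : ZMod p1) =
        (u : ZMod p1) * ((p2 : ZMod p1) * (p2 : ZMod p1)) := by ring
      rw [this]
      exact s1.mul ⟨_, rfl⟩
    · refine rt1 H.pp2 hd H.sqf hc h hM2 (d1 := p1 * u) (by rw [hu]; ring) ?_ hR
      push_cast
      have : (p1 : ZMod p2) * (u : ZMod p2) * (p1 : ZMod p2) =
        (u : ZMod p2) * ((p1 : ZMod p2) * (p1 : ZMod p2)) := by ring
      rw [this]
      exact s2.mul ⟨_, rfl⟩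

/-- second descent: the class of `X` on the isogenous curve -/
theorem Hyp2.cls2 (H : Hyp2 m p1 p2) {d w e N : ℤ} (hd : Squarefree d)
    (hc : IsCoprime (d * w) e)
    (h : d * N ^ 2 = d ^ 2 * w ^ 4 + (-26 * ((p1 * p2 * m : ℕ) : ℤ)) * d * w ^ 2 * e ^ 2 +
      (-343 * ((p1 * p2 * m : ℕ) : ℤ) ^ 2) * e ^ 4) : d = 1 ∨ d = -7 := by
  have hd0 := hd.ne_zero
  have hM0 : (((p1 * p2 * m : ℕ)) : ℤ) ≠ 0 := H.sqf.ne_zero
  haveI : Fact p1.Prime := ⟨H.pp1⟩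
  haveI : Fact p2.Prime := ⟨H.pp2⟩
  have hdvd := div_dvd hc h
  -- primes dividing `m`
  have h1 : ∀ q : ℕ, q.Prime → (q : ℤ) ∣ d → ¬ q ∣ m := by
    intro q hq hqd hqm
    haveI : Fact q.Prime := ⟨hq⟩
    obtain ⟨n2, n7, hs7, hs2⟩ := H.two q hq hqm
    have hqM : (q : ℤ) ∣ ((p1 * p2 * m : ℕ) : ℤ) := Int.natCast_dvd_natCast.2 (hqm.mul_left _)
    obtain ⟨d1, M1, -, -, k1, k2, k3⟩ := local_root hd H.sqf hc h hq hqd hqM
    have n2' : (2 : ZMod q) ≠ 0 := by exact_mod_cast prime_cast_ne hq 2 Nat.prime_two n2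
    have n16 : (16 : ZMod q) ≠ 0 := by
      rw [show (16 : ZMod q) = 2 ^ 4 by norm_num]; exact pow_ne_zero _ n2'
    set z : ZMod q := (M1 : ZMod q) * (e : ZMod q) ^ 2 with hz
    have hz0 : z ≠ 0 := mul_ne_zero k1 (pow_ne_zero 2 k2)
    set u : ZMod q := ((d1 * w ^ 2 : ℤ) : ZMod q) with hu
    apply hs2
    refine ⟨(u - 13 * z) / (16 * z), ?_⟩
    have h77 : (16 * z) * (16 * z) ≠ 0 := mul_ne_zero (mul_ne_zero n16 hz0) (mul_ne_zero n16 hz0)
    rw [div_mul_div_comm, eq_div_iff h77]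
    push_cast at k3
    linear_combination -k3
  have hu2 : ∀ u : ℤ, Squarefree u → u ∣ -343 → u = 1 ∨ u = -1 ∨ u = 7 ∨ u = -7 := by
    intro u hsf hdv
    have h4 := sf_pow 7 3 (by norm_num) hsf (by norm_num; exact (dvd_neg.1 hdv))
    omega
  have hsqp : ∀ (p : ℕ) (_ : Fact p.Prime) (_ : p % 8 = 1) (_ : IsSquare (-7 : ZMod p)) (u : ℤ),
      (u = 1 ∨ u = -1 ∨ u = 7 ∨ u = -7) → IsSquare (u : ZMod p) := by
    intro p _ h8 hs u hu
    obtain ⟨i, hi⟩ := (ZMod.exists_sq_eq_neg_one_iff (p := p)).2 (by omega)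
    obtain ⟨δ, hδ⟩ := hs
    rcases hu with rfl | rfl | rfl | rfl
    · exact ⟨1, by push_cast; ring⟩
    · exact ⟨i, by push_cast; exact hi⟩
    · exact ⟨i * δ, by push_cast; linear_combination (-7 : ZMod p) * hi + (i * i) * hδ⟩
    · exact ⟨δ, by push_cast; exact hδ⟩
  have hsq : ∀ u : ℤ, (u = 1 ∨ u = -1 ∨ u = 7 ∨ u = -7) →
      IsSquare (u : ZMod p1) ∧ IsSquare (u : ZMod p2) := fun u hu =>
    ⟨hsqp p1 ⟨H.pp1⟩ H.p18 H.sev1 u hu, hsqp p2 ⟨H.pp2⟩ H.p28 H.sev2 u hu⟩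
  have n71 : (7 : ZMod p1) ≠ 0 := by exact_mod_cast prime_cast_ne H.pp1 7 (by norm_num) H.p17
  have n72 : (7 : ZMod p2) ≠ 0 := by exact_mod_cast prime_cast_ne H.pp2 7 (by norm_num) H.p27
  have hM1 : (((p1 * p2 * m : ℕ)) : ℤ) = p1 * (p2 * m) := by push_cast; ring
  have hM2 : (((p1 * p2 * m : ℕ)) : ℤ) = p2 * (p1 * m) := by push_cast; ring
  have h3 : ¬ (p1 : ℤ) ∣ d ∧ ¬ (p2 : ℤ) ∣ d := by
    rcases H.shape hd with ⟨a1, a2⟩ | ⟨u, hu, a1, a2, a3⟩ | ⟨u, hu, a1, a2, a3⟩ | ⟨u, hu, a1, a2⟩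
    · exact ⟨a1, a2⟩
    · exfalso
      have husf : Squarefree u := by rw [hu] at hd; exact hd.of_mul_right
      have hu12 := hu2 u husf (H.unit_part hdvd h1 (Dvd.intro_left _ hu.symm) a1 a2)
      obtain ⟨s1, s2⟩ := hsq u hu12
      obtain ⟨τ, hτ⟩ := H.sev2
      have hds := sq_other H.sqf hc h H.pp2 a3 ⟨_, hM2⟩ (b := 7 * τ)
        (by push_cast; linear_combination 49 * hτ) (by
          have hτ0 : τ ≠ 0 := by
            rintro rfl; apply n72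
            linear_combination -hτ
          exact mul_ne_zero n72 hτ0)
      have hp1s : IsSquare (p1 : ZMod p2) := by
        rw [hu] at hds
        push_cast at hds
        obtain ⟨r, hr⟩ := hds
        obtain ⟨s, hs⟩ := s2
        have hu0 : (u : ZMod p2) ≠ 0 := by
          rw [Ne, ZMod.intCast_zmod_eq_zero_iff_dvd]; exact a2
        have hs0 : s ≠ 0 := by rintro rfl; apply hu0; rw [hs]; ring
        refine ⟨r / s, ?_⟩
        rw [div_mul_div_comm, eq_div_iff (mul_ne_zero hs0 hs0), ← hs]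
        exact hr
      have hp2s := H.sq12 hp1s
      exact rt2 H.pp1 H.p18 H.p17 H.sev1 hd H.sqf hc h hM1 hu (s1.mul hp2s) (H.c12 hp1s).1
    · exfalso
      have husf : Squarefree u := by rw [hu] at hd; exact hd.of_mul_right
      have hu12 := hu2 u husf (H.unit_part hdvd h1 (Dvd.intro_left _ hu.symm) a1 a2)
      obtain ⟨s1, s2⟩ := hsq u hu12
      obtain ⟨τ, hτ⟩ := H.sev1
      have hds := sq_other H.sqf hc h H.pp1 a3 ⟨_, hM1⟩ (b := 7 * τ)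
        (by push_cast; linear_combination 49 * hτ) (by
          have hτ0 : τ ≠ 0 := by
            rintro rfl; apply n71
            linear_combination -hτ
          exact mul_ne_zero n71 hτ0)
      have hp2s : IsSquare (p2 : ZMod p1) := by
        rw [hu] at hds
        push_cast at hds
        obtain ⟨r, hr⟩ := hds
        obtain ⟨s, hs⟩ := s1
        have hu0 : (u : ZMod p1) ≠ 0 := by
          rw [Ne, ZMod.intCast_zmod_eq_zero_iff_dvd]; exact a1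
        have hs0 : s ≠ 0 := by rintro rfl; apply hu0; rw [hs]; ring
        refine ⟨r / s, ?_⟩
        rw [div_mul_div_comm, eq_div_iff (mul_ne_zero hs0 hs0), ← hs]
        exact hr
      have hp1s := H.sq21 hp2s
      exact rt2 H.pp2 H.p28 H.p27 H.sev2 hd H.sqf hc h hM2 hu (s2.mul hp1s) (H.c12 hp1s).2
    · exfalso
      have husf : Squarefree u := by rw [hu] at hd; exact hd.of_mul_right.of_mul_right
      have hu12 := hu2 u husf (H.unit_part hdvd h1 ⟨p1 * p2, by rw [hu]; ring⟩ a1 a2)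
      obtain ⟨s1, s2⟩ := hsq u hu12
      rcases H.cor with hR | hR
      · refine rt2 H.pp1 H.p18 H.p17 H.sev1 hd H.sqf hc h hM1 hu ?_ hR
        push_cast
        have : (p2 : ZMod p1) * (u : ZMod p1) * (p2 : ZMod p1) =
          (u : ZMod p1) * ((p2 : ZMod p1) * (p2 : ZMod p1)) := by ring
        rw [this]
        exact s1.mul ⟨_, rfl⟩
      · refine rt2 H.pp2 H.p28 H.p27 H.sev2 hd H.sqf hc h hM2 (d1 := p1 * u)
          (by rw [hu]; ring) ?_ hR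
        push_cast
        have : (p1 : ZMod p2) * (u : ZMod p2) * (p1 : ZMod p2) =
          (u : ZMod p2) * ((p1 : ZMod p2) * (p1 : ZMod p2)) := by ring
        rw [this]
        exact s2.mul ⟨_, rfl⟩
  have h5 := hu2 d hd (H.unit_part hdvd h1 dvd_rfl h3.1 h3.2)
  have hM4 : (((p1 * p2 * m : ℕ)) : ℤ) % 4 = 1 := by
    have h6 := H.m4
    have h7 : p1 % 4 = 1 := by have := H.p18; omega
    have h8 : p2 % 4 = 1 := by have := H.p28; omega
    have : (p1 * p2 * m) % 4 = 1 := by rw [Nat.mul_mod, Nat.mul_mod p1, h6, h7, h8]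
    omega
  rcases h5 with rfl | rfl | rfl | rfl
  · exact Or.inl rfl
  · exfalso
    refine not_neg_one hM4 (hc.of_mul_left_right) (N := N) ?_
    linear_combination h
  · exfalso
    refine not_seven hM4 (hc.of_mul_left_right) (N := N) ?_
    apply mul_left_cancel₀ (show (7 : ℤ) ≠ 0 by norm_num)
    linear_combination h
  · exact Or.inr rfl

/-- finiteness from the knowledge of the classes -/
theorem finite_pt_of_class {M : ℚ} (hM0 : M ≠ 0)
    (hx_class : ∀ {x y : ℚ}, x ≠ 0 → y ^ 2 = x * (x ^ 2 + 13 * M * x + 128 * M ^ 2) →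
      IsSquare x ∨ IsSquare (2 * x))
    (hX_class : ∀ {u v : ℚ}, v ^ 2 = u ^ 4 + 13 * M * u ^ 2 + 128 * M ^ 2 →
      IsSquare (13 * M + 2 * u ^ 2 + 2 * v) ∨ IsSquare (13 * M + 2 * u ^ 2 - 2 * v)) :
    Finite (SPt (5805 * M ^ 2) (-285714 * M ^ 3)) := by
  have hTe : (0 : ℚ) ^ 2 = (39 * M) ^ 3 + (5805 * M ^ 2) * (39 * M) + (-285714 * M ^ 3) := by ring
  have hT := sw_nonsing (disc_ne hM0) hTe
  have hTT : 2 • (Point.some _ _ hT : SPt (5805 * M ^ 2) (-285714 * M ^ 3)) = 0 := by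
    rw [two_nsmul]
    apply Point.add_self_of_Y_eq
    simp [negY, sw]
  -- points whose `x` is a nonzero square
  have hsq : ∀ (u y : ℚ), u ≠ 0 → ∀ (hP : (sw (5805 * M ^ 2) (-285714 * M ^ 3)).toAffine.Nonsingular
      (9 * u ^ 2 + 39 * M) (27 * y)),
      ∃ Q : SPt (5805 * M ^ 2) (-285714 * M ^ 3), 2 • Q = Point.some _ _ hP := by
    intro u y hu hP
    have heq := sw_eqn.1 hP.1
    have hv : (y / u) ^ 2 = u ^ 4 + 13 * M * u ^ 2 + 128 * M ^ 2 := by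
      field_simp
      linear_combination heq / 729
    have hy : y = u * (y / u) := by field_simp
    generalize y / u = v at hv hy
    subst hy
    rcases hX_class hv with ⟨s, hs⟩ | ⟨s, hs⟩
    · exact halve hM0 hv (s := s) (by rw [hs]; ring) hP
    · have hneg : -(Point.some _ _ hP : SPt (5805 * M ^ 2) (-285714 * M ^ 3)) =
          Point.some (9 * u ^ 2 + 39 * M) (27 * (u * -v)) (by
            have h1 : (9 * u ^ 2 + 39 * M) ^ 3 + 5805 * M ^ 2 * (9 * u ^ 2 + 39 * M) + -285714 * M ^ 3 =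
              (27 * (u * -v)) ^ 2 := by rw [← heq]; ring
            exact sw_nonsing (disc_ne hM0) h1.symm) := by
        rw [Point.neg_some]
        refine pt_congr _ _ rfl ?_
        simp [negY, sw]
      obtain ⟨Q, hQ⟩ := halve hM0 (u := u) (v := -v) (s := s) (by rw [neg_sq]; exact hv)
        (by rw [← sq] at hs; rw [← hs]; ring) (by
            have h1 : (9 * u ^ 2 + 39 * M) ^ 3 + 5805 * M ^ 2 * (9 * u ^ 2 + 39 * M) + -285714 * M ^ 3 =
              (27 * (u * -v)) ^ 2 := by rw [← heq]; ring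
            exact sw_nonsing (disc_ne hM0) h1.symm)
      refine ⟨-Q, ?_⟩
      rw [smul_neg, hQ, ← hneg, neg_neg]
  refine finite_of_halving (sfg (disc_ne hM0)) (Point.some _ _ hT) hTT ?_
  intro P
  rcases P with _ | ⟨X, Y, hP⟩
  · exact ⟨0, Or.inl (smul_zero _)⟩
  · obtain ⟨x, hx⟩ : ∃ x, x = (X - 39 * M) / 9 := ⟨_, rfl⟩
    obtain ⟨y, hy⟩ : ∃ y, y = Y / 27 := ⟨_, rfl⟩
    have hX : X = 9 * x + 39 * M := by rw [hx]; ring
    have hY : Y = 27 * y := by rw [hy]; ring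
    subst hX hY
    have heq := sw_eqn.1 hP.1
    have h1 : y ^ 2 = x * (x ^ 2 + 13 * M * x + 128 * M ^ 2) := by
      linear_combination heq / 729
    by_cases hx0 : x = 0
    · subst hx0
      have hy0 : y = 0 := by
        have : y ^ 2 = 0 := by rw [h1]; ring
        exact pow_eq_zero_iff (two_ne_zero) |>.1 this
      subst hy0
      refine ⟨0, Or.inr ?_⟩
      have : (Point.some _ _ hP : SPt (5805 * M ^ 2) (-285714 * M ^ 3)) = Point.some _ _ hT :=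
        pt_congr _ _ (by ring) (by ring)
      rw [this, smul_zero, ← two_nsmul, hTT]
    · rcases hx_class hx0 h1 with ⟨u, hu⟩ | ⟨u, hu⟩
      · have hu0 : u ≠ 0 := by
          rintro rfl
          apply hx0
          rw [hu]; ring
        have hu2 : x = u ^ 2 := by rw [hu]; ring
        subst hu2
        obtain ⟨Q, hQ⟩ := hsq u y hu0 hP
        exact ⟨Q, Or.inl hQ⟩
      · have hu0 : u ≠ 0 := by
          rintro rfl
          apply hx0
          linarith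
        obtain ⟨y', hR, hadd⟩ := add_T hx0 h1 hP hT
        have e1 : 128 * M ^ 2 / x = (16 * M / u) ^ 2 := by
          have : x = u ^ 2 / 2 := by linarith [hu, sq u]
          rw [this]
          field_simp
          ring
        rw [e1] at hR
        have hadd' : (Point.some _ _ hP : SPt (5805 * M ^ 2) (-285714 * M ^ 3)) +
            Point.some _ _ hT = Point.some _ _ hR := by
          rw [hadd]
          exact pt_congr _ _ (by rw [e1]) rfl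
        obtain ⟨Q, hQ⟩ := hsq (16 * M / u) y' (div_ne_zero (mul_ne_zero (by norm_num) hM0) hu0) hR
        exact ⟨Q, Or.inr (hQ.trans hadd'.symm)⟩

/-- finiteness of the set of rational points from the knowledge of the classes -/
theorem finite_set_of_class {M : ℕ} (hM : M ≠ 0)
    (hx_class : ∀ {x y : ℚ}, x ≠ 0 → y ^ 2 = x * (x ^ 2 + 13 * (M : ℚ) * x + 128 * (M : ℚ) ^ 2) →
      IsSquare x ∨ IsSquare (2 * x))
    (hX_class : ∀ {u v : ℚ}, v ^ 2 = u ^ 4 + 13 * (M : ℚ) * u ^ 2 + 128 * (M : ℚ) ^ 2 →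
      IsSquare (13 * (M : ℚ) + 2 * u ^ 2 + 2 * v) ∨ IsSquare (13 * (M : ℚ) + 2 * u ^ 2 - 2 * v)) :
    {q : ℚ × ℚ | q.2 ^ 2 = q.1 ^ 3 + ((5805 * (M : ℤ) ^ 2 : ℤ) : ℚ) * q.1 +
      ((-285714 * (M : ℤ) ^ 3 : ℤ) : ℚ)}.Finite := by
  have hM0 : (M : ℚ) ≠ 0 := by exact_mod_cast hM
  haveI := finite_pt_of_class hM0 hx_class hX_class
  rw [← Set.finite_coe_iff]
  have key : ∀ q : {q : ℚ × ℚ | q.2 ^ 2 = q.1 ^ 3 + ((5805 * (M : ℤ) ^ 2 : ℤ) : ℚ) * q.1 +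
      ((-285714 * (M : ℤ) ^ 3 : ℤ) : ℚ)},
      (sw (5805 * (M : ℚ) ^ 2) (-285714 * (M : ℚ) ^ 3)).toAffine.Nonsingular q.1.1 q.1.2 := by
    rintro ⟨q, hq⟩
    refine sw_nonsing (disc_ne hM0) ?_
    have h1 : q.2 ^ 2 = q.1 ^ 3 + ((5805 * (M : ℤ) ^ 2 : ℤ) : ℚ) * q.1 +
      ((-285714 * (M : ℤ) ^ 3 : ℤ) : ℚ) := hq
    rw [h1]
    push_cast
    ring
  refine Finite.of_injective (fun q : {q : ℚ × ℚ | q.2 ^ 2 = q.1 ^ 3 +
      ((5805 * (M : ℤ) ^ 2 : ℤ) : ℚ) * q.1 + ((-285714 * (M : ℤ) ^ 3 : ℤ) : ℚ)} =>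
    (Point.some _ _ (key q) : SPt (5805 * (M : ℚ) ^ 2) (-285714 * (M : ℚ) ^ 3))) ?_
  intro q q' h
  have h1 := Point.some.inj h
  exact Subtype.ext (Prod.ext h1.1 h1.2)

/-- the class of `x` -/
theorem Hyp2.x_class (H : Hyp2 m p1 p2) {x y : ℚ} (hx : x ≠ 0)
    (h : y ^ 2 = x * (x ^ 2 + 13 * ((p1 * p2 * m : ℕ) : ℚ) * x +
      128 * ((p1 * p2 * m : ℕ) : ℚ) ^ 2)) : IsSquare x ∨ IsSquare (2 * x) := by
  obtain ⟨d, w, e, N, h1, h2, h3, h4, h5, h6⟩ := hom_space (13 * ((p1 * p2 * m : ℕ) : ℤ))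
    (128 * ((p1 * p2 * m : ℕ) : ℤ) ^ 2) (X := x) (Y := y) hx (by rw [h]; push_cast; ring)
  have he : (e : ℚ) ≠ 0 := by exact_mod_cast h2.ne'
  rcases H.cls1 h1 h2 h4 h6 with rfl | rfl
  · left
    refine ⟨w / e, ?_⟩
    rw [h5]
    push_cast
    field_simp
  · right
    refine ⟨2 * w / e, ?_⟩
    rw [h5]
    push_cast
    field_simp

/-- the class of `X` -/
theorem Hyp2.X_class (H : Hyp2 m p1 p2) {u v : ℚ}
    (h : v ^ 2 = u ^ 4 + 13 * ((p1 * p2 * m : ℕ) : ℚ) * u ^ 2 +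
      128 * ((p1 * p2 * m : ℕ) : ℚ) ^ 2) :
    IsSquare (13 * ((p1 * p2 * m : ℕ) : ℚ) + 2 * u ^ 2 + 2 * v) ∨
      IsSquare (13 * ((p1 * p2 * m : ℕ) : ℚ) + 2 * u ^ 2 - 2 * v) := by
  have hM0 : ((p1 * p2 * m : ℕ) : ℚ) ≠ 0 := by
    have := H.sqf.ne_zero
    exact_mod_cast this
  have hcls := fun {d w e N : ℤ} hd hc h => H.cls2 (d := d) (w := w) (e := e) (N := N) hd hc h
  generalize (p1 * p2 * m : ℕ) = M at *
  have hprod : (13 * (M : ℚ) + 2 * u ^ 2 + 2 * v) *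
      (13 * (M : ℚ) + 2 * u ^ 2 - 2 * v) = -343 * (M : ℚ) ^ 2 := by
    linear_combination (-4 : ℚ) * h
  obtain ⟨X, hX⟩ : ∃ X, X = 13 * (M : ℚ) + 2 * u ^ 2 + 2 * v := ⟨_, rfl⟩
  have hX0 : X ≠ 0 := by
    rintro rfl
    rw [← hX, zero_mul] at hprod
    have : 343 * (M : ℚ) ^ 2 = 0 := by linear_combination hprod
    rcases mul_eq_zero.1 this with h1 | h1
    · norm_num at h1
    · exact pow_ne_zero 2 hM0 h1
  obtain ⟨d, w, e, N, h1, h2, h3, h4, h5, h6⟩ := hom_space (-26 * (M : ℤ))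
    (-343 * (M : ℤ) ^ 2) (X := X) (Y := 2 * u * X) hX0 (by
      rw [hX]
      push_cast at h ⊢
      linear_combination (-4 * (13 * (M : ℚ) + 2 * u ^ 2 + 2 * v)) * h)
  have he : (e : ℚ) ≠ 0 := by exact_mod_cast h2.ne'
  have hw : (w : ℚ) ≠ 0 := by exact_mod_cast h3
  rcases hcls h1 h4 h6 with rfl | rfl
  · left
    refine ⟨w / e, ?_⟩
    rw [← hX, h5]
    push_cast
    field_simp
  · right
    refine ⟨7 * (M : ℚ) * e / w, ?_⟩
    rw [← hX, h5] at hprod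
    push_cast at hprod ⊢
    field_simp at hprod ⊢
    linear_combination (-1 : ℚ) * hprod / 7

/-- finitely many rational points -/
theorem Hyp2.finite_set {m p1 p2 : ℕ} (H : Hyp2 m p1 p2) : {q : ℚ × ℚ | q.2 ^ 2 = q.1 ^ 3 +
    ((5805 * ((p1 * p2 * m : ℕ) : ℤ) ^ 2 : ℤ) : ℚ) * q.1 +
      ((-285714 * ((p1 * p2 * m : ℕ) : ℤ) ^ 3 : ℤ) : ℚ)}.Finite :=
  finite_set_of_class (by have := H.sqf.ne_zero; exact_mod_cast this)
    (fun hx h => H.x_class hx h) (fun h => H.X_class h)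

end Pool.Agent.Y687
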