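import Pool.Agent.Y687.K2.Desc2p

/-!
Descent by a two-isogeny for twists with a prime of type A and a prime of type B.
-/

set_option autoImplicit false
set_option linter.style.haveILetI false

open WeierstrassCurve WeierstrassCurve.Affine

namespace Pool.Agent.Y687

open Pool.Agent.TH942 (sw SPt sw_eqn sw_nonsing sfg)

/-- the hypotheses of the descent for `M = A B m` -/
structure HypAB (m A B : ℕ) : Prop where
  m4 : m % 4 = 1
  pA : A.Prime
  pB : B.Prime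
  A8 : A % 8 = 1
  B4 : B % 4 = 1
  sqf : Squarefree (((A * B * m : ℕ)) : ℤ)
  two : ∀ q : ℕ, q.Prime → q ∣ m → q ≠ 2 ∧ q ≠ 7 ∧ ¬ IsSquare (-7 : ZMod q) ∧ ¬ IsSquare (2 : ZMod q)
  A7 : ¬ IsSquare (-7 : ZMod A)
  B2 : ¬ IsSquare (2 : ZMod B)
  B7 : IsSquare (-7 : ZMod B)
  nB7 : B ≠ 7
  AB : ¬ IsSquare (A : ZMod B)

variable {m A B : ℕ}

theorem HypAB.nA7 (H : HypAB m A B) : A ≠ 7 := by
  have := H.A8
  rintro rfl
  omega

theorem HypAB.ne (H : HypAB m A B) : A ≠ B := by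
  rintro rfl
  have h := H.sqf (A : ℤ) ⟨m, by push_cast; ring⟩
  exact (Nat.prime_iff_prime_int.1 H.pA).not_isUnit h

theorem HypAB.BA (H : HypAB m A B) : ¬ IsSquare (B : ZMod A) := by
  intro h
  haveI : Fact A.Prime := ⟨H.pA⟩
  haveI : Fact B.Prime := ⟨H.pB⟩
  have h1 := H.A8
  have h2 := H.B4
  exact H.AB ((ZMod.exists_sq_eq_prime_iff_of_mod_four_eq_one (p := A) (q := B) (by omega)
    (by rintro rfl; omega)).1 h)

theorem HypAB.cop_case (H : HypAB m A B) {q : ℕ} (hq : q.Prime)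
    (h : (q : ℤ) ∣ ((A * B * m : ℕ) : ℤ)) : q = A ∨ q = B ∨ q ∣ m := by
  have h1 : q ∣ A * B * m := Int.natCast_dvd_natCast.1 h
  rcases hq.dvd_mul.1 h1 with h2 | h2
  · rcases hq.dvd_mul.1 h2 with h3 | h3
    · exact Or.inl ((Nat.prime_dvd_prime_iff_eq hq H.pA).1 h3)
    · exact Or.inr (Or.inl ((Nat.prime_dvd_prime_iff_eq hq H.pB).1 h3))
  · exact Or.inr (Or.inr h2)

/-- the square root of the discriminant of the first curve -/
theorem no_root1 {M d w e N : ℤ} (hd : Squarefree d) (hM : Squarefree M)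
    (hc : IsCoprime (d * w) e)
    (h : d * N ^ 2 = d ^ 2 * w ^ 4 + (13 * M) * d * w ^ 2 * e ^ 2 + (128 * M ^ 2) * e ^ 4)
    {q : ℕ} (hq : q.Prime) (n7 : q ≠ 7) (hs7 : ¬ IsSquare (-7 : ZMod q)) (hqd : (q : ℤ) ∣ d)
    (hqM : (q : ℤ) ∣ M) : False := by
  haveI : Fact q.Prime := ⟨hq⟩
  obtain ⟨d1, M1, -, -, k1, k2, k3⟩ := local_root hd hM hc h hq hqd hqM
  have n7' : (7 : ZMod q) ≠ 0 := by exact_mod_cast prime_cast_ne hq 7 (by norm_num) n7
  set z : ZMod q := (M1 : ZMod q) * (e : ZMod q) ^ 2 with hz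
  have hz0 : z ≠ 0 := mul_ne_zero k1 (pow_ne_zero 2 k2)
  set u : ZMod q := ((d1 * w ^ 2 : ℤ) : ZMod q) with hu
  apply hs7
  refine ⟨(2 * u + 13 * z) / (7 * z), ?_⟩
  have h77 : (7 * z) * (7 * z) ≠ 0 := mul_ne_zero (mul_ne_zero n7' hz0) (mul_ne_zero n7' hz0)
  rw [div_mul_div_comm, eq_div_iff h77]
  push_cast at k3
  linear_combination -4 * k3

/-- the square root of the discriminant of the second curve -/
theorem no_root2 {M d w e N : ℤ} (hd : Squarefree d) (hM : Squarefree M)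
    (hc : IsCoprime (d * w) e)
    (h : d * N ^ 2 = d ^ 2 * w ^ 4 + (-26 * M) * d * w ^ 2 * e ^ 2 + (-343 * M ^ 2) * e ^ 4)
    {q : ℕ} (hq : q.Prime) (n2 : q ≠ 2) (hs2 : ¬ IsSquare (2 : ZMod q)) (hqd : (q : ℤ) ∣ d)
    (hqM : (q : ℤ) ∣ M) : False := by
  haveI : Fact q.Prime := ⟨hq⟩
  obtain ⟨d1, M1, -, -, k1, k2, k3⟩ := local_root hd hM hc h hq hqd hqM
  have n2' : (2 : ZMod q) ≠ 0 := by exact_mod_cast prime_cast_ne hq 2 Nat.prime_two n2
  have n16 : (16 : ZMod q) ≠ 0 := by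
    rw [show (16 : ZMod q) = 2 ^ 4 by norm_num]; exact pow_ne_zero _ n2'
  set z : ZMod q := (M1 : ZMod q) * (e : ZMod q) ^ 2 with hz
  have hz0 : z ≠ 0 := mul_ne_zero k1 (pow_ne_zero 2 k2)
  set u : ZMod q := ((d1 * w ^ 2 : ℤ) : ZMod q) with hu
  apply hs2
  refine ⟨(u - 13 * z) / (16 * z), ?_⟩
  have h77 : (16 * z) * (16 * z) ≠ 0 := mul_ne_zero (mul_ne_zero n16 hz0) (mul_ne_zero n16 hz0)
  rw [div_mul_div_comm, eq_div_iff h77]
  push_cast at k3
  linear_combination -k3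

/-- a squarefree number is not divisible by `p` or `p` times a number prime to `p` -/
theorem split_off {p : ℕ} (hp : p.Prime) {d : ℤ} (hd : Squarefree d) :
    ¬ (p : ℤ) ∣ d ∨ ∃ u : ℤ, d = p * u ∧ ¬ (p : ℤ) ∣ u := by
  by_cases h : (p : ℤ) ∣ d
  · obtain ⟨u, hu⟩ := h
    refine Or.inr ⟨u, hu, ?_⟩
    rintro ⟨k, hk⟩
    exact (Nat.prime_iff_prime_int.1 hp).not_isUnit (hd p ⟨k, by rw [hu, hk]; ring⟩)
  · exact Or.inl h

/-- if `p u` and `u ≠ 0` are squares modulo `q`, then so is `p` -/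
theorem sq_of_mul {q : ℕ} (hq : q.Prime) {p : ℕ} {u : ℤ} (h : IsSquare (((p * u : ℤ)) : ZMod q))
    (hu : IsSquare (u : ZMod q)) (hu0 : (u : ZMod q) ≠ 0) : IsSquare (p : ZMod q) := by
  haveI : Fact q.Prime := ⟨hq⟩
  push_cast at h
  obtain ⟨r, hr⟩ := h
  obtain ⟨s, hs⟩ := hu
  have hs0 : s ≠ 0 := by rintro rfl; apply hu0; rw [hs]; ring
  refine ⟨r / s, ?_⟩
  rw [div_mul_div_comm, eq_div_iff (mul_ne_zero hs0 hs0), ← hs]
  exact hr

/-- first descent: the class of `x` -/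
theorem HypAB.cls1 (H : HypAB m A B) {d w e N : ℤ} (hd : Squarefree d) (he : 0 < e)
    (hc : IsCoprime (d * w) e)
    (h : d * N ^ 2 = d ^ 2 * w ^ 4 + (13 * ((A * B * m : ℕ) : ℤ)) * d * w ^ 2 * e ^ 2 +
      (128 * ((A * B * m : ℕ) : ℤ) ^ 2) * e ^ 4) : d = 1 ∨ d = 2 := by
  have hM0 : (((A * B * m : ℕ)) : ℤ) ≠ 0 := H.sqf.ne_zero
  haveI : Fact A.Prime := ⟨H.pA⟩
  haveI : Fact B.Prime := ⟨H.pB⟩
  have Bpos : (0 : ℤ) < B := by exact_mod_cast H.pB.pos
  -- positivity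
  have hpos : 0 < d := by
    by_contra hneg
    have hd0 := hd.ne_zero
    have h1 : d * N ^ 2 ≤ 0 := mul_nonpos_of_nonpos_of_nonneg (by linarith) (sq_nonneg _)
    have h2 : 0 < 343 * ((A * B * m : ℕ) : ℤ) ^ 2 * e ^ 4 := by positivity
    nlinarith [sq_nonneg (2 * d * w ^ 2 + 13 * ((A * B * m : ℕ) : ℤ) * e ^ 2)]
  have hdvd := div_dvd hc h
  -- the only prime of `M` which can divide `d` is `B`
  have h1 : ∀ q : ℕ, q.Prime → (q : ℤ) ∣ d → (q : ℤ) ∣ ((A * B * m : ℕ) : ℤ) → q = B := by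
    intro q hq hqd hqM
    rcases H.cop_case hq hqM with rfl | h2 | hqm
    · exact (no_root1 hd H.sqf hc h hq H.nA7 H.A7 hqd hqM).elim
    · exact h2
    · obtain ⟨n2, n7, hs7, hs2⟩ := H.two q hq hqm
      exact (no_root1 hd H.sqf hc h hq n7 hs7 hqd hqM).elim
  have hMA : (A : ℤ) ∣ ((A * B * m : ℕ) : ℤ) := ⟨B * m, by push_cast; ring⟩
  have nAd : ¬ (A : ℤ) ∣ d := fun h2 => H.ne (h1 A H.pA h2 hMA)
  have twoA : IsSquare (2 : ZMod A) :=
    (ZMod.exists_sq_eq_two_iff (by have := H.A8; rintro rfl; omega)).2 (Or.inl H.A8)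
  have n2A : (2 : ZMod A) ≠ 0 := by
    exact_mod_cast prime_cast_ne H.pA 2 Nat.prime_two (by have := H.A8; rintro rfl; omega)
  have unit : ∀ u : ℤ, 0 < u → Squarefree u → u ∣ d → ¬ (B : ℤ) ∣ u → u = 1 ∨ u = 2 := by
    intro u hu hsf hud hB
    have h2 : u ∣ 128 := by
      refine dvd_of_no_common (M := ((A * B * m : ℕ) : ℤ)) (hud.trans hdvd) fun q hq hqu hqM => ?_
      have := h1 q hq (hqu.trans hud) hqM
      subst this
      exact hB hqu
    have h4 := sf_pow 2 7 Nat.prime_two hsf (by norm_num; exact h2)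
    omega
  rcases split_off H.pB hd with h2 | ⟨u, hu, hBu⟩
  · exact unit d hpos hd dvd_rfl h2
  · exfalso
    have husf : Squarefree u := by rw [hu] at hd; exact hd.of_mul_right
    have hupos : 0 < u := by rw [hu] at hpos; exact (mul_pos_iff_of_pos_left Bpos).1 hpos
    have hu12 := unit u hupos husf (Dvd.intro_left _ hu.symm) hBu
    have hus : IsSquare (u : ZMod A) := by
      rcases hu12 with rfl | rfl
      · exact ⟨1, by push_cast; ring⟩
      · push_cast; exact twoA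
    have hu0 : (u : ZMod A) ≠ 0 := by
      rcases hu12 with rfl | rfl
      · push_cast; exact one_ne_zero
      · push_cast; exact n2A
    obtain ⟨τ, hτ⟩ := twoA
    have hds := sq_other H.sqf hc h H.pA nAd hMA (b := 8 * τ)
      (by push_cast; linear_combination 64 * hτ) (by
        have hτ0 : τ ≠ 0 := by rintro rfl; apply n2A; rw [hτ]; ring
        have h8 : (8 : ZMod A) ≠ 0 := by
          rw [show (8 : ZMod A) = 2 ^ 3 by norm_num]; exact pow_ne_zero _ n2A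
        exact mul_ne_zero h8 hτ0)
    rw [hu] at hds
    exact H.BA (sq_of_mul H.pA hds hus hu0)

/-- second descent: the class of `X` on the isogenous curve -/
theorem HypAB.cls2 (H : HypAB m A B) {d w e N : ℤ} (hd : Squarefree d)
    (hc : IsCoprime (d * w) e)
    (h : d * N ^ 2 = d ^ 2 * w ^ 4 + (-26 * ((A * B * m : ℕ) : ℤ)) * d * w ^ 2 * e ^ 2 +
      (-343 * ((A * B * m : ℕ) : ℤ) ^ 2) * e ^ 4) : d = 1 ∨ d = -7 := by
  haveI : Fact A.Prime := ⟨H.pA⟩
  haveI : Fact B.Prime := ⟨H.pB⟩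
  have hdvd := div_dvd hc h
  have nB2 : B ≠ 2 := by
    rintro rfl
    have := H.B4
    omega
  have h1 : ∀ q : ℕ, q.Prime → (q : ℤ) ∣ d → (q : ℤ) ∣ ((A * B * m : ℕ) : ℤ) → q = A := by
    intro q hq hqd hqM
    rcases H.cop_case hq hqM with h2 | rfl | hqm
    · exact h2
    · exact (no_root2 hd H.sqf hc h hq nB2 H.B2 hqd hqM).elim
    · obtain ⟨n2, n7, hs7, hs2⟩ := H.two q hq hqm
      exact (no_root2 hd H.sqf hc h hq n2 hs2 hqd hqM).elim
  have hMB : (B : ℤ) ∣ ((A * B * m : ℕ) : ℤ) := ⟨A * m, by push_cast; ring⟩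
  have nBd : ¬ (B : ℤ) ∣ d := fun h2 => H.ne (h1 B H.pB h2 hMB).symm
  have n7B : (7 : ZMod B) ≠ 0 := by exact_mod_cast prime_cast_ne H.pB 7 (by norm_num) H.nB7
  obtain ⟨i, hi⟩ := (ZMod.exists_sq_eq_neg_one_iff (p := B)).2 (by have := H.B4; omega)
  obtain ⟨δ, hδ⟩ := H.B7
  have hsq : ∀ u : ℤ, (u = 1 ∨ u = -1 ∨ u = 7 ∨ u = -7) →
      IsSquare (u : ZMod B) ∧ (u : ZMod B) ≠ 0 := by
    rintro u (rfl | rfl | rfl | rfl)
    · exact ⟨⟨1, by push_cast; ring⟩, by push_cast; exact one_ne_zero⟩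
    · exact ⟨⟨i, by push_cast; exact hi⟩, by push_cast; exact neg_ne_zero.2 one_ne_zero⟩
    · exact ⟨⟨i * δ, by push_cast; linear_combination (-7 : ZMod B) * hi + (i * i) * hδ⟩,
        by push_cast; exact n7B⟩
    · exact ⟨⟨δ, by push_cast; exact hδ⟩, by push_cast; exact neg_ne_zero.2 n7B⟩
  have unit : ∀ u : ℤ, Squarefree u → u ∣ d → ¬ (A : ℤ) ∣ u →
      u = 1 ∨ u = -1 ∨ u = 7 ∨ u = -7 := by
    intro u hsf hud hA
    have h2 : u ∣ -343 := by
      refine dvd_of_no_common (M := ((A * B * m : ℕ) : ℤ)) (hud.trans hdvd) fun q hq hqu hqM => ?_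
      have := h1 q hq (hqu.trans hud) hqM
      subst this
      exact hA hqu
    have h4 := sf_pow 7 3 (by norm_num) hsf (by norm_num; exact (dvd_neg.1 h2))
    omega
  rcases split_off H.pA hd with h2 | ⟨u, hu, hAu⟩
  · have hM4 : (((A * B * m : ℕ)) : ℤ) % 4 = 1 := by
      have h6 := H.m4
      have h7 : A % 4 = 1 := by have := H.A8; omega
      have h8 := H.B4
      have : (A * B * m) % 4 = 1 := by rw [Nat.mul_mod, Nat.mul_mod A, h6, h7, h8]
      omega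
    rcases unit d hd dvd_rfl h2 with rfl | rfl | rfl | rfl
    · exact Or.inl rfl
    · exfalso
      refine not_neg_one hM4 (hc.of_mul_left_right) (N := N) ?_
      linear_combination h
    · exfalso
      refine not_seven hM4 (hc.of_mul_left_right) (N := N) ?_
      apply mul_left_cancel₀ (show (7 : ℤ) ≠ 0 by norm_num)
      linear_combination h
    · exact Or.inr rfl
  · exfalso
    have husf : Squarefree u := by rw [hu] at hd; exact hd.of_mul_right
    obtain ⟨hus, hu0⟩ := hsq u (unit u husf (Dvd.intro_left _ hu.symm) hAu)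
    have hds := sq_other H.sqf hc h H.pB nBd hMB (b := 7 * δ)
      (by push_cast; linear_combination 49 * hδ) (by
        have hδ0 : δ ≠ 0 := by
          rintro rfl; apply n7B
          linear_combination -hδ
        exact mul_ne_zero n7B hδ0)
    rw [hu] at hds
    exact H.AB (sq_of_mul H.pB hds hus hu0)

/-- the class of `x` from the integral statement -/
theorem x_class_of {M : ℕ} (cls1 : ∀ {d w e N : ℤ}, Squarefree d → 0 < e → IsCoprime (d * w) e →
      d * N ^ 2 = d ^ 2 * w ^ 4 + (13 * (M : ℤ)) * d * w ^ 2 * e ^ 2 + (128 * (M : ℤ) ^ 2) * e ^ 4 →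
      d = 1 ∨ d = 2) {x y : ℚ} (hx : x ≠ 0)
    (h : y ^ 2 = x * (x ^ 2 + 13 * (M : ℚ) * x + 128 * (M : ℚ) ^ 2)) :
    IsSquare x ∨ IsSquare (2 * x) := by
  obtain ⟨d, w, e, N, h1, h2, h3, h4, h5, h6⟩ := hom_space (13 * (M : ℤ))
    (128 * (M : ℤ) ^ 2) (X := x) (Y := y) hx (by rw [h]; push_cast; ring)
  have he : (e : ℚ) ≠ 0 := by exact_mod_cast h2.ne'
  rcases cls1 h1 h2 h4 h6 with rfl | rfl
  · left
    refine ⟨w / e, ?_⟩
    rw [h5]
    push_cast
    field_simp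
  · right
    refine ⟨2 * w / e, ?_⟩
    rw [h5]
    push_cast
    field_simp

/-- the class of `X` from the integral statement -/
theorem X_class_of {M : ℕ} (hM : M ≠ 0) (cls2 : ∀ {d w e N : ℤ}, Squarefree d →
      IsCoprime (d * w) e →
      d * N ^ 2 = d ^ 2 * w ^ 4 + (-26 * (M : ℤ)) * d * w ^ 2 * e ^ 2 + (-343 * (M : ℤ) ^ 2) * e ^ 4 →
      d = 1 ∨ d = -7) {u v : ℚ}
    (h : v ^ 2 = u ^ 4 + 13 * (M : ℚ) * u ^ 2 + 128 * (M : ℚ) ^ 2) :
    IsSquare (13 * (M : ℚ) + 2 * u ^ 2 + 2 * v) ∨ IsSquare (13 * (M : ℚ) + 2 * u ^ 2 - 2 * v) := by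
  have hM0 : (M : ℚ) ≠ 0 := by exact_mod_cast hM
  have hprod : (13 * (M : ℚ) + 2 * u ^ 2 + 2 * v) *
      (13 * (M : ℚ) + 2 * u ^ 2 - 2 * v) = -343 * (M : ℚ) ^ 2 := by
    linear_combination (-4 : ℚ) * h
  obtain ⟨X, hX⟩ : ∃ X, X = 13 * (M : ℚ) + 2 * u ^ 2 + 2 * v := ⟨_, rfl⟩
  have hX0 : X ≠ 0 := by
    rintro rfl
    rw [← hX, zero_mul] at hprod
    have : 343 * (M : ℚ) ^ 2 = 0 := by linear_combination hprod
    rcases mul_eq_zero.1 this with h1 | h1
    · norm_num at h1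
    · exact pow_ne_zero 2 hM0 h1
  obtain ⟨d, w, e, N, h1, h2, h3, h4, h5, h6⟩ := hom_space (-26 * (M : ℤ))
    (-343 * (M : ℤ) ^ 2) (X := X) (Y := 2 * u * X) hX0 (by
      rw [hX]
      push_cast at h ⊢
      linear_combination (-4 * (13 * (M : ℚ) + 2 * u ^ 2 + 2 * v)) * h)
  have he : (e : ℚ) ≠ 0 := by exact_mod_cast h2.ne'
  have hw : (w : ℚ) ≠ 0 := by exact_mod_cast h3
  rcases cls2 h1 h4 h6 with rfl | rfl
  · left
    refine ⟨w / e, ?_⟩
    rw [← hX, h5]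
    push_cast
    field_simp
  · right
    refine ⟨7 * (M : ℚ) * e / w, ?_⟩
    rw [← hX, h5] at hprod
    push_cast at hprod ⊢
    field_simp at hprod ⊢
    linear_combination (-1 : ℚ) * hprod / 7

/-- finitely many rational points -/
theorem HypAB.finite_set (H : HypAB m A B) : {q : ℚ × ℚ | q.2 ^ 2 = q.1 ^ 3 +
    ((5805 * ((A * B * m : ℕ) : ℤ) ^ 2 : ℤ) : ℚ) * q.1 +
      ((-285714 * ((A * B * m : ℕ) : ℤ) ^ 3 : ℤ) : ℚ)}.Finite := by
  have hM : A * B * m ≠ 0 := by have := H.sqf.ne_zero; exact_mod_cast this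
  exact finite_set_of_class hM
    (fun hx h => x_class_of (fun {_ _ _ _} h1 h2 h3 h4 => H.cls1 h1 h2 h3 h4) hx h)
    (fun h => X_class_of hM (fun {_ _ _ _} h1 h2 h3 => H.cls2 h1 h2 h3) h)

/-- the hypotheses in terms of Jacobi symbols, `M = A B ∏ q` -/
theorem HypAB.of_jacobi {A B : ℕ} {S : Finset ℕ} (hA : A.Prime) (hB : B.Prime)
    (hS : ∀ q ∈ S, q.Prime) (hAB : A ≠ B) (hAS : A ∉ S) (hBS : B ∉ S) (A4 : A % 4 = 1)
    (B4 : B % 4 = 1) (S4 : ∀ q ∈ S, q % 4 = 1) (A2 : jacobiSym 2 A = 1)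
    (A7 : jacobiSym (-7) A = -1) (B2 : jacobiSym 2 B = -1) (B7 : jacobiSym (-7) B = 1)
    (S2 : ∀ q ∈ S, jacobiSym 2 q = -1) (S7 : ∀ q ∈ S, jacobiSym (-7) q = -1)
    (hj : jacobiSym A B = -1) : HypAB (∏ q ∈ S, q) A B := by
  haveI : Fact A.Prime := ⟨hA⟩
  haveI : Fact B.Prime := ⟨hB⟩
  have nonsq : ∀ {q : ℕ}, q.Prime → ∀ {x : ℤ}, jacobiSym x q = -1 → ¬ IsSquare (x : ZMod q) := by
    intro q hq x hx
    haveI : Fact q.Prime := ⟨hq⟩
    rw [← jacobiSym.legendreSym.to_jacobiSym] at hx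
    exact (legendreSym.eq_neg_one_iff q).1 hx
  have hprime : ∀ q : ℕ, q.Prime → q ∣ ∏ q ∈ S, q → q ∈ S := by
    intro q hq hqm
    obtain ⟨l, hl, hql⟩ := (Prime.dvd_finsetProd_iff hq.prime _).1 hqm
    rwa [(Nat.prime_dvd_prime_iff_eq hq (hS l hl)).1 hql]
  have hcop : ∀ l : ℕ, l.Prime → l ∉ S → Nat.Coprime l (∏ q ∈ S, q) := by
    intro l hl hlS
    exact (Nat.Prime.coprime_iff_not_dvd hl).2 fun h => hlS (hprime l hl h)
  refine ⟨?_, hA, hB, ?_, B4, ?_, ?_, ?_, ?_, ?_, ?_, ?_⟩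
  · have : ∀ T : Finset ℕ, T ⊆ S → (∏ q ∈ T, q) % 4 = 1 := by
      classical
      intro T
      induction T using Finset.induction_on with
      | empty => intro _; simp
      | insert q T hq ih =>
        intro hT
        rw [Finset.prod_insert hq, Nat.mul_mod, ih ((Finset.subset_insert _ _).trans hT),
          S4 q (hT (Finset.mem_insert_self _ _))]
    exact this S (Finset.Subset.refl _)
  · have h1 := (legendreSym.eq_one_iff A (a := 2) (by
      have : (2 : ZMod A) ≠ 0 := by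
        exact_mod_cast prime_cast_ne hA 2 Nat.prime_two (by rintro rfl; omega)
      exact_mod_cast this)).1 (by rw [jacobiSym.legendreSym.to_jacobiSym]; exact A2)
    have h2 := (ZMod.exists_sq_eq_two_iff (p := A) (by rintro rfl; omega)).1 (by
      exact_mod_cast h1)
    omega
  · rw [Int.squarefree_natCast]
    rw [Nat.squarefree_mul (Nat.Coprime.mul_left (hcop A hA hAS) (hcop B hB hBS)),
      Nat.squarefree_mul ((Nat.coprime_primes hA hB).2 hAB)]
    refine ⟨⟨hA.prime.squarefree, hB.prime.squarefree⟩, ?_⟩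
    refine Finset.squarefree_prod_of_pairwise_isCoprime ?_ fun q hq => (hS q hq).prime.squarefree
    intro q hq l hl hne
    exact Nat.coprime_iff_isRelPrime.1 ((Nat.coprime_primes (hS q hq) (hS l hl)).2 hne)
  · intro q hq hqm
    have hqS := hprime q hq hqm
    have h4 := S4 q hqS
    refine ⟨by rintro rfl; omega, by rintro rfl; omega, ?_, ?_⟩
    · have := nonsq hq (S7 q hqS)
      exact_mod_cast this
    · have := nonsq hq (S2 q hqS)
      exact_mod_cast this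
  · have := nonsq hA A7
    exact_mod_cast this
  · have := nonsq hB B2
    exact_mod_cast this
  · have h0 : (((-7 : ℤ)) : ZMod B) ≠ 0 := by
      intro h0
      rw [ZMod.intCast_zmod_eq_zero_iff_dvd] at h0
      have h1 : B ∣ 7 := by exact_mod_cast (dvd_neg.1 h0)
      have h2 := (Nat.prime_dvd_prime_iff_eq hB (by norm_num)).1 h1
      subst h2
      norm_num at B7
    have h1 := (legendreSym.eq_one_iff B (a := -7) h0).1 (by
      rw [jacobiSym.legendreSym.to_jacobiSym]; exact B7)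
    exact_mod_cast h1
  · rintro rfl
    norm_num at B7
  · have := nonsq hB hj
    exact_mod_cast this

end Pool.Agent.Y687
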