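import Pool.Agent.Y687.K2.Three

/-!
An integral valued Dedekind symbol for `Γ_0(14)`.
-/

set_option autoImplicit false

open Finset

namespace Pool.Agent.Y687

/-- the Dedekind symbol attached to `η(2z) η(7z)^7 / (η(z) η(14z)^7)` -/
def EE (a M : ℤ) : ℚ :=
  -2 * a / M - (1 / 24) * (-psi a M + psi (2 * a) M + 7 * psi (7 * a) M - 7 * psi (14 * a) M)

theorem psi_zero (k : ℤ) : psi 0 k = 0 := by
  unfold psi ded
  have : ∀ i ∈ range k.natAbs, saw k.natAbs (i : ℤ) * saw k.natAbs (0 * i) = 0 := by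
    intro i _
    simp [saw]
  rw [sum_congr rfl this]
  simp

theorem EE_aff {A B D : ℤ} {c : ℕ} (hdet : A * D - B * (14 * c) = 1) (hc : 0 < c) {a M : ℤ}
    (hcop : IsCoprime (14 * a) M) (hM : M ≠ 0) (hK : 14 * c * a + D * M ≠ 0) :
    EE (A * a + B * M) (14 * c * a + D * M) = EE a M + EE B D := by
  have hD : D ≠ 0 := by
    rintro rfl
    have : (14 : ℤ) ∣ 1 := ⟨-(B * c), by linarith⟩
    norm_num at this
  obtain ⟨H, hH⟩ : ∃ H, H = A * a + B * M := ⟨_, rfl⟩
  obtain ⟨K, hKe⟩ : ∃ K, K = 14 * c * a + D * M := ⟨_, rfl⟩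
  rw [← hKe] at hK
  rw [← hH, ← hKe]
  have c1 : IsCoprime a M := hcop.of_mul_left_right
  have c2 : IsCoprime (2 * a) M := IsCoprime.mul_left
    (IsCoprime.of_mul_left_left (x := (2 : ℤ)) (y := 7) (by norm_num; exact hcop.of_mul_left_left)) c1
  have c7 : IsCoprime (7 * a) M := IsCoprime.mul_left
    (IsCoprime.of_mul_left_right (x := (2 : ℤ)) (y := 7) (by norm_num; exact hcop.of_mul_left_left)) c1
  obtain ⟨κ1, i1, -⟩ := three (14 * c) (by omega) A B D (by push_cast; linarith)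
  obtain ⟨κ2, i2, -⟩ := three (7 * c) (by omega) A (2 * B) D (by push_cast; linarith)
  obtain ⟨κ7, i7, -⟩ := three (2 * c) (by omega) A (7 * B) D (by push_cast; linarith)
  obtain ⟨κ14, i14, -⟩ := three c hc A (14 * B) D (by push_cast; linarith)
  have e1 : ((14 * c : ℕ) : ℤ) * a + D * M = K := by rw [hKe]; push_cast; ring
  have e2 : ((7 * c : ℕ) : ℤ) * (2 * a) + D * M = K := by rw [hKe]; push_cast; ring
  have e7 : ((2 * c : ℕ) : ℤ) * (7 * a) + D * M = K := by rw [hKe]; push_cast; ring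
  have e14 : ((c : ℕ) : ℤ) * (14 * a) + D * M = K := by rw [hKe]; ring
  have f1 : A * a + B * M = H := hH.symm
  have f2 : A * (2 * a) + (2 * B) * M = 2 * H := by rw [hH]; ring
  have f7 : A * (7 * a) + (7 * B) * M = 7 * H := by rw [hH]; ring
  have f14 : A * (14 * a) + (14 * B) * M = 14 * H := by rw [hH]; ring
  have g1 := i1 a M c1 hM (by rw [e1]; exact hK)
  have g2 := i2 (2 * a) M c2 hM (by rw [e2]; exact hK)
  have g7 := i7 (7 * a) M c7 hM (by rw [e7]; exact hK)
  have g14 := i14 (14 * a) M hcop hM (by rw [e14]; exact hK)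
  rw [e1, f1] at g1
  rw [e2, f2] at g2
  rw [e7, f7] at g7
  rw [e14, f14] at g14
  have z : IsCoprime (0 : ℤ) 1 := isCoprime_zero_left.2 isUnit_one
  have h1 := i1 0 1 z one_ne_zero (by simpa using hD)
  have h2 := i2 0 1 z one_ne_zero (by simpa using hD)
  have h7 := i7 0 1 z one_ne_zero (by simpa using hD)
  have h14 := i14 0 1 z one_ne_zero (by simpa using hD)
  simp only [mul_zero, zero_add, mul_one, psi_zero, one_mul] at h1 h2 h7 h14
  unfold EE
  push_cast at *
  linear_combination (1 / 24 : ℚ) * (g1 - g2 - 7 * g7 + 7 * g14) - (1 / 24 : ℚ) * (h1 - h2 - 7 * h7 + 7 * h14)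

theorem EE_neg_neg {a M : ℤ} (hM : M ≠ 0) : EE (-a) (-M) = EE a M := by
  unfold EE
  rw [show 2 * -a = -(2 * a) by ring, show 7 * -a = -(7 * a) by ring,
    show 14 * -a = -(14 * a) by ring, psi_neg_neg hM, psi_neg_neg hM, psi_neg_neg hM,
    psi_neg_neg hM]
  push_cast
  rw [show -2 * -(a : ℚ) = -(-2 * a) by ring, neg_div_neg_eq]

theorem psi_neg {h k : ℤ} (hk : k ≠ 0) : psi (-h) k = -psi h k := by
  unfold psi
  rw [ded_neg (Int.natAbs_pos.2 hk)]
  ring

theorem EE_neg {a M : ℤ} (hM : M ≠ 0) : EE (-a) M = -EE a M := by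
  unfold EE
  rw [show 2 * -a = -(2 * a) by ring, show 7 * -a = -(7 * a) by ring,
    show 14 * -a = -(14 * a) by ring, psi_neg hM, psi_neg hM, psi_neg hM, psi_neg hM]
  push_cast
  ring

theorem EE_add {a M : ℤ} (hM : M ≠ 0) (m : ℤ) : EE (a + m * M) M = EE a M - 2 * m := by
  have hMq : (M : ℚ) ≠ 0 := by exact_mod_cast hM
  unfold EE
  rw [show 2 * (a + m * M) = 2 * a + (2 * m) * M by ring,
    show 7 * (a + m * M) = 7 * a + (7 * m) * M by ring,
    show 14 * (a + m * M) = 14 * a + (14 * m) * M by ring, psi_add, psi_add, psi_add, psi_add]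
  push_cast
  field_simp
  ring

theorem EE_one (a : ℤ) : EE a 1 = -2 * a := by
  unfold EE
  rw [psi_one, psi_one, psi_one, psi_one]
  push_cast
  ring

end Pool.Agent.Y687
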