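import Pool.Agent.Y687.K2.Half
import Pool.Agent.Y687.K2.Quart2
import Pool.Agent.Y687.Comb4

/-!
The subgroup of quartic residues at one prime and squares at the others.
-/

set_option autoImplicit false
set_option linter.style.haveILetI false

open Finset

open scoped Classical

namespace Pool.Agent.Y687

/-- reduction -/
def rd {M p : ℕ} (h : p ∣ M) : ZMod M →+* ZMod p := ZMod.castHom h (ZMod p)

section

variable {M : ℕ} [NeZero M]

theorem rd_val {p : ℕ} (h : p ∣ M) (x : ZMod M) : ((x.val : ℕ) : ZMod p) = rd h x := by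
  have h1 : rd h ((x.val : ℕ) : ZMod M) = rd h x := by rw [ZMod.natCast_zmod_val]
  rw [← h1, map_natCast]

theorem rd_ne {p : ℕ} (hp : p.Prime) (h : p ∣ M) (u : (ZMod M)ˣ) : rd h (u : ZMod M) ≠ 0 := by
  haveI : Fact p.Prime := ⟨hp⟩
  exact (Units.map (rd h : ZMod M →* ZMod p) u).ne_zero

theorem rd_inv {p : ℕ} (h : p ∣ M) (u : (ZMod M)ˣ) :
    rd h ((u⁻¹ : (ZMod M)ˣ) : ZMod M) * rd h (u : ZMod M) = 1 := by
  rw [← map_mul, Units.inv_mul, map_one]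

theorem chi_one_iff {p : ℕ} (hp : p.Prime) (h : p ∣ M) (u : (ZMod M)ˣ) :
    chi p u = 1 ↔ IsSquare (rd h (u : ZMod M)) := by
  haveI : Fact p.Prime := ⟨hp⟩
  unfold chi
  rw [← jacobiSym.legendreSym.to_jacobiSym, legendreSym.eq_one_iff]
  · push_cast
    rw [rd_val h]
  · push_cast
    rw [rd_val h]
    exact rd_ne hp h u

theorem sq_of_fourth {p : ℕ} [Fact p.Prime] (h4 : p % 4 = 1) {r v : ZMod p}
    (h : r ^ 2 = v ^ 4) : IsSquare r := by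
  have h1 : (r - v ^ 2) * (r + v ^ 2) = 0 := by linear_combination h
  rcases mul_eq_zero.1 h1 with h2 | h2
  · exact ⟨v, by linear_combination h2⟩
  · obtain ⟨i, hi⟩ := (ZMod.exists_sq_eq_neg_one_iff (p := p)).2 (by omega)
    exact ⟨i * v, by linear_combination h2 + v ^ 2 * hi⟩

theorem fourth_iff {p : ℕ} [Fact p.Prime] (h4 : p % 4 = 1) {r : ZMod p} :
    (∃ v, r ^ 2 = v ^ 4) ↔ IsSquare r := by
  constructor
  · rintro ⟨v, hv⟩
    exact sq_of_fourth h4 hv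
  · rintro ⟨v, hv⟩
    exact ⟨v, by rw [hv]; ring⟩

theorem sq_mul_iff {p : ℕ} [Fact p.Prime] {x y : ZMod p} (hx : x ≠ 0) (hy : y ≠ 0)
    (hp2 : p ≠ 2) : IsSquare (x * y) ↔ (IsSquare x ↔ IsSquare y) := by
  have hc : ringChar (ZMod p) ≠ 2 := by
    rw [ZMod.ringChar_zmod_n]; exact hp2
  have key : ∀ z : ZMod p, z ≠ 0 → (quadraticChar (ZMod p) z = 1 ↔ IsSquare z) := fun z hz =>
    quadraticChar_one_iff_isSquare hz
  have hxy : x * y ≠ 0 := mul_ne_zero hx hy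
  rw [← key _ hxy, ← key _ hx, ← key _ hy, map_mul]
  rcases quadraticChar_dichotomy hx with h1 | h1 <;> rcases quadraticChar_dichotomy hy with h2 | h2 <;>
    rw [h1, h2] <;> norm_num

/-- the subgroup -/
def KK (M : ℕ) [NeZero M] {p : ℕ} (h : p ∣ M) : Subgroup (ZMod M)ˣ where
  carrier := {u | (∀ q : ℕ, q.Prime → q ∣ M → chi q u = 1) ∧ ∃ v : ZMod p, rd h (u : ZMod M) = v ^ 4}
  mul_mem' := by
    rintro a b ⟨ha, v, hv⟩ ⟨hb, w, hw⟩
    refine ⟨fun q hq hqM => ?_, v * w, ?_⟩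
    · rw [chi_mul hqM, ha q hq hqM, hb q hq hqM, one_mul]
    · rw [Units.val_mul, map_mul, hv, hw, mul_pow]
  one_mem' := by
    refine ⟨fun q _ hqM => chi_one hqM, 1, ?_⟩
    rw [Units.val_one, map_one, one_pow]
  inv_mem' := by
    rintro a ⟨ha, v, hv⟩
    refine ⟨fun q hq hqM => ?_, rd h ((a⁻¹ : (ZMod M)ˣ) : ZMod M) * v ^ 3, ?_⟩
    · rw [chi_inv hqM, ha q hq hqM]
    · have h1 := rd_inv h a
      rw [hv] at h1
      generalize rd h ((a⁻¹ : (ZMod M)ˣ) : ZMod M) = x at h1 ⊢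
      have e : (x * v ^ 3) ^ 4 = x * (x * v ^ 4) ^ 3 := by ring
      rw [e, h1, one_pow, mul_one]

theorem mem_KK {p : ℕ} {h : p ∣ M} {u : (ZMod M)ˣ} : u ∈ KK M h ↔
    (∀ q : ℕ, q.Prime → q ∣ M → chi q u = 1) ∧ ∃ v : ZMod p, rd h (u : ZMod M) = v ^ 4 := Iff.rfl

theorem mem_KK_iff {p : ℕ} [Fact p.Prime] (h4 : p % 4 = 1) {h : p ∣ M} {u : (ZMod M)ˣ}
    (hu : ∀ q : ℕ, q.Prime → q ∣ M → chi q u = 1) {y : ZMod p}
    (hy : rd h (u : ZMod M) = y ^ 2) : u ∈ KK M h ↔ IsSquare y := by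
  rw [mem_KK, hy, fourth_iff h4]
  exact ⟨fun h => h.2, fun h => ⟨hu, h⟩⟩

theorem neg_one_fourth {p : ℕ} [Fact p.Prime] (hp8 : p % 8 = 1) : ∃ z : ZMod p, z ^ 4 = -1 := by
  obtain ⟨i, h1, h2⟩ := exists_i (p := p) hp8
  have h3 : ((i : ZMod p)) ^ 2 = -1 := by
    rw [← ZMod.intCast_zmod_eq_zero_iff_dvd] at h1
    push_cast at h1
    linear_combination h1
  have hi0 : ((i : ℤ) : ZMod p) ≠ 0 := by
    intro h0
    rw [h0] at h3
    norm_num at h3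
  rw [← jacobiSym.legendreSym.to_jacobiSym, legendreSym.eq_one_iff _ hi0] at h2
  obtain ⟨z, hz⟩ := h2
  exact ⟨z, by rw [← h3, hz]; ring⟩

theorem neg_one_mem_KK {p : ℕ} (hp : p.Prime) (hp8 : p % 8 = 1) (h : p ∣ M)
    (hM : ∀ q : ℕ, q.Prime → q ∣ M → q % 4 = 1) : (-1 : (ZMod M)ˣ) ∈ KK M h := by
  haveI : Fact p.Prime := ⟨hp⟩
  refine mem_KK.2 ⟨fun q hq hqM => chi_neg_one hqM (hM q hq hqM), ?_⟩
  obtain ⟨z, hz⟩ := neg_one_fourth hp8
  refine ⟨z, ?_⟩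
  rw [hz, Units.val_neg, Units.val_one, map_neg, map_one]

/-- the local sign change -/
theorem exists_n (hsq : Squarefree M) {l : ℕ} (hl : l.Prime) (hlM : l ∣ M) (hl2 : l ≠ 2) :
    ∃ n : (ZMod M)ˣ, n * n = 1 ∧ n ≠ 1 ∧ rd hlM (n : ZMod M) = -1 ∧
      (∀ q : ℕ, q.Prime → ∀ h : q ∣ M, q ≠ l → rd h (n : ZMod M) = 1) ∧
      ∀ z : ZMod M, rd hlM z = 0 → (n : ZMod M) * z = z := by
  obtain ⟨M', hM'⟩ := hlM
  have hcop : Nat.Coprime l M' := by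
    rw [hM'] at hsq
    exact Nat.coprime_of_squarefree_mul hsq
  obtain ⟨k, hk1, hk2⟩ := Nat.chineseRemainder hcop (l - 1) 1
  have hl1 := hl.one_lt
  have k1 : (l : ℤ) ∣ (k : ℤ) + 1 := by
    have h1 := (Nat.modEq_iff_dvd.1 hk1.symm)
    rw [Nat.cast_sub hl1.le] at h1
    push_cast at h1
    have e : (k : ℤ) + 1 = ((k : ℤ) - ((l : ℤ) - 1)) + l := by ring
    rw [e]
    exact dvd_add h1 (dvd_refl _)
  have k2 : (M' : ℤ) ∣ (k : ℤ) - 1 := by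
    have h1 := (Nat.modEq_iff_dvd.1 hk2.symm)
    push_cast at h1
    exact h1
  have hcopZ : IsCoprime (l : ℤ) (M' : ℤ) := Nat.isCoprime_iff_coprime.2 hcop
  have hkk : ((k : ℕ) : ZMod M) * ((k : ℕ) : ZMod M) = 1 := by
    have h1 : ((((k : ℤ) + 1) * ((k : ℤ) - 1) : ℤ) : ZMod M) = 0 := by
      rw [ZMod.intCast_zmod_eq_zero_iff_dvd, hM']
      push_cast
      exact mul_dvd_mul k1 k2
    push_cast at h1
    linear_combination h1
  obtain ⟨n, hn⟩ : ∃ n : (ZMod M)ˣ, (n : ZMod M) = ((k : ℕ) : ZMod M) :=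
    ⟨⟨_, _, hkk, hkk⟩, rfl⟩
  have hlM : l ∣ M := ⟨M', hM'⟩
  have r1 : rd hlM (n : ZMod M) = -1 := by
    rw [hn, map_natCast]
    have h1 : (((k : ℤ) + 1 : ℤ) : ZMod l) = 0 := (ZMod.intCast_zmod_eq_zero_iff_dvd _ _).2 k1
    push_cast at h1
    linear_combination h1
  refine ⟨n, ?_, ?_, r1, ?_, ?_⟩
  · apply Units.ext
    rw [Units.val_mul, hn, hkk, Units.val_one]
  · rintro rfl
    rw [Units.val_one, map_one] at r1
    haveI : Fact l.Prime := ⟨hl⟩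
    have h2 : ((2 : ℕ) : ZMod l) = 0 := by
      push_cast
      linear_combination r1
    rw [ZMod.natCast_eq_zero_iff] at h2
    exact hl2 ((Nat.prime_dvd_prime_iff_eq hl Nat.prime_two).1 h2)
  · intro q hq h hql
    rw [hn, map_natCast]
    have hqM' : q ∣ M' := by
      have h1 : q ∣ l * M' := hM' ▸ h
      rcases hq.dvd_mul.1 h1 with h2 | h2
      · exact absurd ((Nat.prime_dvd_prime_iff_eq hq hl).1 h2) hql
      · exact h2
    have h1 : (((k : ℤ) - 1 : ℤ) : ZMod q) = 0 :=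
      (ZMod.intCast_zmod_eq_zero_iff_dvd _ _).2 ((Int.natCast_dvd_natCast.2 hqM').trans k2)
    push_cast at h1
    linear_combination h1
  · intro z hz
    rw [← rd_val hlM, ZMod.natCast_eq_zero_iff] at hz
    have hMz : (M : ℤ) = (l : ℤ) * (M' : ℤ) := by exact_mod_cast hM'
    have h1 : ((((z.val : ℕ) : ℤ) * ((k : ℤ) - 1) : ℤ) : ZMod M) = 0 := by
      rw [ZMod.intCast_zmod_eq_zero_iff_dvd, hMz]
      exact mul_dvd_mul (Int.natCast_dvd_natCast.2 hz) k2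
    push_cast at h1
    rw [ZMod.natCast_zmod_val] at h1
    rw [hn]
    linear_combination h1

theorem n_mem_KK {p : ℕ} (hp : p.Prime) (hp8 : p % 8 = 1) (h : p ∣ M)
    (hM : ∀ q : ℕ, q.Prime → q ∣ M → q % 4 = 1) {l : ℕ} (hl : l.Prime) (hlM : l ∣ M)
    {n : (ZMod M)ˣ} (h1 : rd hlM (n : ZMod M) = -1)
    (h2 : ∀ q : ℕ, q.Prime → ∀ h : q ∣ M, q ≠ l → rd h (n : ZMod M) = 1) : n ∈ KK M h := by
  haveI : Fact p.Prime := ⟨hp⟩
  refine mem_KK.2 ⟨fun q hq hqM => ?_, ?_⟩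
  · haveI : Fact q.Prime := ⟨hq⟩
    rw [chi_one_iff hq hqM]
    rcases eq_or_ne q l with rfl | hql
    · rw [h1]
      exact (ZMod.exists_sq_eq_neg_one_iff (p := q)).2 (by have := hM q hq hqM; omega)
    · rw [h2 q hq hqM hql]
      exact ⟨1, by ring⟩
  · rcases eq_or_ne p l with rfl | hpl
    · obtain ⟨z, hz⟩ := neg_one_fourth hp8
      exact ⟨z, by rw [h1, hz]⟩
    · exact ⟨1, by rw [h2 p hp h hpl]; ring⟩

/-- parity on units -/
def ou (u : (ZMod M)ˣ) : ZMod 2 := oo (u : ZMod M)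

/-- parity modulo a prime -/
def ol {l : ℕ} (hl : l ∣ M) (u : (ZMod M)ˣ) : ZMod 2 := oo (rd hl (u : ZMod M))

theorem ou_odd (hM : M % 2 = 1) (hM1 : 1 < M) : OddF (ou : (ZMod M)ˣ → ZMod 2) := by
  intro u
  unfold ou
  haveI : Nontrivial (ZMod M) := ZMod.nontrivial_iff.2 (by omega)
  rw [Units.val_neg, oo_neg hM u.ne_zero]

theorem ol_odd {l : ℕ} (hl : l.Prime) (hlM : l ∣ M) (hl2 : l % 2 = 1) :
    OddF (ol hlM : (ZMod M)ˣ → ZMod 2) := by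
  intro u
  unfold ol
  haveI : NeZero l := ⟨hl.ne_zero⟩
  rw [Units.val_neg, map_neg]
  exact oo_neg hl2 (rd_ne hl hlM u)

theorem ol_n {l : ℕ} (hl : l ∣ M) {n : (ZMod M)ˣ} (h : rd hl (n : ZMod M) = 1) (x : (ZMod M)ˣ) :
    ol hl (n * x) = ol hl x := by
  unfold ol
  rw [Units.val_mul, map_mul, h, one_mul]

end

end Pool.Agent.Y687
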