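import Pool.Agent.Y687.K2.Grp
import Pool.Agent.Y687.K2.Par

/-!
The sum of the symbol over a half system of the coset is even.
-/

set_option autoImplicit false
set_option linter.style.haveILetI false

open Finset

open scoped Classical

namespace Pool.Agent.Y687

section

variable {M : ℕ} [NeZero M]

/-- standing hypotheses -/
structure HypM (M p1 p2 : ℕ) : Prop where
  sq : Squarefree M
  m4 : M % 4 = 1
  q4 : ∀ q : ℕ, q.Prime → q ∣ M → q % 4 = 1 ∧ jacobiSym 14 q = 1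
  pp1 : p1.Prime
  pp2 : p2.Prime
  ne : p1 ≠ p2
  p18 : p1 % 8 = 1
  p28 : p2 % 8 = 1
  d1 : p1 ∣ M
  d2 : p2 ∣ M

theorem HypM.gt {p1 p2 : ℕ} (H : HypM M p1 p2) : 2 < M := by
  have h1 := Nat.le_of_dvd (Nat.pos_of_ne_zero (NeZero.ne M)) H.d1
  have h2 := H.pp1.two_le
  have h3 := H.p18
  omega

theorem HypM.cop14 {p1 p2 : ℕ} (H : HypM M p1 p2) : Nat.Coprime 14 M := by
  rw [Nat.coprime_comm]
  by_contra hne
  obtain ⟨q, hq, hqM, hq14⟩ := Nat.Prime.not_coprime_iff_dvd.1 hne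
  exact not_dvd14 hq (H.q4 q hq hqM).2 hq14

theorem HypM.exists_l {p1 p2 : ℕ} (H : HypM M p1 p2) (l : ℕ) : ∃ l' : ℕ, l'.Prime ∧ l' ∣ M ∧ l' ≠ l := by
  by_cases h : p1 = l
  · exact ⟨p2, H.pp2, H.d2, fun h2 => H.ne (h.trans h2.symm)⟩
  · exact ⟨p1, H.pp1, H.d1, h⟩

/-- vanishing of sums invariant under a local sign change -/
theorem HypM.free {p1 p2 : ℕ} (H : HypM M p1 p2) (α : (ZMod M)ˣ) {l : ℕ} (hl : l.Prime)
    (hlM : l ∣ M) (F : (ZMod M)ˣ → ZMod 2) (hF : ∀ x, F (-x) = F x)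
    (hFn : ∀ n : (ZMod M)ˣ, n * n = 1 → (∀ z : ZMod M, rd hlM z = 0 → (n : ZMod M) * z = z) →
      ∀ x, F (n * x) = F x) :
    ∑ x ∈ HS (KK M H.d1) ou α, F x = 0 := by
  have hl2 : l ≠ 2 := by
    rintro rfl
    have := (H.q4 2 hl hlM).1
    omega
  obtain ⟨n, n1, n2, n3, n4, n5⟩ := exists_n H.sq hl hlM hl2
  obtain ⟨l', hl', hlM', hne⟩ := H.exists_l l
  have hM4 : ∀ q : ℕ, q.Prime → q ∣ M → q % 4 = 1 := fun q hq hqM => (H.q4 q hq hqM).1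
  have h2 := H.m4
  have h3 := H.gt
  have h4 := hM4 l' hl' hlM'
  refine free_zero (neg_one_mem_KK H.pp1 H.p18 H.d1 hM4) (ou_odd (by omega) (by omega))
    (ol_odd hl' hlM' (by omega)) (n_mem_KK H.pp1 H.p18 H.d1 hM4 hl hlM n3 n4) n2 n1
    (ol_n hlM' (n4 l' hl' hlM' hne)) α F hF (fun x _ => hFn n n1 n5 x)

theorem fourth_of_sq {p : ℕ} {x y : ZMod p} (h : x = y ^ 2) (hy : IsSquare y) : ∃ v, x = v ^ 4 := by
  obtain ⟨v, rfl⟩ := hy
  exact ⟨v, by rw [h]; ring⟩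

/-- the double sum over the units vanishes -/
theorem HypM.dz {p1 p2 : ℕ} (H : HypM M p1 p2) {α τ t7 : (ZMod M)ˣ} (hτ : (τ : ZMod M) = 2)
    (ht7 : (t7 : ZMod M) = 7) (hα2 : chi p2 α = -1)
    (hα1 : ∃ r0 : ZMod p1, 14 * r0 ^ 2 = 1 ∧ ¬ IsSquare (rd H.d1 (α : ZMod M) * r0)) :
    ∑ z ∈ univ.filter (fun z : (ZMod M)ˣ => ou z = 1), ∑ u ∈ HS (KK M H.d1) ou α,
      (ou z + ou (τ * z)) * (ou (u⁻¹ * z) + ou (t7⁻¹ * u⁻¹ * z)) = 0 := by
  haveI : Fact p1.Prime := ⟨H.pp1⟩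
  haveI : Fact p2.Prime := ⟨H.pp2⟩
  have hM4 : ∀ q : ℕ, q.Prime → q ∣ M → q % 4 = 1 := fun q hq hqM => (H.q4 q hq hqM).1
  have h2 := H.m4
  have h3 := H.gt
  have hp12 : p1 ≠ 2 := by have := H.p18; rintro rfl; omega
  have hp14 : p1 % 4 = 1 := by have := H.p18; omega
  have hl2 : p2 ≠ 2 := by have := H.p28; rintro rfl; omega
  obtain ⟨n, n1, n2, n3, n4, n5⟩ := exists_n H.sq H.pp2 H.d2 hl2
  -- characters of 14
  have h14 : ∀ q : ℕ, q.Prime → q ∣ M → chi q (τ * t7) = 1 := by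
    intro q hq hqM
    rw [chi_val hqM _ 14 (by rw [Units.val_mul, hτ, ht7]; push_cast; norm_num)]
    exact (H.q4 q hq hqM).2
  have h14' : ∀ q : ℕ, q.Prime → q ∣ M → chi q (τ * t7⁻¹) = 1 := by
    intro q hq hqM
    rw [chi_mul hqM, chi_inv hqM, ← chi_mul hqM, h14 q hq hqM]
  have hsq1 : ∀ x : (ZMod M)ˣ, ∀ q : ℕ, q.Prime → q ∣ M → chi q (x * x) = 1 := by
    intro x q hq hqM
    rw [chi_mul hqM]
    rcases chi_pm hqM x with h | h <;> rw [h] <;> norm_num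
  -- squares of elements which are squares at `p1`
  have hsq2 : ∀ x : (ZMod M)ˣ, chi p1 x = 1 → x * x ∈ KK M H.d1 := by
    intro x hx
    refine (mem_KK_iff hp14 (hsq1 x) (y := rd H.d1 (x : ZMod M)) ?_).2 ?_
    · rw [Units.val_mul, map_mul]; ring
    · exact (chi_one_iff H.pp1 H.d1 x).1 hx
  have chi2 : ∀ p : ℕ, p.Prime → p % 8 = 1 → p ∣ M → chi p τ = 1 := by
    intro p hp hp8 hpM
    haveI : Fact p.Prime := ⟨hp⟩
    rw [chi_one_iff hp hpM, hτ]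
    have : rd hpM (2 : ZMod M) = 2 := map_ofNat _ 2
    rw [this]
    exact (ZMod.exists_sq_eq_two_iff (by rintro rfl; omega)).2 (Or.inl hp8)
  have chi7 : ∀ p : ℕ, p.Prime → p % 8 = 1 → p ∣ M → chi p t7⁻¹ = 1 := by
    intro p hp hp8 hpM
    have h5 := h14' p hp hpM
    rw [chi_mul hpM, chi2 p hp hp8 hpM, one_mul] at h5
    exact h5
  have chiα2 : ∀ q : ℕ, q.Prime → q ∣ M → chi q (α * α) = 1 := hsq1 α
  refine double_zero (neg_one_mem_KK H.pp1 H.p18 H.d1 hM4) (ou_odd (by omega) (by omega))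
    (ol_odd H.pp1 H.d1 (by omega))
    (n_mem_KK H.pp1 H.p18 H.d1 hM4 H.pp2 H.d2 n3 n4) n2 n1
    (ol_n H.d1 (n4 p1 H.pp1 H.d1 H.ne)) (fun u => if chi p2 u = 1 then 0 else 1) ?_ ?_ ?_ ?_ ?_ ?_
    ?_ ?_ ?_
  · intro x y
    show (if chi p2 (x * y) = 1 then (0 : ZMod 2) else 1) =
      (if chi p2 x = 1 then 0 else 1) + (if chi p2 y = 1 then 0 else 1)
    rw [chi_mul H.d2]
    have hm : ¬ ((-1 : ℤ) = 1) := by norm_num
    rcases chi_pm H.d2 x with h | h <;> rcases chi_pm H.d2 y with h' | h' <;> rw [h, h'] <;>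
      simp [hm]
    decide
  · intro k hk
    show (if chi p2 k = 1 then (0 : ZMod 2) else 1) = 0
    rw [if_pos (hk.1 p2 H.pp2 H.d2)]
  · exact hsq2 τ (chi2 p1 H.pp1 H.p18 H.d1)
  · exact hsq2 _ (chi7 p1 H.pp1 H.p18 H.d1)
  · refine hsq2 _ ?_
    rw [chi_mul H.d1, chiα2 p1 H.pp1 H.d1, h14' p1 H.pp1 H.d1, one_mul]
  · -- `14 / 49` or `α ^ 2` is a fourth power
    obtain ⟨r0, hr0, hα1⟩ := hα1
    have hr00 : r0 ≠ 0 := by
      rintro rfl
      norm_num at hr0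
    have hα0 := rd_ne H.pp1 H.d1 α
    obtain ⟨r7, hr7⟩ : ∃ r7 : ZMod p1, r7 = rd H.d1 ((t7⁻¹ : (ZMod M)ˣ) : ZMod M) := ⟨_, rfl⟩
    have h7 : r7 * 7 = 1 := by
      have h8 := rd_inv H.d1 t7
      rw [ht7] at h8
      have : rd H.d1 (7 : ZMod M) = 7 := map_ofNat _ 7
      rw [this] at h8
      rw [hr7]; exact h8
    have h70 : r7 ≠ 0 := by
      rintro h0
      rw [h0] at h7
      norm_num at h7
    have hsq7 : IsSquare r7 := by
      rw [hr7]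
      exact (chi_one_iff H.pp1 H.d1 _).1 (chi7 p1 H.pp1 H.p18 H.d1)
    have e1 : rd H.d1 ((τ * t7⁻¹ : (ZMod M)ˣ) : ZMod M) = (14 * r0 * r7) ^ 2 := by
      rw [Units.val_mul, map_mul, ← hr7, hτ]
      have : rd H.d1 (2 : ZMod M) = 2 := map_ofNat _ 2
      rw [this]
      linear_combination (-14 * r7 ^ 2) * hr0 - 2 * r7 * h7
    have h140 : (14 : ZMod p1) ≠ 0 := by
      intro h0
      rw [h0, zero_mul] at hr0
      norm_num at hr0
    have hsq14 : IsSquare (14 : ZMod p1) := ⟨14 * r0, by linear_combination (-14 : ZMod p1) * hr0⟩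
    by_cases hr : IsSquare r0
    · left
      refine (mem_KK_iff hp14 h14' e1).2 ?_
      rw [sq_mul_iff (mul_ne_zero h140 hr00) h70 hp12, sq_mul_iff h140 hr00 hp12]
      exact ⟨fun _ => hsq7, fun _ => ⟨fun _ => hr, fun _ => hsq14⟩⟩
    · right
      refine (mem_KK_iff hp14 chiα2 (y := rd H.d1 (α : ZMod M)) ?_).2 ?_
      · rw [Units.val_mul, map_mul]; ring
      · rw [sq_mul_iff hα0 hr00 hp12] at hα1
        by_contra h5
        exact hα1 ⟨fun h => absurd h h5, fun h => absurd h hr⟩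
  · show (if chi p2 α = 1 then (0 : ZMod 2) else 1) = 1
    rw [hα2, if_neg (by norm_num)]
  · show (if chi p2 τ = 1 then (0 : ZMod 2) else 1) = 0
    rw [if_pos (chi2 p2 H.pp2 H.p28 H.d2)]
  · show (if chi p2 t7⁻¹ = 1 then (0 : ZMod 2) else 1) = 0
    rw [if_pos (chi7 p2 H.pp2 H.p28 H.d2)]

end

end Pool.Agent.Y687
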