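import Pool.Agent.Y687.K2.HSE

/-!
The sum of the symbol over a half system of the coset is even, conclusion.
-/

set_option autoImplicit false
set_option linter.style.haveILetI false

open Finset

open scoped Classical

namespace Pool.Agent.Y687

section

variable {M : ℕ} [NeZero M]

/-- the symbol modulo two as an inner product -/
theorem sv_mod_two {s : ℚ → ℤ} {a : ℕ → ℤ} (hs : Symb2 s a) (hM : M % 4 = 1)
    (h14 : Nat.Coprime 14 M) {t7 : (ZMod M)ˣ} (ht7 : (t7 : ZMod M) = 7) (u : (ZMod M)ˣ) :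
    ((sv s u : ℤ) : ZMod 2) = ((s 0 : ℤ) : ZMod 2) + (∑ z ∈ Pos M, oo z +
      ∑ z ∈ Pos M, (oo z + oo (2 * z)) * (oo (((u⁻¹ : (ZMod M)ˣ) : ZMod M) * z) +
        oo (((t7⁻¹ * u⁻¹ : (ZMod M)ˣ) : ZMod M) * z))) := by
  have hM0 : (M : ℤ) ≠ 0 := by exact_mod_cast (NeZero.ne M)
  have hc1 : IsCoprime (14 : ℤ) (M : ℤ) := by
    have := Nat.isCoprime_iff_coprime.2 h14
    exact_mod_cast this
  have hc2 : IsCoprime (((u : ZMod M).val : ℕ) : ℤ) (M : ℤ) :=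
    Nat.isCoprime_iff_coprime.2 (ZMod.val_coe_unit_coprime u)
  obtain ⟨n, hn1, hn2⟩ := good_all hs (M : ℤ).natAbs (((u : ZMod M).val : ℕ) : ℤ) (M : ℤ) rfl hM0
    (IsCoprime.mul_left hc1 hc2)
  have hu : ((((u : ZMod M).val : ℕ) : ℤ) : ZMod M) = (u : ZMod M) := by
    push_cast
    exact ZMod.natCast_zmod_val _
  have hb : ((((u : ZMod M).val : ℕ) : ℤ) : ZMod M) * ((u⁻¹ : (ZMod M)ˣ) : ZMod M) = 1 := by
    rw [hu, Units.mul_inv]
  have hc : 7 * ((((u : ZMod M).val : ℕ) : ℤ) : ZMod M) * ((t7⁻¹ * u⁻¹ : (ZMod M)ˣ) : ZMod M) = 1 := by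
    rw [hu, ← ht7, ← Units.val_mul, ← Units.val_mul, ← mul_inv_rev, mul_comm u t7, mul_inv_cancel,
      Units.val_one]
  rw [← EE_par hM hb hc hn1]
  have h2 : ((sv s u - s 0 - n : ℤ) : ZMod 2) = 0 := by
    rw [ZMod.intCast_zmod_eq_zero_iff_dvd]
    have := hn2.two_dvd
    unfold sv
    push_cast at this ⊢
    exact this
  push_cast at h2
  linear_combination h2

theorem mul_two_ne {p1 p2 : ℕ} (H : HypM M p1 p2) {z : ZMod M} (hz : z ≠ 0) : 2 * z ≠ 0 := by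
  have h2 : IsUnit (2 : ZMod M) := by
    have h3 : ((2 : ℕ) : ZMod M) = 2 := by norm_num
    rw [← h3, ZMod.isUnit_iff_coprime]
    rw [Nat.coprime_two_left]
    have := H.m4
    exact Nat.odd_iff.2 (by omega)
  intro h0
  exact hz (by simpa using (h2.mul_right_eq_zero).1 h0)

/-- the sum of the symbol over a half system is even -/
theorem HypM.even {p1 p2 : ℕ} (H : HypM M p1 p2) {s : ℚ → ℤ} {a : ℕ → ℤ} (hs : Symb2 s a)
    {α : (ZMod M)ˣ} (hα2 : chi p2 α = -1)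
    (hα1 : ∃ r0 : ZMod p1, 14 * r0 ^ 2 = 1 ∧ ¬ IsSquare (rd H.d1 (α : ZMod M) * r0)) :
    (2 : ℤ) ∣ ∑ u ∈ HS (KK M H.d1) ou α, sv s u := by
  have hM4 := H.m4
  have hM2 : M % 2 = 1 := by omega
  have hgt := H.gt
  haveI : Nontrivial (ZMod M) := ZMod.nontrivial_iff.2 (by omega)
  have h14 := H.cop14
  obtain ⟨τ, hτ⟩ : ∃ τ : (ZMod M)ˣ, (τ : ZMod M) = 2 :=
    ⟨ZMod.unitOfCoprime 2 (Nat.Coprime.coprime_dvd_left (by norm_num) h14), by
      rw [ZMod.coe_unitOfCoprime]; norm_num⟩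
  obtain ⟨t7, ht7⟩ : ∃ t7 : (ZMod M)ˣ, (t7 : ZMod M) = 7 :=
    ⟨ZMod.unitOfCoprime 7 (Nat.Coprime.coprime_dvd_left (by norm_num) h14), by
      rw [ZMod.coe_unitOfCoprime]; norm_num⟩
  rw [← Nat.cast_ofNat, ← ZMod.intCast_zmod_eq_zero_iff_dvd, Int.cast_sum]
  rw [sum_congr rfl fun u _ => sv_mod_two hs hM4 h14 ht7 u]
  rw [sum_add_distrib, sum_add_distrib]
  have hneg : ∀ x : (ZMod M)ˣ, (-x)⁻¹ = -x⁻¹ := by
    intro x
    rw [inv_eq_iff_mul_eq_one, neg_mul_neg, mul_inv_cancel]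
  have c1 : ∀ c : ZMod 2, ∑ _u ∈ HS (KK M H.d1) ou α, c = 0 := fun c =>
    H.free α H.pp1 H.d1 (fun _ => c) (fun _ => rfl) (fun _ _ _ _ => rfl)
  rw [c1, c1, zero_add, zero_add, sum_comm]
  have hone : (1 : ZMod 2) + 1 = 0 := by decide
  -- the function of `z`
  obtain ⟨h, hh⟩ : ∃ h : ZMod M → ZMod 2, ∀ z, h z = ∑ u ∈ HS (KK M H.d1) ou α,
      (oo z + oo (2 * z)) * (oo (((u⁻¹ : (ZMod M)ˣ) : ZMod M) * z) +
        oo (((t7⁻¹ * u⁻¹ : (ZMod M)ˣ) : ZMod M) * z)) := ⟨fun z => _, fun z => rfl⟩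
  rw [sum_congr rfl fun z _ => (hh z).symm]
  have uz : ∀ (u : (ZMod M)ˣ) (z : ZMod M), z ≠ 0 → (u : ZMod M) * z ≠ 0 := by
    intro u z hz h0
    exact hz (by simpa using (u.isUnit.mul_right_eq_zero).1 h0)
  -- evenness
  have hev : ∀ z : ZMod M, z ≠ 0 → h (-z) = h z := by
    intro z hz
    rw [hh, hh]
    refine sum_congr rfl fun u _ => ?_
    rw [mul_neg, mul_neg, mul_neg, oo_neg hM2 hz, oo_neg hM2 (mul_two_ne H hz),
      oo_neg hM2 (uz _ z hz), oo_neg hM2 (uz _ z hz)]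
    linear_combination ((oo z + oo (2 * z)) + (oo (((u⁻¹ : (ZMod M)ˣ) : ZMod M) * z) +
        oo (((t7⁻¹ * u⁻¹ : (ZMod M)ˣ) : ZMod M) * z)) + 1 + 1) * hone
  -- vanishing at non units
  have hnu : ∀ z : ZMod M, z ≠ 0 → ¬ IsUnit z → h z = 0 := by
    intro z hz hzu
    obtain ⟨l, hl, hlz, hlM⟩ : ∃ l : ℕ, l.Prime ∧ l ∣ z.val ∧ l ∣ M := by
      refine Nat.Prime.not_coprime_iff_dvd.1 fun hc => hzu ?_
      have := (ZMod.isUnit_iff_coprime z.val M).2 hc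
      rwa [ZMod.natCast_zmod_val] at this
    have hz0 : rd hlM z = 0 := by
      rw [← rd_val hlM, ZMod.natCast_eq_zero_iff]
      exact hlz
    rw [hh, ← mul_sum]
    rw [H.free α hl hlM (fun u => oo (((u⁻¹ : (ZMod M)ˣ) : ZMod M) * z) +
        oo (((t7⁻¹ * u⁻¹ : (ZMod M)ˣ) : ZMod M) * z)) ?_ ?_, mul_zero]
    · intro x
      show oo ((((-x)⁻¹ : (ZMod M)ˣ) : ZMod M) * z) + oo (((t7⁻¹ * (-x)⁻¹ : (ZMod M)ˣ) : ZMod M) * z) =
        oo (((x⁻¹ : (ZMod M)ˣ) : ZMod M) * z) + oo (((t7⁻¹ * x⁻¹ : (ZMod M)ˣ) : ZMod M) * z)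
      rw [hneg, mul_neg, Units.val_neg, Units.val_neg, neg_mul, neg_mul, oo_neg hM2 (uz _ z hz),
        oo_neg hM2 (uz _ z hz)]
      linear_combination hone
    · intro n hn hnz x
      have hni : n⁻¹ = n := inv_eq_of_mul_eq_one_left hn
      have e1 : ((((n * x)⁻¹ : (ZMod M)ˣ)) : ZMod M) * z = ((x⁻¹ : (ZMod M)ˣ) : ZMod M) * z := by
        rw [mul_inv_rev, hni, Units.val_mul, mul_assoc, hnz z hz0]
      show oo ((((n * x)⁻¹ : (ZMod M)ˣ) : ZMod M) * z) +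
        oo (((t7⁻¹ * (n * x)⁻¹ : (ZMod M)ˣ) : ZMod M) * z) =
        oo (((x⁻¹ : (ZMod M)ˣ) : ZMod M) * z) + oo (((t7⁻¹ * x⁻¹ : (ZMod M)ˣ) : ZMod M) * z)
      rw [Units.val_mul, Units.val_mul t7⁻¹ x⁻¹, mul_assoc, mul_assoc, e1]
  -- reduction to the units
  have s1 : ∑ z ∈ Pos M, h z = ∑ z ∈ (Pos M).filter (fun z => IsUnit z), h z := by
    symm
    refine sum_subset (filter_subset _ _) ?_
    intro z hz hz2
    refine hnu z (mem_Pos.1 hz).1 fun hu => hz2 (mem_filter.2 ⟨hz, hu⟩)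
  have s2 : ∑ z ∈ (Pos M).filter (fun z => IsUnit z), h z =
      ∑ z ∈ univ.filter (fun z : ZMod M => IsUnit z ∧ oo z = 1), h z := by
    have u0 : ∀ z : ZMod M, IsUnit z → z ≠ 0 := fun z hz => hz.ne_zero
    refine half_sum _ _ _ ?_ ?_ ?_ ?_
    · intro z hz hz2
      rw [mem_filter, mem_Pos] at hz
      have hz0 := hz.1.1
      refine ⟨mem_filter.2 ⟨mem_univ _, hz.2.neg, ?_⟩, hev z hz0⟩
      rw [oo_neg hM2 hz0]
      have h3 : ¬ oo z = 1 := fun h => hz2 (mem_filter.2 ⟨mem_univ _, hz.2, h⟩)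
      have h4 : ∀ y : ZMod 2, ¬ y = 1 → y + 1 = 1 := by decide
      exact h4 _ h3
    · intro z hz hz2
      rw [mem_filter] at hz
      have hz0 := u0 z hz.2.1
      refine ⟨mem_filter.2 ⟨mem_Pos.2 ⟨neg_ne_zero.2 hz0, ?_⟩, hz.2.1.neg⟩, hev z hz0⟩
      have h3 : ¬ 2 * z.val ≤ M := fun h => hz2 (mem_filter.2 ⟨mem_Pos.2 ⟨hz0, h⟩, hz.2.1⟩)
      rw [val_neg' hz0]
      omega
    · intro z hz hz2
      rw [mem_filter, mem_Pos] at hz hz2
      have h3 := hz2.1.2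
      rw [val_neg' hz.1.1] at h3
      have h4 := hz.1.2
      have := ZMod.val_lt z
      omega
    · intro z hz hz2
      rw [mem_filter] at hz hz2
      have hz0 := u0 z hz.2.1
      have h3 := hz2.2.2
      rw [oo_neg hM2 hz0, hz.2.2] at h3
      exact absurd h3 (by decide)
  have s3 : ∑ z ∈ univ.filter (fun z : ZMod M => IsUnit z ∧ oo z = 1), h z =
      ∑ z ∈ univ.filter (fun z : (ZMod M)ˣ => ou z = 1), h (z : ZMod M) := by
    symm
    refine sum_nbij (fun z => (z : ZMod M)) ?_ ?_ ?_ ?_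
    · intro z hz
      rw [mem_filter] at hz
      exact mem_filter.2 ⟨mem_univ _, z.isUnit, hz.2⟩
    · intro x _ y _ hxy
      exact Units.ext hxy
    · intro z hz
      have hz' := (mem_filter.1 (Finset.mem_coe.1 hz)).2
      obtain ⟨u, hu⟩ := hz'.1
      refine ⟨u, Finset.mem_coe.2 (mem_filter.2 ⟨mem_univ _, ?_⟩), hu⟩
      show oo (u : ZMod M) = 1
      rw [hu]; exact hz'.2
    · intro z _
      rfl
  rw [s1, s2, s3]
  rw [← H.dz hτ ht7 hα2 hα1]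
  refine sum_congr rfl fun z _ => ?_
  rw [hh]
  refine sum_congr rfl fun u _ => ?_
  unfold ou
  simp only [Units.val_mul, hτ]

end

end Pool.Agent.Y687
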