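import Pool.Agent.Y687.K2.Eis

/-!
The parity of the Dedekind symbol as an inner product of sign functions.
-/

set_option autoImplicit false
set_option linter.style.haveILetI false

open Finset

namespace Pool.Agent.Y687

/-- sums of even functions over half systems -/
theorem half_sum {X : Type*} [DecidableEq X] [InvolutiveNeg X] {A : Type*} [AddCommMonoid A]
    (P1 P2 : Finset X) (F : X → A)
    (h1 : ∀ x ∈ P1, x ∉ P2 → -x ∈ P2 ∧ F (-x) = F x)
    (h2 : ∀ x ∈ P2, x ∉ P1 → -x ∈ P1 ∧ F (-x) = F x)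
    (h3 : ∀ x ∈ P1, -x ∉ P1) (h4 : ∀ x ∈ P2, -x ∉ P2) :
    ∑ x ∈ P1, F x = ∑ x ∈ P2, F x := by
  refine sum_nbij' (fun x => if x ∈ P2 then x else -x) (fun x => if x ∈ P1 then x else -x)
    ?_ ?_ ?_ ?_ ?_
  · intro x hx
    show (if x ∈ P2 then x else -x) ∈ P2
    split_ifs with h
    · exact h
    · exact (h1 x hx h).1
  · intro x hx
    show (if x ∈ P1 then x else -x) ∈ P1
    split_ifs with h
    · exact h
    · exact (h2 x hx h).1
  · intro x hx
    show (if (if x ∈ P2 then x else -x) ∈ P1 then (if x ∈ P2 then x else -x)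
      else -(if x ∈ P2 then x else -x)) = x
    by_cases h : x ∈ P2
    · rw [if_pos h, if_pos hx]
    · rw [if_neg h, if_neg (h3 x hx), neg_neg]
  · intro x hx
    show (if (if x ∈ P1 then x else -x) ∈ P2 then (if x ∈ P1 then x else -x)
      else -(if x ∈ P1 then x else -x)) = x
    by_cases h : x ∈ P1
    · rw [if_pos h, if_pos hx]
    · rw [if_neg h, if_neg (h4 x hx), neg_neg]
  · intro x hx
    show F x = F (if x ∈ P2 then x else -x)
    split_ifs with h
    · rfl
    · exact (h1 x hx h).2.symm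

section

variable {M : ℕ} [NeZero M]

/-- sawtooth function on residues -/
def sz (x : ZMod M) : ℚ := saw M (x.val : ℤ)

theorem saw_cast (n : ℤ) : saw M n = sz ((n : ℤ) : ZMod M) := by
  unfold sz
  apply saw_congr
  have h : ((n : ℤ) : ZMod M) = ((((n : ZMod M)).val : ℤ) : ZMod M) := by
    push_cast
    rw [ZMod.natCast_zmod_val]
  exact (Int.modEq_iff_dvd.1 ((ZMod.intCast_eq_intCast_iff _ _ _).1 h.symm))

theorem sum_range_zmod {A : Type*} [AddCommMonoid A] (g : ℕ → A) :
    ∑ i ∈ range M, g i = ∑ x : ZMod M, g x.val := by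
  symm
  refine sum_nbij (fun x => x.val) ?_ ?_ ?_ (fun _ _ => rfl)
  · intro x _
    exact mem_range.2 (ZMod.val_lt x)
  · intro x _ y _ h
    exact ZMod.val_injective M h
  · intro i hi
    have hi' := mem_range.1 (Finset.mem_coe.1 hi)
    exact ⟨(i : ZMod M), Finset.mem_coe.2 (mem_univ _), by
      show ((i : ZMod M)).val = i
      rw [ZMod.val_natCast, Nat.mod_eq_of_lt hi']⟩

theorem ded_zmod (h : ℤ) : ded h M = ∑ x : ZMod M, sz x * sz ((h : ZMod M) * x) := by
  unfold ded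
  rw [sum_range_zmod (fun i => saw M (i : ℤ) * saw M (h * i))]
  refine sum_congr rfl fun x _ => ?_
  rw [saw_cast (h * (x.val : ℤ))]
  have : ((h * (x.val : ℤ) : ℤ) : ZMod M) = (h : ZMod M) * x := by
    push_cast
    rw [ZMod.natCast_zmod_val]
  rw [this]
  rfl

theorem sz_ne {x : ZMod M} (hx : x ≠ 0) : sz x = (x.val : ℚ) / M - 1 / 2 := by
  unfold sz
  have h1 : 0 < x.val := Nat.pos_of_ne_zero ((ZMod.val_ne_zero x).2 hx)
  rw [saw_nat h1 (ZMod.val_lt x)]

theorem sz_zero : sz (0 : ZMod M) = 0 := by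
  unfold sz saw
  simp

theorem Mpos : 0 < M := Nat.pos_of_ne_zero (NeZero.ne M)

/-- the duplication of the sawtooth function -/
theorem sz_two (hM : M % 2 = 1) (y : ZMod M) : sz (2 * y) - sz y = (y.valMinAbs : ℚ) / M := by
  have hMq : (M : ℚ) ≠ 0 := by exact_mod_cast (NeZero.ne M)
  rcases eq_or_ne y 0 with rfl | hy
  · rw [mul_zero, sz_zero, ZMod.valMinAbs_zero]
    simp
  have hu : (2 : ZMod M) * y ≠ 0 := by
    intro h0
    have h1 : ((2 * y.val : ℕ) : ZMod M) = 0 := by
      push_cast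
      rw [ZMod.natCast_zmod_val]
      exact h0
    rw [ZMod.natCast_eq_zero_iff] at h1
    have h2 : Nat.Coprime M 2 := by
      rw [Nat.coprime_two_right]
      exact Nat.odd_iff.2 hM
    have h3 := h2.dvd_of_dvd_mul_left h1
    have h4 : 0 < y.val := Nat.pos_of_ne_zero ((ZMod.val_ne_zero y).2 hy)
    exact absurd (Nat.le_of_dvd h4 h3) (by have := ZMod.val_lt y; omega)
  rw [sz_ne hu, sz_ne hy, ZMod.valMinAbs_def_pos]
  have h2 : (2 * y).val = (2 * y.val) % M := by
    have : (2 : ZMod M) * y = ((2 * y.val : ℕ) : ZMod M) := by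
      push_cast
      rw [ZMod.natCast_zmod_val]
    rw [this, ZMod.val_natCast]
  have hlt := ZMod.val_lt y
  split_ifs with h
  · have h3 : (2 * y).val = 2 * y.val := by
      rw [h2]; exact Nat.mod_eq_of_lt (by omega)
    rw [h3]
    push_cast
    field_simp
    ring
  · have h3 : (2 * y).val = 2 * y.val - M := by
      rw [h2, Nat.mod_eq_sub_mod (by omega)]
      exact Nat.mod_eq_of_lt (by omega)
    rw [h3, Nat.cast_sub (by omega)]
    push_cast
    field_simp
    ring

/-- the sign of a residue -/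
def eps (x : ZMod M) : ℤ := if x.val % 2 = 1 then 1 else -1

theorem val_neg' {x : ZMod M} (hx : x ≠ 0) : (-x).val = M - x.val := by
  rw [ZMod.neg_val, if_neg hx]

theorem eps_neg (hM : M % 2 = 1) {x : ZMod M} (hx : x ≠ 0) : eps (-x) = -eps x := by
  unfold eps
  rw [val_neg' hx]
  have := ZMod.val_lt x
  split_ifs <;> omega

theorem vma_neg (hM : M % 2 = 1) (x : ZMod M) : (-x).valMinAbs = -x.valMinAbs :=
  ZMod.valMinAbs_neg_of_ne_half (by omega)

/-- the integer as a sum over residues -/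
theorem EE_sum (hM : M % 2 = 1) {a n : ℤ} (hn : EE a M = n) :
    4 * (M : ℤ) ^ 2 * n = -8 * a * M - ∑ x : ZMod M, (2 * (x.val : ℤ) - M) *
      (((a : ZMod M) * x).valMinAbs - 7 * (7 * (a : ZMod M) * x).valMinAbs) := by
  have hMq : (M : ℚ) ≠ 0 := by exact_mod_cast (NeZero.ne M)
  have hpsi : ∀ h : ℤ, psi h M = 12 * ∑ x : ZMod M, sz x * sz ((h : ZMod M) * x) := by
    intro h
    unfold psi
    have e1 : (M : ℤ).sign = 1 := Int.sign_eq_one_of_pos (by exact_mod_cast Mpos)
    rw [e1, Int.natAbs_natCast, ded_zmod]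
    push_cast
    ring
  have key : -psi a M + psi (2 * a) M + 7 * psi (7 * a) M - 7 * psi (14 * a) M =
      12 * ∑ x : ZMod M, sz x * ((((a : ZMod M) * x).valMinAbs : ℚ) / M
        - 7 * ((7 * (a : ZMod M) * x).valMinAbs : ℚ) / M) := by
    have hs : ∀ x : ZMod M, sz x * ((((a : ZMod M) * x).valMinAbs : ℚ) / M
        - 7 * ((7 * (a : ZMod M) * x).valMinAbs : ℚ) / M) =
        -(sz x * sz (((a : ℤ) : ZMod M) * x)) + sz x * sz (((2 * a : ℤ) : ZMod M) * x)
        + 7 * (sz x * sz (((7 * a : ℤ) : ZMod M) * x)) - 7 * (sz x * sz (((14 * a : ℤ) : ZMod M) * x)) := by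
      intro x
      rw [mul_div_assoc, ← sz_two hM, ← sz_two hM]
      push_cast
      rw [show (2 : ZMod M) * ((a : ZMod M) * x) = 2 * (a : ZMod M) * x by ring,
        show (2 : ZMod M) * (7 * (a : ZMod M) * x) = 14 * (a : ZMod M) * x by ring]
      ring
    rw [sum_congr rfl fun x _ => hs x, hpsi, hpsi, hpsi, hpsi]
    simp only [sum_sub_distrib, sum_add_distrib, sum_neg_distrib, ← mul_sum]
    ring
  unfold EE at hn
  rw [key] at hn
  have h2 : ∑ x : ZMod M, sz x * ((((a : ZMod M) * x).valMinAbs : ℚ) / M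
        - 7 * ((7 * (a : ZMod M) * x).valMinAbs : ℚ) / M) =
      (1 / (2 * (M : ℚ) ^ 2)) * ((∑ x : ZMod M, (2 * (x.val : ℤ) - M) *
      (((a : ZMod M) * x).valMinAbs - 7 * (7 * (a : ZMod M) * x).valMinAbs) : ℤ) : ℚ) := by
    push_cast
    rw [mul_sum]
    refine sum_congr rfl fun x _ => ?_
    rcases eq_or_ne x 0 with rfl | hx
    · simp [sz_zero]
    · rw [sz_ne hx]
      field_simp
  rw [h2] at hn
  have h3 : ((4 * (M : ℤ) ^ 2 * n : ℤ) : ℚ) = ((-8 * a * M - ∑ x : ZMod M, (2 * (x.val : ℤ) - M) *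
      (((a : ZMod M) * x).valMinAbs - 7 * (7 * (a : ZMod M) * x).valMinAbs) : ℤ) : ℚ) := by
    rw [Int.cast_sub]
    generalize (∑ x : ZMod M, (2 * (x.val : ℤ) - M) *
      (((a : ZMod M) * x).valMinAbs - 7 * (7 * (a : ZMod M) * x).valMinAbs) : ℤ) = S at hn ⊢
    push_cast at hn ⊢
    rw [← hn]
    field_simp
    ring
  exact_mod_cast h3

end

end Pool.Agent.Y687
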