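import Pool.Agent.Y687.K2.Alg
import Pool.Agent.Y687.K2.Quart

/-!
Sums over half systems of cosets.
-/

set_option autoImplicit false
set_option linter.style.haveILetI false

open Finset

open scoped Classical

namespace Pool.Agent.Y687

section

variable {G : Type*} [CommGroup G] [Fintype G] [HasDistribNeg G]

/-- the half system cut out by an odd function in a coset -/
noncomputable def HS (K : Subgroup G) (o : G → ZMod 2) (d : G) : Finset G :=
  univ.filter fun x => d⁻¹ * x ∈ K ∧ o x = 1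

theorem mem_HS {K : Subgroup G} {o : G → ZMod 2} {d x : G} :
    x ∈ HS K o d ↔ d⁻¹ * x ∈ K ∧ o x = 1 := by
  simp [HS]

/-- odd functions -/
def OddF (o : G → ZMod 2) : Prop := ∀ x, o (-x) = o x + 1

theorem neg_mem_K {K : Subgroup G} (hK : (-1 : G) ∈ K) {x : G} (hx : x ∈ K) : -x ∈ K := by
  have : -x = -1 * x := by rw [neg_one_mul]
  rw [this]
  exact K.mul_mem hK hx

theorem hs_sum {K : Subgroup G} (hK : (-1 : G) ∈ K) {o o' : G → ZMod 2} (ho : OddF o)
    (ho' : OddF o') (d : G) (F : G → ZMod 2) (hF : ∀ x, F (-x) = F x) :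
    ∑ x ∈ HS K o d, F x = ∑ x ∈ HS K o' d, F x := by
  have key : ∀ o1 o2 : G → ZMod 2, OddF o1 → OddF o2 → ∀ x ∈ HS K o1 d, x ∉ HS K o2 d →
      -x ∈ HS K o2 d ∧ F (-x) = F x := by
    intro o1 o2 _ h2 x hx hx2
    rw [mem_HS] at hx hx2
    refine ⟨mem_HS.2 ⟨?_, ?_⟩, hF x⟩
    · rw [mul_neg]
      exact neg_mem_K hK hx.1
    · rw [h2 x]
      have h3 : ¬ o2 x = 1 := fun h => hx2 ⟨hx.1, h⟩
      have h4 : ∀ z : ZMod 2, ¬ z = 1 → z + 1 = 1 := by decide
      exact h4 _ h3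
  have key2 : ∀ o1 : G → ZMod 2, OddF o1 → ∀ x ∈ HS K o1 d, -x ∉ HS K o1 d := by
    intro o1 h1 x hx hx2
    rw [mem_HS] at hx hx2
    rw [h1 x, hx.2] at hx2
    have : (1 : ZMod 2) + 1 ≠ 1 := by decide
    exact this hx2.2
  exact half_sum _ _ F (key o o' ho ho') (key o' o ho' ho) (key2 o ho) (key2 o' ho')

theorem free_zero {K : Subgroup G} (hK : (-1 : G) ∈ K) {o o' : G → ZMod 2} (ho : OddF o)
    (ho' : OddF o') {n : G} (hn : n ∈ K) (hn1 : n ≠ 1) (hn2 : n * n = 1)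
    (hno : ∀ x, o' (n * x) = o' x) (d : G) (F : G → ZMod 2) (hF : ∀ x, F (-x) = F x)
    (hFn : ∀ x, d⁻¹ * x ∈ K → F (n * x) = F x) : ∑ x ∈ HS K o d, F x = 0 := by
  rw [hs_sum hK ho ho' d F hF]
  refine sum_involution (fun x _ => n * x) ?_ ?_ ?_ ?_
  · intro x hx
    rw [mem_HS] at hx
    show F x + F (n * x) = 0
    rw [hFn x hx.1]
    exact CharTwo.add_self_eq_zero _
  · intro x _ _ h
    apply hn1
    have : n * x = 1 * x := by rw [one_mul]; exact h
    exact mul_right_cancel this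
  · intro x hx
    rw [mem_HS] at hx ⊢
    refine ⟨?_, by rw [hno]; exact hx.2⟩
    rw [mul_left_comm]
    exact K.mul_mem hn hx.1
  · intro x _
    show n * (n * x) = x
    rw [← mul_assoc, hn2, one_mul]

/-- the relative transfer of `d` -/
noncomputable def phi (K : Subgroup G) (o o' : G → ZMod 2) (d : G) : ZMod 2 :=
  ∑ k ∈ HS K o' 1, (o k + o (d * k))

theorem phi_mul {K : Subgroup G} (hK : (-1 : G) ∈ K) {o o' : G → ZMod 2} (ho : OddF o)
    (ho' : OddF o') {n : G} (hn : n ∈ K) (hn1 : n ≠ 1) (hn2 : n * n = 1)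
    (hno : ∀ x, o' (n * x) = o' x) (d : G) {h : G} (hh : h ∈ K) :
    phi K o o' (d * h) = phi K o o' d := by
  have e1 : ∑ k ∈ HS K o' 1, (o (d * (h * k)) + o' (h * k)) =
      ∑ k ∈ HS K o' 1, (o (d * k) + o' k) := by
    have e2 : ∑ k ∈ HS K o' 1, (o (d * (h * k)) + o' (h * k)) =
        ∑ y ∈ HS K (fun y => o' (h⁻¹ * y)) 1, (o (d * y) + o' y) := by
      refine sum_nbij' (fun k => h * k) (fun y => h⁻¹ * y) ?_ ?_ ?_ ?_ ?_
      · intro k hk
        rw [mem_HS, inv_one, one_mul] at hk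
        refine mem_HS.2 ⟨?_, ?_⟩
        · rw [inv_one, one_mul]; exact K.mul_mem hh hk.1
        · show o' (h⁻¹ * (h * k)) = 1
          rw [inv_mul_cancel_left]; exact hk.2
      · intro y hy
        rw [mem_HS, inv_one, one_mul] at hy
        refine mem_HS.2 ⟨?_, hy.2⟩
        rw [inv_one, one_mul]; exact K.mul_mem (K.inv_mem hh) hy.1
      · intro k _
        exact inv_mul_cancel_left h k
      · intro y _
        exact mul_inv_cancel_left h y
      · intro k _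
        rfl
    rw [e2]
    refine hs_sum hK ?_ ho' 1 _ ?_
    · intro x
      show o' (h⁻¹ * -x) = o' (h⁻¹ * x) + 1
      rw [mul_neg, ho']
    · intro x
      rw [mul_neg, ho, ho']
      have : (1 : ZMod 2) + 1 = 0 := by decide
      linear_combination this
  have e3 : ∑ k ∈ HS K o' 1, (o' k + o' (h * k)) = 0 := by
    refine free_zero hK ho' ho' hn hn1 hn2 hno 1 _ ?_ ?_
    · intro x
      rw [mul_neg, ho', ho']
      have : (1 : ZMod 2) + 1 = 0 := by decide
      linear_combination this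
    · intro x _
      rw [hno, mul_left_comm, hno]
  unfold phi
  have e4 : ∑ k ∈ HS K o' 1, (o k + o (d * h * k)) =
      ∑ k ∈ HS K o' 1, (o k + o (d * k)) + (∑ k ∈ HS K o' 1, (o (d * (h * k)) + o' (h * k)) +
        ∑ k ∈ HS K o' 1, (o (d * k) + o' k)) + ∑ k ∈ HS K o' 1, (o' k + o' (h * k)) := by
    simp only [← sum_add_distrib]
    refine sum_congr rfl fun k _ => ?_
    rw [mul_assoc]
    have h2 : (2 : ZMod 2) = 0 := by decide
    linear_combination (-(o (d * k)) - o' k - o' (h * k)) * h2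
  rw [e4, e1, e3, add_zero, CharTwo.add_self_eq_zero, add_zero]

theorem coset_sum {K : Subgroup G} (hK : (-1 : G) ∈ K) {o o' : G → ZMod 2} (ho : OddF o)
    (ho' : OddF o') (d t : G) :
    ∑ x ∈ HS K o' d, (o x + o (t * x)) = phi K o o' d + phi K o o' (t * d) := by
  have e1 : ∑ x ∈ HS K o' d, (o x + o (t * x)) =
      ∑ k ∈ HS K (fun k => o' (d * k)) 1, (o (d * k) + o (t * d * k)) := by
    refine sum_nbij' (fun x => d⁻¹ * x) (fun k => d * k) ?_ ?_ ?_ ?_ ?_
    · intro x hx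
      rw [mem_HS] at hx
      refine mem_HS.2 ⟨by rw [inv_one, one_mul]; exact hx.1, ?_⟩
      show o' (d * (d⁻¹ * x)) = 1
      rw [mul_inv_cancel_left]; exact hx.2
    · intro k hk
      rw [mem_HS, inv_one, one_mul] at hk
      refine mem_HS.2 ⟨?_, hk.2⟩
      rw [inv_mul_cancel_left]; exact hk.1
    · intro x _
      exact mul_inv_cancel_left d x
    · intro k _
      exact inv_mul_cancel_left d k
    · intro x _
      show o x + o (t * x) = o (d * (d⁻¹ * x)) + o (t * d * (d⁻¹ * x))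
      rw [mul_assoc t d, mul_inv_cancel_left]
  have hone : (1 : ZMod 2) + 1 = 0 := by decide
  rw [e1, hs_sum hK (o := fun k => o' (d * k)) (o' := o') ?_ ho' 1 _ ?_]
  · unfold phi
    rw [← sum_add_distrib]
    refine sum_congr rfl fun k _ => ?_
    have h2 : (2 : ZMod 2) = 0 := by decide
    linear_combination (-(o k)) * h2
  · intro x
    show o' (d * -x) = o' (d * x) + 1
    rw [mul_neg, ho']
  · intro x
    rw [mul_neg, mul_neg, ho, ho]
    linear_combination hone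

theorem inner_sum {K : Subgroup G} (hK : (-1 : G) ∈ K) {o o' : G → ZMod 2} (ho : OddF o)
    (ho' : OddF o') (α υ z : G) :
    ∑ u ∈ HS K o' α, (o (u⁻¹ * z) + o (υ * u⁻¹ * z)) =
      phi K o o' (α⁻¹ * z) + phi K o o' (υ * α⁻¹ * z) := by
  rw [mul_assoc υ α⁻¹ z, ← coset_sum hK ho ho']
  have hinvneg : ∀ x : G, (-x)⁻¹ = -x⁻¹ := by
    intro x
    rw [inv_eq_iff_mul_eq_one, neg_mul_neg, mul_inv_cancel]
  have e1 : ∑ u ∈ HS K o' α, (o (u⁻¹ * z) + o (υ * u⁻¹ * z)) =
      ∑ x ∈ HS K (fun x => o' (x⁻¹ * z)) (α⁻¹ * z), (o x + o (υ * x)) := by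
    refine sum_nbij' (fun u => u⁻¹ * z) (fun x => x⁻¹ * z) ?_ ?_ ?_ ?_ ?_
    · intro u hu
      rw [mem_HS] at hu
      refine mem_HS.2 ⟨?_, ?_⟩
      · have : (α⁻¹ * z)⁻¹ * (u⁻¹ * z) = (α⁻¹ * u)⁻¹ := by
          simp only [mul_inv_rev, inv_inv]
          calc z⁻¹ * α * (u⁻¹ * z) = (u⁻¹ * α) * (z⁻¹ * z) := by
                simp only [mul_comm, mul_left_comm, mul_assoc]
            _ = u⁻¹ * α := by rw [inv_mul_cancel, mul_one]
        rw [this]
        exact K.inv_mem hu.1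
      · show o' ((u⁻¹ * z)⁻¹ * z) = 1
        rw [mul_inv_rev, inv_inv, mul_comm z⁻¹ u, inv_mul_cancel_right]
        exact hu.2
    · intro x hx
      rw [mem_HS] at hx
      refine mem_HS.2 ⟨?_, hx.2⟩
      have : α⁻¹ * (x⁻¹ * z) = ((α⁻¹ * z)⁻¹ * x)⁻¹ := by
        simp only [mul_inv_rev, inv_inv]
        simp only [mul_comm, mul_left_comm, mul_assoc]
      rw [this]
      exact K.inv_mem hx.1
    · intro u _
      show (u⁻¹ * z)⁻¹ * z = u
      rw [mul_inv_rev, inv_inv, mul_comm z⁻¹ u, inv_mul_cancel_right]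
    · intro u _
      show (u⁻¹ * z)⁻¹ * z = u
      rw [mul_inv_rev, inv_inv, mul_comm z⁻¹ u, inv_mul_cancel_right]
    · intro u _
      show o (u⁻¹ * z) + o (υ * u⁻¹ * z) = o (u⁻¹ * z) + o (υ * (u⁻¹ * z))
      rw [mul_assoc]
  have hone : (1 : ZMod 2) + 1 = 0 := by decide
  rw [e1]
  refine hs_sum hK ?_ ho' _ _ ?_
  · intro x
    show o' ((-x)⁻¹ * z) = o' (x⁻¹ * z) + 1
    rw [hinvneg, neg_mul, ho']
  · intro x
    rw [mul_neg, ho, ho]
    linear_combination hone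

/-- the double sum vanishes -/
theorem double_zero {K : Subgroup G} [Fintype (G ⧸ K)] (hK : (-1 : G) ∈ K) {o o' : G → ZMod 2}
    (ho : OddF o) (ho' : OddF o') {n : G} (hn : n ∈ K) (hn1 : n ≠ 1) (hn2 : n * n = 1)
    (hno : ∀ x, o' (n * x) = o' x) (ψ : G → ZMod 2) (hψ : ∀ x y, ψ (x * y) = ψ x + ψ y)
    (hψK : ∀ k ∈ K, ψ k = 0) {α τ υ : G} (hτ : τ * τ ∈ K) (hυ : υ * υ ∈ K)
    (hw2 : (α * α * (τ * υ)) * (α * α * (τ * υ)) ∈ K) (hτυ : τ * υ ∈ K ∨ α * α ∈ K)
    (pα : ψ α = 1) (pτ : ψ τ = 0) (pυ : ψ υ = 0) :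
    ∑ z ∈ univ.filter (fun z => o z = 1), ∑ u ∈ HS K o α,
      (o z + o (τ * z)) * (o (u⁻¹ * z) + o (υ * u⁻¹ * z)) = 0 := by
  have hone : (1 : ZMod 2) + 1 = 0 := by decide
  have hinvneg : ∀ x : G, (-x)⁻¹ = -x⁻¹ := by
    intro x
    rw [inv_eq_iff_mul_eq_one, neg_mul_neg, mul_inv_cancel]
  have hphi := fun (d : G) {h : G} (hh : h ∈ K) => phi_mul hK ho ho' hn hn1 hn2 hno d hh
  -- the inner sum
  have s1 : ∑ z ∈ univ.filter (fun z => o z = 1), ∑ u ∈ HS K o α,
      (o z + o (τ * z)) * (o (u⁻¹ * z) + o (υ * u⁻¹ * z)) =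
      ∑ z ∈ univ.filter (fun z => o z = 1), (o z + o (τ * z)) *
        (phi K o o' (α⁻¹ * z) + phi K o o' (υ * α⁻¹ * z)) := by
    refine sum_congr rfl fun z _ => ?_
    rw [← inner_sum hK ho ho', ← mul_sum]
    congr 1
    refine hs_sum hK ho ho' _ _ ?_
    intro x
    rw [hinvneg, neg_mul, mul_neg, neg_mul, ho, ho]
    linear_combination hone
  -- change of the half system
  have s2 : ∑ z ∈ univ.filter (fun z => o z = 1), (o z + o (τ * z)) *
        (phi K o o' (α⁻¹ * z) + phi K o o' (υ * α⁻¹ * z)) =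
      ∑ z ∈ univ.filter (fun z => o' z = 1), (o z + o (τ * z)) *
        (phi K o o' (α⁻¹ * z) + phi K o o' (υ * α⁻¹ * z)) := by
    have hT : ∀ o1 : G → ZMod 2, univ.filter (fun z => o1 z = 1) = HS (⊤ : Subgroup G) o1 1 := by
      intro o1
      ext z
      rw [mem_HS, mem_filter]
      simp
    rw [hT, hT]
    refine hs_sum (Subgroup.mem_top _) ho ho' _ _ ?_
    intro z
    have hn' : ∀ d : G, phi K o o' (-d) = phi K o o' d := by
      intro d
      have : -d = d * -1 := by rw [mul_neg, mul_one]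
      rw [this]
      exact hphi d hK
    rw [mul_neg, mul_neg, mul_neg, ho, ho, hn', hn']
    linear_combination (phi K o o' (α⁻¹ * z) + phi K o o' (υ * α⁻¹ * z)) * hone
  rw [s1, s2]
  -- the function on the quotient
  set f : G ⧸ K → ZMod 2 := fun D => phi K o o' D.out with hf
  have hfm : ∀ d : G, f (QuotientGroup.mk d) = phi K o o' d := by
    intro d
    obtain ⟨h, hh⟩ := QuotientGroup.mk_out_eq_mul K d
    show phi K o o' (QuotientGroup.mk d : G ⧸ K).out = _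
    rw [hh]
    exact hphi d h.2
  have s3 : ∑ z ∈ univ.filter (fun z => o' z = 1), (o z + o (τ * z)) *
        (phi K o o' (α⁻¹ * z) + phi K o o' (υ * α⁻¹ * z)) =
      ∑ D : G ⧸ K, (f D + f ((QuotientGroup.mk τ : G ⧸ K) * D)) *
        (f ((QuotientGroup.mk α : G ⧸ K)⁻¹ * D) +
          f ((QuotientGroup.mk υ : G ⧸ K) * (QuotientGroup.mk α : G ⧸ K)⁻¹ * D)) := by
    rw [← sum_fiberwise (univ.filter (fun z => o' z = 1)) (fun z => (QuotientGroup.mk z : G ⧸ K))]
    refine sum_congr rfl fun D _ => ?_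
    obtain ⟨d, rfl⟩ := QuotientGroup.mk_surjective D
    have e1 : ∀ z ∈ (univ.filter (fun z => o' z = 1)).filter
        (fun z => (QuotientGroup.mk z : G ⧸ K) = QuotientGroup.mk d), (o z + o (τ * z)) *
        (phi K o o' (α⁻¹ * z) + phi K o o' (υ * α⁻¹ * z)) = (o z + o (τ * z)) *
          (phi K o o' (α⁻¹ * d) + phi K o o' (υ * α⁻¹ * d)) := by
      intro z hz
      rw [mem_filter] at hz
      have h2 : d⁻¹ * z ∈ K := QuotientGroup.eq.1 hz.2.symm
      have h3 : ∀ c : G, phi K o o' (c * z) = phi K o o' (c * d) := by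
        intro c
        rw [← hphi (c * d) h2]
        congr 1
        rw [mul_assoc, mul_inv_cancel_left]
      rw [h3, h3]
    rw [sum_congr rfl e1, ← sum_mul]
    have e2 : (univ.filter (fun z => o' z = 1)).filter
        (fun z => (QuotientGroup.mk z : G ⧸ K) = QuotientGroup.mk d) = HS K o' d := by
      ext z
      rw [mem_HS, mem_filter, mem_filter]
      constructor
      · rintro ⟨⟨_, h2⟩, h3⟩
        exact ⟨QuotientGroup.eq.1 h3.symm, h2⟩
      · rintro ⟨h2, h3⟩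
        exact ⟨⟨mem_univ _, h3⟩, (QuotientGroup.eq.2 h2).symm⟩
    rw [e2, coset_sum hK ho ho']
    rw [← QuotientGroup.mk_inv, ← QuotientGroup.mk_mul, ← QuotientGroup.mk_mul,
      ← QuotientGroup.mk_mul, ← QuotientGroup.mk_mul, hfm, hfm, hfm, hfm]
  rw [s3]
  -- apply the cancellation lemma
  have hone' : ∀ x : G, x ∈ K ↔ (QuotientGroup.mk x : G ⧸ K) = 1 := fun x =>
    (QuotientGroup.eq_one_iff x).symm
  have hψ1 : ψ 1 = 0 := hψK 1 K.one_mem
  set Ψ : G ⧸ K → ZMod 2 := fun D => ψ D.out with hΨ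
  have hΨm : ∀ d : G, Ψ (QuotientGroup.mk d) = ψ d := by
    intro d
    obtain ⟨h, hh⟩ := QuotientGroup.mk_out_eq_mul K d
    show ψ (QuotientGroup.mk d : G ⧸ K).out = _
    rw [hh, hψ, hψK _ h.2, add_zero]
  refine alg_zero f Ψ ?_ (w := QuotientGroup.mk (α * α * (τ * υ))) ?_ ?_ ?_ ?_ ?_ ?_ ?_ ?_
  · intro x y
    obtain ⟨x, rfl⟩ := QuotientGroup.mk_surjective x
    obtain ⟨y, rfl⟩ := QuotientGroup.mk_surjective y
    rw [← QuotientGroup.mk_mul, hΨm, hΨm, hΨm, hψ]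
  · rw [← QuotientGroup.mk_mul]; exact (hone' _).1 hτ
  · rw [← QuotientGroup.mk_mul]; exact (hone' _).1 hυ
  · simp only [QuotientGroup.mk_mul]
  · rw [← QuotientGroup.mk_mul]; exact (hone' _).1 hw2
  · rcases hτυ with h | h
    · left
      rw [← QuotientGroup.mk_mul]; exact (hone' _).1 h
    · right
      have h2 := (hone' _).1 h
      simp only [QuotientGroup.mk_mul] at h2 ⊢
      rw [h2, one_mul]
  · rw [hΨm]; exact pα
  · rw [hΨm]; exact pτ
  · rw [hΨm, hψ, hψ, hψ, pα, pτ, pυ]; decide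

end

end Pool.Agent.Y687
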