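import Pool.Agent.Y687.K2.Main2

/-!
The main theorems in the rank form of the Birch and Swinnerton-Dyer conjecture.
-/

set_option autoImplicit false
set_option linter.style.haveILetI false

open Finset

namespace Pool.Agent.Y687

open Pool.Agent.TH942 (sw SPt sw_eqn sw_nonsing)

theorem finrank_zero_of_finite {G : Type} [AddCommGroup G] (h : Finite G) :
    Module.finrank ℤ G = 0 := by
  have h1 : Module.rank ℤ G = 0 := by
    rw [rank_eq_zero_iff]
    intro x
    have h2 : IsOfFinAddOrder x := isOfFinAddOrder_of_finite x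
    obtain ⟨n, hn, hx⟩ := isOfFinAddOrder_iff_nsmul_eq_zero.1 h2
    exact ⟨n, by exact_mod_cast hn.ne', by exact_mod_cast hx⟩
  rw [Module.finrank, h1, map_zero]

/-- finitely many affine points make the group of points finite -/
theorem finite_pt_of_set {a b : ℤ}
    (h : {q : ℚ × ℚ | q.2 ^ 2 = q.1 ^ 3 + (a : ℚ) * q.1 + (b : ℚ)}.Finite) :
    Finite (SPt (a : ℚ) (b : ℚ)) := by
  haveI := h.to_subtype
  have key : ∀ P : SPt (a : ℚ) (b : ℚ), P ≠ 0 → ∃ (x y : ℚ) (hP : _),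
      P = WeierstrassCurve.Affine.Point.some x y hP := by
    intro P hP
    rcases P with _ | ⟨x, y, hxy⟩
    · exact absurd rfl hP
    · exact ⟨x, y, hxy, rfl⟩
  let g : SPt (a : ℚ) (b : ℚ) →
      Option {q : ℚ × ℚ | q.2 ^ 2 = q.1 ^ 3 + (a : ℚ) * q.1 + (b : ℚ)} := fun P =>
    match P with
    | .zero => none
    | .some x y hxy => some ⟨(x, y), by
        have := sw_eqn.1 hxy.1
        show y ^ 2 = x ^ 3 + (a : ℚ) * x + (b : ℚ)
        linarith⟩
  refine Finite.of_injective g ?_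
  intro P Q hPQ
  rcases P with _ | ⟨x, y, hxy⟩ <;> rcases Q with _ | ⟨x', y', hxy'⟩
  · rfl
  · simp [g] at hPQ
  · simp [g] at hPQ
  · simp only [g, Option.some.injEq, Subtype.mk.injEq, Prod.mk.injEq] at hPQ
    obtain ⟨rfl, rfl⟩ := hPQ
    rfl

/-- the rank form of BSD -/
def RankBSD (a b : ℤ) : Prop :=
  ∃ F : ℂ → ℂ, Differentiable ℂ F ∧
        (∀ s : ℂ, (3 : ℝ) / 2 < s.re →
          HasProd
            (fun p : ℕ => open Classical in
              if p.Prime ∧ ¬ ((p : ℤ) ∣ 2 * (-4 * a ^ 3 - 27 * b ^ 2)) then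
                (1 - ((p : ℂ) - (Nat.card {q : ZMod p × ZMod p //
                    q.2 ^ 2 = q.1 ^ 3 + (a : ZMod p) * q.1 + (b : ZMod p)} : ℂ))
                    * (p : ℂ) ^ (-s) + (p : ℂ) ^ (1 - 2 * s))⁻¹
              else 1)
            (F s)) ∧
        analyticOrderAt F 1 = 0 ∧
          Module.finrank ℤ
            (WeierstrassCurve.Affine.Point
              (WeierstrassCurve.toAffine
                ({ a₁ := 0, a₂ := 0, a₃ := 0, a₄ := (a : ℚ), a₆ := (b : ℚ) } :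
                  WeierstrassCurve ℚ))) = 0

theorem rankBSD {a b : ℤ} {f : ℂ → ℂ} (hf : Differentiable ℂ f)
    (hp : ∀ s : ℂ, (3 : ℝ) / 2 < s.re →
        HasProd (fun l : {l : ℕ // l.Prime ∧ ¬ ((l : ℤ) ∣ 2 * (4 * a ^ 3 + 27 * b ^ 2))} =>
          fac a b s l) (f s)) (h1 : f 1 ≠ 0)
    (hfin : {q : ℚ × ℚ | q.2 ^ 2 = q.1 ^ 3 + (a : ℚ) * q.1 + (b : ℚ)}.Finite) : RankBSD a b := by
  classical
  refine ⟨f, hf, ?_, ?_, ?_⟩
  · intro s hs
    have hG : ∀ p : ℕ, (¬ ((p : ℤ) ∣ 2 * (-4 * a ^ 3 - 27 * b ^ 2))) ↔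
        ¬ ((p : ℤ) ∣ 2 * (4 * a ^ 3 + 27 * b ^ 2)) := by
      intro p
      have e : 2 * (-4 * a ^ 3 - 27 * b ^ 2) = -(2 * (4 * a ^ 3 + 27 * b ^ 2)) := by ring
      rw [e, dvd_neg]
    have h2 : HasProd ((fun p : ℕ => if p.Prime ∧ ¬ ((p : ℤ) ∣ 2 * (4 * a ^ 3 + 27 * b ^ 2)) then
        fac a b s p else 1) ∘ ((↑) : {l : ℕ | l.Prime ∧ ¬ ((l : ℤ) ∣ 2 * (4 * a ^ 3 + 27 * b ^ 2))} → ℕ))
        (f s) := by
      refine (congrArg (fun g => HasProd g (f s)) (funext fun p => ?_)).mp (hp s hs)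
      simp only [Function.comp_apply]
      exact (if_pos p.2).symm
    have h3 := (hasProd_subtype_iff_of_mulSupport_subset (by
      intro n hn
      rw [Function.mem_mulSupport] at hn
      by_contra h3
      exact hn (if_neg h3))).1 h2
    refine (congrArg (fun g => HasProd g (f s)) (funext fun p => ?_)).mp h3
    by_cases hpp : p.Prime ∧ ¬ ((p : ℤ) ∣ 2 * (4 * a ^ 3 + 27 * b ^ 2))
    · rw [if_pos hpp, if_pos ⟨hpp.1, (hG p).2 hpp.2⟩]
      unfold fac
      push_cast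
      rfl
    · rw [if_neg hpp, if_neg fun h => hpp ⟨h.1, (hG p).1 h.2⟩]
  · exact (hf.analyticAt 1).analyticOrderAt_eq_zero.2 h1
  · exact finrank_zero_of_finite (finite_pt_of_set hfin)

end Pool.Agent.Y687
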