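import Pool.Agent.Y687.K2.AE

/-!
The recursion for two split primes.
-/

set_option autoImplicit false
set_option linter.style.haveILetI false

open Finset

namespace Pool.Agent.Y687

/-- `x` is `2^n` times an integer congruent to `y` modulo two -/
def Qc (n : ℕ) (x y : ℤ) : Prop := ∃ k : ℤ, x = 2 ^ n * (y + 2 * k)

theorem V.qc {n : ℕ} {x : ℤ} (h : V n x) : Qc n x 1 := by
  obtain ⟨k, hk⟩ := h
  exact ⟨k, by rw [hk]; ring⟩

theorem Qc.mul {m n : ℕ} {x y x' y' : ℤ} (h : Qc m x y) (h' : Qc n x' y') :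
    Qc (m + n) (x * x') (y * y') := by
  obtain ⟨k, rfl⟩ := h
  obtain ⟨l, rfl⟩ := h'
  exact ⟨k * y' + l * y + 2 * k * l, by rw [pow_add]; ring⟩

theorem Qc.neg {n : ℕ} {x y : ℤ} (h : Qc n x y) : Qc n (-x) y := by
  obtain ⟨k, rfl⟩ := h
  exact ⟨-y - k, by ring⟩

theorem Qc.add {n : ℕ} {x y x' y' : ℤ} (h : Qc n x y) (h' : Qc n x' y') :
    Qc n (x + x') (y + y') := by
  obtain ⟨k, rfl⟩ := h
  obtain ⟨l, rfl⟩ := h'
  exact ⟨k + l, by ring⟩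

theorem Qc.sgn {n : ℕ} {x y c : ℤ} (hc : c = 1 ∨ c = -1) (h : Qc n x y) : Qc n (c * x) y := by
  rcases hc with rfl | rfl
  · rwa [one_mul]
  · rw [neg_one_mul]
    exact h.neg

theorem Qc.congr {n : ℕ} {x y y' : ℤ} (h : Qc n x y) (h' : (2 : ℤ) ∣ y - y') : Qc n x y' := by
  obtain ⟨k, rfl⟩ := h
  obtain ⟨l, hl⟩ := h'
  exact ⟨k + l, by linear_combination (2 ^ n) * hl⟩

theorem Qc.sum {ι : Type*} {n : ℕ} (U : Finset ι) (f g : ι → ℤ) (h : ∀ i ∈ U, Qc n (f i) (g i)) :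
    Qc n (∑ i ∈ U, f i) (∑ i ∈ U, g i) := by
  classical
  induction U using Finset.induction_on with
  | empty => exact ⟨0, by simp⟩
  | insert i U hi ih =>
    rw [Finset.sum_insert hi, Finset.sum_insert hi]
    exact (h i (Finset.mem_insert_self _ _)).add (ih fun j hj => h j (Finset.mem_insert_of_mem hj))

theorem sgn_prod (c : ℕ → ℤ) (hc : ∀ q, c q = 1 ∨ c q = -1) (T : Finset ℕ) :
    (∏ q ∈ T, c q) = 1 ∨ (∏ q ∈ T, c q) = -1 := by
  classical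
  induction T using Finset.induction_on with
  | empty => left; simp
  | insert q T hq ihT =>
    rw [Finset.prod_insert hq]
    rcases hc q with h3 | h3 <;> rcases ihT with h4 | h4 <;> rw [h3, h4] <;> norm_num

theorem exists_r {p : ℕ} (hp : p.Prime) (hp14 : jacobiSym 14 p = 1) :
    ∃ r : ℤ, (p : ℤ) ∣ 14 * r ^ 2 - 1 := by
  haveI : Fact p.Prime := ⟨hp⟩
  have h140 : ((14 : ℤ) : ZMod p) ≠ 0 := by
    intro h0
    rw [ZMod.intCast_zmod_eq_zero_iff_dvd] at h0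
    exact not_dvd14 hp hp14 (by exact_mod_cast h0)
  rw [← jacobiSym.legendreSym.to_jacobiSym, legendreSym.eq_one_iff p h140] at hp14
  obtain ⟨t, ht⟩ := hp14
  have ht0 : t ≠ 0 := by
    rintro rfl
    apply h140
    rw [ht]; ring
  refine ⟨((t⁻¹).val : ℤ), ?_⟩
  rw [← ZMod.intCast_zmod_eq_zero_iff_dvd]
  push_cast at ht ⊢
  rw [ZMod.natCast_zmod_val, ht]
  field_simp
  ring

theorem jac_r_pm {p : ℕ} (hp : p.Prime) {r : ℤ} (hr : (p : ℤ) ∣ 14 * r ^ 2 - 1) :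
    jacobiSym r p = 1 ∨ jacobiSym r p = -1 := by
  refine jacobiSym.eq_one_or_neg_one ?_
  by_contra hg
  have h3 : (p : ℤ) ∣ r := by
    have h4 : ¬ IsCoprime r (p : ℤ) := fun hc => hg (Int.isCoprime_iff_gcd_eq_one.1 hc)
    have hpP : Prime (p : ℤ) := Nat.prime_iff_prime_int.1 hp
    by_contra h5
    exact h4 ((Prime.coprime_iff_not_dvd hpP).2 h5).symm
  have h4 : (p : ℤ) ∣ 1 := by
    have := dvd_sub (Dvd.dvd.mul_left (dvd_pow h3 two_ne_zero) 14) hr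
    simpa using this
  have h5 := Int.natCast_dvd_natCast.1 (by exact_mod_cast h4 : ((p : ℕ) : ℤ) ∣ ((1 : ℕ) : ℤ))
  exact hp.one_lt.ne' (Nat.dvd_one.1 h5)

/-- data of a split prime -/
structure SP (a : ℕ → ℤ) (p : ℕ) : Prop where
  pp : p.Prime
  p8 : p % 8 = 1
  p14 : jacobiSym 14 p = 1
  ap : (4 : ℤ) ∣ a p - 2

theorem SP.xx {a : ℕ → ℤ} {p : ℕ} (h : SP a p) {T : Finset ℕ} (hT : ∀ q ∈ T, q.Prime)
    (hpT : p ∉ T) : ∃ x : ℤ, a p - 2 * jacobiSym p (∏ q ∈ T, q) = 4 * x := by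
  have hg : Int.gcd (p : ℤ) ((∏ q ∈ T, q : ℕ) : ℤ) = 1 := by
    rw [Int.gcd_natCast_natCast]
    refine Nat.Coprime.prod_right fun q hq => ?_
    rw [Nat.coprime_primes h.pp (hT q hq)]
    rintro rfl
    exact hpT hq
  obtain ⟨k, hk⟩ := h.ap
  rcases jacobiSym.eq_one_or_neg_one hg with h1 | h1
  · rw [h1]; exact ⟨k, by linear_combination hk⟩
  · rw [h1]; exact ⟨k + 1, by linear_combination hk⟩

/-- twisting by another split prime -/
theorem SP.xx2 {a : ℕ → ℤ} {p : ℕ} (h : SP a p) {T : Finset ℕ} (hT : ∀ q ∈ T, q.Prime)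
    (hpT : p ∉ T) {p' : ℕ} {ε x : ℤ} (hp' : p'.Prime)
    (hε : (jacobiSym p p' = 1 ∧ ε = 0) ∨ (jacobiSym p p' = -1 ∧ ε = 1))
    (hx : a p - 2 * jacobiSym p (∏ q ∈ T, q) = 4 * x) :
    Qc 2 (a p - 2 * jacobiSym p (p' * ∏ q ∈ T, q)) (x + ε) := by
  have hg : Int.gcd (p : ℤ) ((∏ q ∈ T, q : ℕ) : ℤ) = 1 := by
    rw [Int.gcd_natCast_natCast]
    refine Nat.Coprime.prod_right fun q hq => ?_
    rw [Nat.coprime_primes h.pp (hT q hq)]
    rintro rfl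
    exact hpT hq
  have hT0 : (∏ q ∈ T, q) ≠ 0 := Finset.prod_ne_zero_iff.2 fun q hq => (hT q hq).ne_zero
  have e : jacobiSym p (p' * ∏ q ∈ T, q) = jacobiSym p p' * jacobiSym p (∏ q ∈ T, q) :=
    jacobiSym.mul_right' _ hp'.ne_zero hT0
  rw [e]
  rcases hε with ⟨h1, rfl⟩ | ⟨h1, rfl⟩
  · rw [h1, one_mul, hx]
    exact ⟨0, by ring⟩
  · rw [h1]
    rcases jacobiSym.eq_one_or_neg_one hg with h2 | h2
    · rw [h2] at hx ⊢
      exact ⟨0, by linear_combination hx⟩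
    · rw [h2] at hx ⊢
      exact ⟨-1, by linear_combination hx⟩

theorem SP.L {s : ℚ → ℤ} {a : ℕ → ℤ} (hs : Symb s a) {p : ℕ} (h : SP a p) {T : Finset ℕ}
    (hT : ∀ q ∈ T, isII a q) (hpT : p ∉ T) {x : ℤ}
    (hx : a p - 2 * jacobiSym p (∏ q ∈ T, q) = 4 * x) :
    Qc (T.card + 2) (SS s (∏ q ∈ insert p T, q) (∏ q ∈ insert p T, q)) x := by
  obtain ⟨l, hl⟩ := sum_split hs p h.pp h.p8 h.p14 h.ap T hT hpT
  rw [Finset.prod_insert hpT]
  rw [hx] at hl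
  refine ⟨l, ?_⟩
  rw [pow_add] at hl ⊢
  linear_combination hl

end Pool.Agent.Y687
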