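import Pool.Agent.Y687.K2.Ded

/-!
The three term relation for Dedekind sums.
-/

set_option autoImplicit false

open Finset

namespace Pool.Agent.Y687

/-- twelve times the Dedekind sum at `h / k` -/
def psi (h k : ℤ) : ℚ := 12 * (k.sign : ℚ) * ded h k.natAbs

theorem psi_neg_neg {h k : ℤ} (hk : k ≠ 0) : psi (-h) (-k) = psi h k := by
  unfold psi
  rw [Int.sign_neg, Int.natAbs_neg, ded_neg (Int.natAbs_pos.2 hk)]
  push_cast
  ring

theorem psi_congr {h h' k : ℤ} (hh : k ∣ h - h') : psi h k = psi h' k := by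
  unfold psi
  rw [ded_congr (h := h) (h' := h') (by rw [Int.natCast_natAbs, abs_dvd]; exact hh)]

theorem psi_add (h k m : ℤ) : psi (h + m * k) k = psi h k :=
  psi_congr ⟨m, by ring⟩

theorem psi_one (h : ℤ) : psi h 1 = 0 := by
  unfold psi
  have : (1 : ℤ).natAbs = 1 := rfl
  rw [this, ded_one, mul_zero]

theorem psi_S {h k : ℤ} (hh : h ≠ 0) (hk : k ≠ 0) (hc : IsCoprime h k) :
    psi (-k) h - psi h k = -((k : ℚ) / h) - (h : ℚ) / k - 1 / ((k : ℚ) * h) + 3 * ((k * h).sign : ℚ) := by
  wlog hkp : 0 < k generalizing h k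
  · have hk' : 0 < -k := by omega
    have h1 := this (h := -h) (k := -k) (neg_ne_zero.2 hh) (neg_ne_zero.2 hk) hc.neg_neg hk'
    rw [psi_neg_neg hk, psi_neg_neg hh] at h1
    rw [h1, neg_mul_neg]
    push_cast
    rw [neg_div_neg_eq, neg_div_neg_eq, neg_mul_neg]
  obtain ⟨b, rfl⟩ : ∃ b : ℕ, k = b := ⟨k.toNat, (Int.toNat_of_nonneg hkp.le).symm⟩
  have hb : 0 < b := by exact_mod_cast hkp
  have hbq : (b : ℚ) ≠ 0 := by exact_mod_cast hb.ne'
  rcases lt_or_gt_of_ne hh with hneg | hpos
  · obtain ⟨a, ha⟩ : ∃ a : ℕ, h = -(a : ℤ) := ⟨(-h).toNat, by rw [Int.toNat_of_nonneg (by omega)]; ring⟩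
    subst ha
    have ha : 0 < a := by omega
    have haq : (a : ℚ) ≠ 0 := by exact_mod_cast ha.ne'
    have hc' : Nat.Coprime a b := by
      have := hc.neg_left
      rw [neg_neg] at this
      exact Nat.isCoprime_iff_coprime.1 this
    have h1 := ded_recip ha hb hc'
    unfold psi
    have e1 : (-(a : ℤ)).sign = -1 := Int.sign_eq_neg_one_of_neg (by omega)
    have e2 : (b : ℤ).sign = 1 := Int.sign_eq_one_of_pos (by omega)
    rw [Int.sign_mul, e1, e2, Int.natAbs_neg, Int.natAbs_natCast, Int.natAbs_natCast, ded_neg ha,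
      ded_neg hb]
    push_cast
    have h2 : 12 * (-1 : ℚ) * -ded (b : ℤ) a - 12 * 1 * -ded (a : ℤ) b =
        12 * (ded (a : ℤ) b + ded (b : ℤ) a) := by ring
    rw [h2, h1]
    field_simp
    ring
  · obtain ⟨a, ha⟩ : ∃ a : ℕ, h = (a : ℤ) := ⟨h.toNat, (Int.toNat_of_nonneg hpos.le).symm⟩
    subst ha
    have ha : 0 < a := by omega
    have haq : (a : ℚ) ≠ 0 := by exact_mod_cast ha.ne'
    have hc' : Nat.Coprime a b := Nat.isCoprime_iff_coprime.1 hc
    have h1 := ded_recip ha hb hc'
    unfold psi
    have e1 : ((a : ℤ)).sign = 1 := Int.sign_eq_one_of_pos (by omega)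
    have e2 : (b : ℤ).sign = 1 := Int.sign_eq_one_of_pos (by omega)
    rw [Int.sign_mul, e1, e2, Int.natAbs_natCast, Int.natAbs_natCast, ded_neg ha]
    push_cast
    have h2 : 12 * (1 : ℚ) * -ded (b : ℤ) a - 12 * 1 * ded (a : ℤ) b =
        -(12 * (ded (a : ℤ) b + ded (b : ℤ) a)) := by ring
    rw [h2, h1]
    field_simp
    ring

theorem sign_id {C D0 k h1 k' : ℤ} (hC : 0 < C) (hD : 0 < D0) (hk : k ≠ 0) (hh : h1 ≠ 0)
    (hk' : k' = C * h1 + D0 * k) (hk0 : k' ≠ 0) :
    (k * h1).sign - (h1 * k').sign = (k * k').sign - 1 := by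
  rw [Int.sign_mul, Int.sign_mul, Int.sign_mul]
  rcases lt_or_gt_of_ne hk with a1 | a1 <;> rcases lt_or_gt_of_ne hh with a2 | a2 <;>
    rcases lt_or_gt_of_ne hk0 with a3 | a3
  · rw [Int.sign_eq_neg_one_of_neg a1, Int.sign_eq_neg_one_of_neg a2, Int.sign_eq_neg_one_of_neg a3]
    norm_num
  · exfalso; nlinarith
  · rw [Int.sign_eq_neg_one_of_neg a1, Int.sign_eq_one_of_pos a2, Int.sign_eq_neg_one_of_neg a3]
    norm_num
  · rw [Int.sign_eq_neg_one_of_neg a1, Int.sign_eq_one_of_pos a2, Int.sign_eq_one_of_pos a3]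
    norm_num
  · rw [Int.sign_eq_one_of_pos a1, Int.sign_eq_neg_one_of_neg a2, Int.sign_eq_neg_one_of_neg a3]
    norm_num
  · rw [Int.sign_eq_one_of_pos a1, Int.sign_eq_neg_one_of_neg a2, Int.sign_eq_one_of_pos a3]
    norm_num
  · exfalso; nlinarith
  · rw [Int.sign_eq_one_of_pos a1, Int.sign_eq_one_of_pos a2, Int.sign_eq_one_of_pos a3]
    norm_num

/-- the three term relation -/
theorem three (C : ℕ) : 0 < C → ∀ A B D : ℤ, A * D - B * C = 1 → ∃ κ : ℚ,
    (∀ h k : ℤ, IsCoprime h k → k ≠ 0 → (C : ℤ) * h + D * k ≠ 0 →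
      psi (A * h + B * k) (C * h + D * k) - psi h k =
        ((A * h + B * k : ℤ) : ℚ) / ((C * h + D * k : ℤ) : ℚ) - (h : ℚ) / k
          - (C : ℚ) / ((k : ℚ) * ((C * h + D * k : ℤ) : ℚ))
          + 3 * ((k * (C * h + D * k)).sign : ℚ) - κ) ∧
    psi A C = ((A : ℚ) + D) / C - κ := by
  induction C using Nat.strong_induction_on with
  | _ C ih =>
    intro hC A B D hdet
    rcases Nat.lt_or_ge 1 C with hC1 | hC1
    · -- reduction
      set m : ℤ := D / C with hm
      set D0 : ℤ := D % C with hD0
      have hDm : D = m * C + D0 := by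
        have := Int.emod_add_mul_ediv D C
        rw [← hm, ← hD0] at this
        linear_combination -this
      have hCz : (0 : ℤ) < C := by exact_mod_cast hC
      have hD0n : 0 ≤ D0 := Int.emod_nonneg _ hCz.ne'
      have hD0l : D0 < C := Int.emod_lt_of_pos _ hCz
      have hD0p : 0 < D0 := by
        rcases lt_or_eq_of_le hD0n with h1 | h1
        · exact h1
        · exfalso
          rw [← h1, add_zero] at hDm
          have h2 : (C : ℤ) ∣ 1 := ⟨A * m - B, by rw [← hdet, hDm]; ring⟩
          have h3 := Int.natCast_dvd_natCast.1 (by exact_mod_cast h2 : ((C : ℕ) : ℤ) ∣ ((1 : ℕ) : ℤ))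
          have := Nat.le_of_dvd one_pos h3
          omega
      obtain ⟨c, hc⟩ : ∃ c : ℕ, D0 = c := ⟨D0.toNat, (Int.toNat_of_nonneg hD0n).symm⟩
      have hc0 : 0 < c := by omega
      have hcl : c < C := by omega
      have hcq : (c : ℚ) ≠ 0 := by exact_mod_cast hc0.ne'
      have hCq : (C : ℚ) ≠ 0 := by exact_mod_cast hC.ne'
      obtain ⟨B0, hB0⟩ : ∃ B0, B0 = B - m * A := ⟨_, rfl⟩
      have hB : B = m * A + B0 := by rw [hB0]; ring
      have hdet' : B0 * (-(C : ℤ)) - (-A) * (c : ℤ) = 1 := by
        rw [← hc, hB0]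
        rw [hDm] at hdet
        linear_combination hdet
      obtain ⟨κ', i1, i2⟩ := ih c hcl hc0 B0 (-A) (-(C : ℤ)) hdet'
      have hDq : (D : ℚ) = m * C + c := by rw [hDm, hc]; push_cast; rfl
      refine ⟨κ' + m + 3, ?_, ?_⟩
      · intro h k hcop hk hK
        obtain ⟨h1, hh1⟩ : ∃ h1, h1 = h + m * k := ⟨_, rfl⟩
        obtain ⟨K, hK1⟩ : ∃ K, K = (C : ℤ) * h + D * k := ⟨_, rfl⟩
        obtain ⟨H, hH1⟩ : ∃ H, H = A * h + B * k := ⟨_, rfl⟩
        have hKe : K = C * h1 + c * k := by rw [hK1, hDm, hc, hh1]; ring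
        have hHe : H = A * h1 + B0 * k := by rw [hH1, hB, hh1]; ring
        rw [← hK1] at hK
        rw [← hK1, ← hH1]
        have hkq : (k : ℚ) ≠ 0 := by exact_mod_cast hk
        have hKq : (K : ℚ) ≠ 0 := by exact_mod_cast hK
        have hKeq : (K : ℚ) = C * h1 + c * k := by rw [hKe]; push_cast; rfl
        have hHeq : (H : ℚ) = A * h1 + B0 * k := by rw [hHe]; push_cast; rfl
        have hhq : (h : ℚ) = h1 - m * k := by rw [hh1]; push_cast; ring
        have hcop1 : IsCoprime h1 k := by
          rw [hh1]; exact (IsCoprime.add_mul_right_left_iff).2 hcop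
        rcases eq_or_ne h1 0 with h0 | h0
        · -- the point is sent to infinity by the first step
          have hku : IsUnit k := by
            rw [h0] at hcop1
            exact isCoprime_zero_left.1 hcop1
          have e1 : psi h k = 0 := by
            rcases Int.isUnit_iff.1 hku with rfl | rfl
            · exact psi_one _
            · rw [← psi_neg_neg (by norm_num)]; exact psi_one _
          have e2 : psi H K = psi B0 c := by
            rw [hKe, hHe, h0]
            rcases Int.isUnit_iff.1 hku with rfl | rfl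
            · congr 1 <;> ring
            · have : psi B0 c = psi (-B0) (-c) := (psi_neg_neg (by omega)).symm
              rw [this]
              congr 1 <;> ring
          have e3 : (k * K).sign = 1 := by
            rw [hKe, h0]
            apply Int.sign_eq_one_of_pos
            have : k * ((C : ℤ) * 0 + c * k) = c * (k * k) := by ring
            rw [this]
            have h2 : k * k = 1 := by
              rcases Int.isUnit_iff.1 hku with rfl | rfl <;> norm_num
            rw [h2]
            omega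
          rw [e1, e2, e3, i2, hKeq, hHeq]
          have h2 : (k : ℚ) * k = 1 := by
            rcases Int.isUnit_iff.1 hku with rfl | rfl <;> norm_num
          have h3 : (h1 : ℚ) = 0 := by exact_mod_cast h0
          rw [hhq, h3]
          have h4 : (k : ℚ) * (C * 0 + c * k) = c := by linear_combination (c : ℚ) * h2
          rw [h4]
          push_cast
          field_simp
          ring
        · -- the generic case
          have hh1q : (h1 : ℚ) ≠ 0 := by exact_mod_cast h0
          have s1 := psi_S h0 hk hcop1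
          have e1 : psi h k = psi h1 k := by rw [hh1, psi_add]
          have hcop2 : IsCoprime (-k) h1 := hcop1.symm.neg_left
          have t1 : (c : ℤ) * (-k) + (-(C : ℤ)) * h1 = -K := by rw [hKe]; ring
          have t2 : B0 * (-k) + (-A) * h1 = -H := by rw [hHe]; ring
          have s2 := i1 (-k) h1 hcop2 h0 (by rw [t1]; exact neg_ne_zero.2 hK)
          rw [t1, t2, psi_neg_neg hK] at s2
          have sg := sign_id hCz (show (0 : ℤ) < c by omega) hk h0 hKe hK
          have sgq : ((k * h1).sign : ℚ) - ((h1 * K).sign : ℚ) = ((k * K).sign : ℚ) - 1 := by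
            exact_mod_cast sg
          have e4 : (h1 * -K).sign = -(h1 * K).sign := by rw [mul_neg, Int.sign_neg]
          rw [e4] at s2
          rw [e1]
          push_cast at s1 s2 ⊢
          have key : psi H K - psi h1 k =
            (psi H K - psi (-k) h1) + (psi (-k) h1 - psi h1 k) := by ring
          rw [key, s1, s2]
          have r1 : -(H : ℚ) / -(K : ℚ) = (H : ℚ) / K := neg_div_neg_eq _ _
          rw [r1, hhq]
          have r2 : -(-(k : ℚ) / h1) - (c : ℚ) / ((h1 : ℚ) * -K) - (k : ℚ) / h1 - 1 / ((k : ℚ) * h1)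
              = - (C : ℚ) / ((k : ℚ) * K) := by
            have r4 : (c : ℚ) / (h1 * K) - 1 / (k * h1) = -(C : ℚ) / (k * K) := by
              rw [div_sub_div _ _ (mul_ne_zero hh1q hKq) (mul_ne_zero hkq hh1q),
                div_eq_div_iff (mul_ne_zero (mul_ne_zero hh1q hKq) (mul_ne_zero hkq hh1q))
                  (mul_ne_zero hkq hKq)]
              linear_combination (-(h1 : ℚ) * k * K) * hKeq
            have r5 : (c : ℚ) / ((h1 : ℚ) * -K) = -((c : ℚ) / (h1 * K)) := by
              rw [mul_neg, div_neg]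
            rw [r5]
            linear_combination r4
          have r3 : ((h1 : ℚ) - m * k) / k = h1 / k - m := by
            field_simp
          rw [r3]
          linear_combination r2 + 3 * sgq
      · -- the value at infinity
        have t1 : (c : ℤ) * 0 + (-(C : ℤ)) * 1 = -C := by ring
        have t2 : B0 * 0 + (-A) * 1 = -A := by ring
        have s2 := i1 0 1 (isCoprime_zero_left.2 isUnit_one) one_ne_zero (by rw [t1]; omega)
        rw [t1, t2, psi_neg_neg hCz.ne', psi_one] at s2
        have e4 : (1 * -(C : ℤ)).sign = -1 := by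
          apply Int.sign_eq_neg_one_of_neg; omega
        rw [e4] at s2
        push_cast at s2
        rw [sub_zero] at s2
        rw [s2, hDq]
        field_simp
        ring
    · -- `C = 1`
      have hC' : C = 1 := by omega
      subst hC'
      have hB : B = A * D - 1 := by push_cast at hdet; linarith
      refine ⟨(A : ℚ) + D, ?_, ?_⟩
      · intro h k hcop hk hK
        obtain ⟨h1, hh1⟩ : ∃ h1, h1 = h + D * k := ⟨_, rfl⟩
        have hK' : ((1 : ℕ) : ℤ) * h + D * k = h1 := by rw [hh1]; push_cast; ring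
        have hH' : A * h + B * k = -k + A * h1 := by rw [hB, hh1]; ring
        rw [hK'] at hK
        rw [hK', hH', psi_add]
        have hcop1 : IsCoprime h1 k := by
          rw [hh1]; exact (IsCoprime.add_mul_right_left_iff).2 hcop
        have s1 := psi_S hK hk hcop1
        have e1 : psi h k = psi h1 k := by rw [hh1, psi_add]
        have hkq : (k : ℚ) ≠ 0 := by exact_mod_cast hk
        have hh1q : (h1 : ℚ) ≠ 0 := by exact_mod_cast hK
        have hhq : (h : ℚ) = h1 - D * k := by rw [hh1]; push_cast; ring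
        rw [e1, s1, hhq]
        push_cast
        field_simp
        ring
      · have : ((1 : ℕ) : ℤ) = 1 := rfl
        rw [this, psi_one]
        push_cast
        ring

end Pool.Agent.Y687
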